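import Pool.Agent.Lib.MP_eed79e_coW.Hyp

/-!
# JOB Abs: elementary facts on abstract polytopes

PROOFS.
* `rank_mem`: `range_rank`.
* `eq_bot_of_rank`, `eq_top_of_rank`: `bot ≤ x`; if `bot < x` then `-1 < rank x` (`rank_mono`).
* `exists_between`: `{x, y}` is a chain, so it is contained in a maximal chain `M` (`IsChain.exists_maxChain`), `M.encard = n + 2` (`A.flag`). `rank` is
  injective on `M` (two elements of a chain are comparable, `rank_mono`) and maps `M` into `Set.Icc (-1) n`, which has `n + 2` elements (`Int.card_Icc`, `Set.encard_coe_eq_coe_finsetCard`,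
  `Finset.coe_Icc`); so `rank '' M = Set.Icc (-1) n` (`Set.InjOn.encard_image`, `Set.Finite.eq_of_subset_of_encard_le`). So there is `z ∈ M` with `rank z = r`. It is comparable with `x`
  and `y`, and the ranks give `x < z < y`.
* `exists_two`: `Set.encard_eq_two`.
* `conn_ind`: `Relation.ReflTransGen` induction (`Relation.ReflTransGen.head_induction_on` or `induction`) with the statement `(x < s ∧ s < y) ∧ S s`; a step `s ≤ t` is `s = t` or `s < t`.
* `flag_of_dense`: let `M` be a maximal chain. `bot, top ∈ M` (they are comparable with everything: `IsMaxChain` says that `M = insert bot M` if this is a chain). Every `r` with `-1 ≤ r ≤ n` is the rank of an element of `M`: otherwise let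
  `x` be an element of `M` with `rank x < r` and `rank x` maximal (the ranks of such elements form a nonempty set of integers bounded above: `Int.exists_greatest_of_bdd`, or choose by induction), `y` an element of `M` with `rank y > r` and `rank y` minimal; `x < y` (comparable, ranks),
  `rank x + 1 < rank y`, so there is `z` with `x < z < y`; every `u ∈ M` satisfies `u ≤ x` or `y ≤ u` (comparable with `x` and `y`; if `x < u < y` then `rank x < rank u < rank y`, contradiction to the choice of `x`, `y` or of `r`), so `insert z M` is a chain and `z ∈ M`, the same contradiction. So `rank` is a bijection of `M` with `Set.Icc (-1) n` and `M.encard = n + 2`.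
  For the range: apply this to a maximal chain containing `∅` (`IsChain.exists_maxChain` for the empty chain).
-/

set_option autoImplicit false

namespace Pool.Agent.Lib.MP_eed79e_coW

private theorem absa_card (n : ℕ) : (Set.Icc (-1) (n : ℤ)).encard = n + 2 := by
  rw [← Finset.coe_Icc, Set.encard_coe_eq_coe_finsetCard, Int.card_Icc]
  have h1 : ((n : ℤ) + 1 - -1).toNat = n + 2 := by omega
  rw [h1]
  push_cast
  rfl

private theorem absa_pair {P : Type} [PartialOrder P] {x y : P} (h : x ≤ y) :
    IsChain (· ≤ ·) ({x, y} : Set P) := by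
  intro a ha b hb _
  rcases ha with rfl | ha
  · rcases hb with rfl | hb
    · exact Or.inl le_rfl
    · rw [Set.mem_singleton_iff] at hb
      rw [hb]
      exact Or.inl h
  · rw [Set.mem_singleton_iff] at ha
    rw [ha]
    rcases hb with rfl | hb
    · exact Or.inr h
    · rw [Set.mem_singleton_iff] at hb
      rw [hb]
      exact Or.inl le_rfl

private theorem absa_injOn {P : Type} [PartialOrder P] {rank : P → ℤ} (hs : StrictMono rank)
    {M : Set P} (hM : IsChain (· ≤ ·) M) : Set.InjOn rank M := by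
  intro a ha b hb hab
  by_contra hne
  rcases hM.total ha hb with h | h
  · exact absurd hab (ne_of_lt (hs (lt_of_le_of_ne h hne)))
  · exact absurd hab (ne_of_gt (hs (lt_of_le_of_ne h (Ne.symm hne))))

private theorem absb_key {n : ℕ} {P : Type} [PartialOrder P] (rank : P → ℤ)
    (hs : StrictMono rank) (bot top : P) (hb : ∀ x, bot ≤ x) (ht : ∀ x, x ≤ top)
    (rb : rank bot = -1) (rt : rank top = n)
    (hd : ∀ x y, x < y → rank x + 1 < rank y → ∃ z, x < z ∧ z < y) (M : Set P)
    (hM : IsMaxChain (· ≤ ·) M) (r : ℤ) (h1 : -1 ≤ r) (h2 : r ≤ n) : ∃ z ∈ M, rank z = r := by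
  by_contra hcon
  push Not at hcon
  have hins : ∀ z : P, (∀ u ∈ M, z ≤ u ∨ u ≤ z) → z ∈ M := by
    intro z hz
    have h3 : IsChain (· ≤ ·) (insert z M) := hM.1.insert fun u hu _ => hz u hu
    have h4 := hM.2 h3 (Set.subset_insert z M)
    rw [h4]
    exact Set.mem_insert z M
  have hbot : bot ∈ M := hins bot fun u _ => Or.inl (hb u)
  have htop : top ∈ M := hins top fun u _ => Or.inr (ht u)
  have hb1 : rank bot < r := lt_of_le_of_ne (by rw [rb]; exact h1) (hcon bot hbot)
  have ht1 : r < rank top := lt_of_le_of_ne (by rw [rt]; exact h2) (Ne.symm (hcon top htop))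
  obtain ⟨kx, ⟨x, hx, hxk, hxr⟩, hxmax⟩ := Int.exists_greatest_of_bdd
    (P := fun k => ∃ x ∈ M, rank x = k ∧ k < r) ⟨r, fun z ⟨_, _, _, h⟩ => le_of_lt h⟩
    ⟨_, bot, hbot, rfl, hb1⟩
  obtain ⟨ky, ⟨y, hy, hyk, hyr⟩, hymin⟩ := Int.exists_least_of_bdd
    (P := fun k => ∃ x ∈ M, rank x = k ∧ r < k) ⟨r, fun z ⟨_, _, _, h⟩ => le_of_lt h⟩
    ⟨_, top, htop, rfl, ht1⟩
  have hxy : x < y := by
    rcases hM.1.total hx hy with h | h
    · refine lt_of_le_of_ne h (fun h' => ?_)
      rw [h'] at hxk
      omega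
    · have h5 := hs.monotone h
      omega
  obtain ⟨z, hxz, hzy⟩ := hd x y hxy (by omega)
  have hzx' := hs hxz
  have hzy' := hs hzy
  have hzM : z ∈ M := by
    refine hins z fun u hu => ?_
    rcases lt_trichotomy (rank u) r with h | h | h
    · have h5 := hxmax (rank u) ⟨u, hu, rfl, h⟩
      rcases hM.1.total hx hu with h6 | h6
      · rcases eq_or_lt_of_le h6 with h7 | h7
        · rw [← h7]
          exact Or.inr (le_of_lt hxz)
        · have h8 := hs h7
          omega
      · exact Or.inr (h6.trans (le_of_lt hxz))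
    · exact absurd h (hcon u hu)
    · have h5 := hymin (rank u) ⟨u, hu, rfl, h⟩
      rcases hM.1.total hy hu with h6 | h6
      · exact Or.inl ((le_of_lt hzy).trans h6)
      · rcases eq_or_lt_of_le h6 with h7 | h7
        · rw [h7]
          exact Or.inl (le_of_lt hzy)
        · have h8 := hs h7
          omega
  rcases lt_trichotomy (rank z) r with h | h | h
  · have h5 := hxmax (rank z) ⟨z, hzM, rfl, h⟩
    omega
  · exact hcon z hzM h
  · have h5 := hymin (rank z) ⟨z, hzM, rfl, h⟩
    omega

section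

variable {n : ℕ} {P : Type} [PartialOrder P] (A : AbsPoly n P)

theorem AbsPoly.rank_mem (x : P) : -1 ≤ A.rank x ∧ A.rank x ≤ n := by
  have h : A.rank x ∈ Set.Icc (-1) (n : ℤ) := by
    rw [← A.range_rank]
    exact Set.mem_range_self x
  exact h

theorem AbsPoly.eq_bot_of_rank {x : P} (h : A.rank x = -1) : x = A.bot := by
  by_contra hne
  have h1 : A.bot < x := lt_of_le_of_ne (A.bot_le x) (fun h2 => hne h2.symm)
  have h2 := A.rank_mono h1
  rw [A.rank_bot, h] at h2
  exact lt_irrefl _ h2

theorem AbsPoly.bot_lt {x : P} (h : -1 < A.rank x) : A.bot < x := by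
  refine lt_of_le_of_ne (A.bot_le x) (fun h2 => ?_)
  rw [← h2, A.rank_bot] at h
  exact lt_irrefl _ h

theorem AbsPoly.lt_top {x : P} (h : A.rank x < n) : x < A.top := by
  refine lt_of_le_of_ne (A.le_top x) (fun h2 => ?_)
  rw [h2, A.rank_top] at h
  exact lt_irrefl _ h

theorem AbsPoly.exists_between {x y : P} (h : x < y) (r : ℤ) (h1 : A.rank x < r)
    (h2 : r < A.rank y) : ∃ z, x < z ∧ z < y ∧ A.rank z = r := by
  obtain ⟨M, hM, hsub⟩ := (absa_pair (le_of_lt h)).exists_maxChain
  have hx : x ∈ M := hsub (Set.mem_insert _ _)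
  have hy : y ∈ M := hsub (Set.mem_insert_of_mem _ rfl)
  have hinj : Set.InjOn A.rank M := absa_injOn A.rank_mono hM.1
  have himg : A.rank '' M = Set.Icc (-1) (n : ℤ) := by
    refine Set.Finite.eq_of_subset_of_encard_le' (Set.finite_Icc _ _) ?_ ?_
    · rintro _ ⟨z, _, rfl⟩
      exact A.rank_mem z
    · rw [hinj.encard_image, A.flag M hM, absa_card]
  have hr : r ∈ A.rank '' M := by
    rw [himg]
    have h3 := A.rank_mem x
    have h4 := A.rank_mem y
    exact ⟨by linarith [h3.1], by linarith [h4.2]⟩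
  obtain ⟨z, hz, rfl⟩ := hr
  refine ⟨z, ?_, ?_, rfl⟩
  · rcases hM.1.total hx hz with h5 | h5
    · refine lt_of_le_of_ne h5 (fun h6 => ?_)
      rw [h6] at h1
      exact lt_irrefl _ h1
    · exact absurd (A.rank_mono.monotone h5) (not_le.2 h1)
  · rcases hM.1.total hz hy with h5 | h5
    · refine lt_of_le_of_ne h5 (fun h6 => ?_)
      rw [h6] at h2
      exact lt_irrefl _ h2
    · exact absurd (A.rank_mono.monotone h5) (not_le.2 h2)

theorem AbsPoly.exists_two {x y : P} (h : x < y) (h2 : A.rank y = A.rank x + 2) :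
    ∃ a b, a ≠ b ∧ x < a ∧ a < y ∧ x < b ∧ b < y ∧ A.rank a = A.rank x + 1 ∧
      A.rank b = A.rank x + 1 ∧ ∀ z, x < z → z < y → z = a ∨ z = b := by
  have h1 := A.diamond x y h (by rw [h2]; ring)
  obtain ⟨a, b, hab, h3⟩ := Set.encard_eq_two.1 h1
  have ha : a ∈ {z | x < z ∧ z < y} := by
    rw [h3]
    exact Set.mem_insert _ _
  have hb : b ∈ {z | x < z ∧ z < y} := by
    rw [h3]
    exact Set.mem_insert_of_mem _ rfl
  refine ⟨a, b, hab, ha.1, ha.2, hb.1, hb.2, ?_, ?_, fun z hz hz' => ?_⟩
  · have h4 := A.rank_mono ha.1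
    have h5 := A.rank_mono ha.2
    omega
  · have h4 := A.rank_mono hb.1
    have h5 := A.rank_mono hb.2
    omega
  · have h4 : z ∈ {z | x < z ∧ z < y} := ⟨hz, hz'⟩
    rw [h3] at h4
    rcases h4 with h4 | h4
    · exact Or.inl h4
    · exact Or.inr h4

theorem AbsPoly.conn_ind {x y : P} (h : x < y) (h3 : A.rank x + 3 ≤ A.rank y) (S : P → Prop)
    (hS : ∀ s t, x < s → s < y → x < t → t < y → (s < t ∨ t < s) → S s → S t) {a b : P}
    (ha : x < a) (ha' : a < y) (hb : x < b) (hb' : b < y) (hSa : S a) : S b := by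
  have h4 := A.conn x y h (by linarith) a b ha ha' hb hb'
  have h5 : ∀ s, Relation.ReflTransGen (fun s t => (x < t ∧ t < y) ∧ (s ≤ t ∨ t ≤ s)) a s →
      (x < s ∧ s < y) ∧ S s := by
    intro s hs
    induction hs with
    | refl => exact ⟨⟨ha, ha'⟩, hSa⟩
    | tail _ hst ih =>
      obtain ⟨⟨h6, h7⟩, h8⟩ := ih
      refine ⟨hst.1, ?_⟩
      rcases hst.2 with h9 | h9
      · rcases eq_or_lt_of_le h9 with h10 | h10
        · rw [← h10]
          exact h8
        · exact hS _ _ h6 h7 hst.1.1 hst.1.2 (Or.inl h10) h8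
      · rcases eq_or_lt_of_le h9 with h10 | h10
        · rw [h10]
          exact h8
        · exact hS _ _ h6 h7 hst.1.1 hst.1.2 (Or.inr h10) h8
  exact (h5 b h4).2

end

theorem flag_of_dense {n : ℕ} {P : Type} [PartialOrder P] (rank : P → ℤ) (hs : StrictMono rank)
    (bot top : P) (hb : ∀ x, bot ≤ x) (ht : ∀ x, x ≤ top) (rb : rank bot = -1)
    (rt : rank top = n) (hd : ∀ x y, x < y → rank x + 1 < rank y → ∃ z, x < z ∧ z < y) :
    (∀ s : Set P, IsMaxChain (· ≤ ·) s → s.encard = n + 2) ∧
      Set.range rank = Set.Icc (-1) (n : ℤ) := by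
  have hex : ∀ M : Set P, IsMaxChain (· ≤ ·) M → ∀ r : ℤ, -1 ≤ r → r ≤ n →
      ∃ z ∈ M, rank z = r := fun M hM r h1 h2 =>
    absb_key rank hs bot top hb ht rb rt hd M hM r h1 h2
  have himg : ∀ M : Set P, IsMaxChain (· ≤ ·) M → rank '' M = Set.Icc (-1) (n : ℤ) := by
    intro M hM
    refine Set.Subset.antisymm ?_ ?_
    · rintro _ ⟨z, _, rfl⟩
      refine ⟨?_, ?_⟩
      · rw [← rb]
        exact hs.monotone (hb z)
      · rw [← rt]
        exact hs.monotone (ht z)
    · rintro r ⟨h1, h2⟩
      exact hex M hM r h1 h2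
  refine ⟨fun M hM => ?_, ?_⟩
  · rw [← (absa_injOn hs hM.1).encard_image, himg M hM, absa_card]
  · obtain ⟨M, hM, _⟩ := (absa_pair (le_refl bot)).exists_maxChain
    refine Set.Subset.antisymm ?_ ?_
    · rintro _ ⟨z, rfl⟩
      refine ⟨?_, ?_⟩
      · rw [← rb]
        exact hs.monotone (hb z)
      · rw [← rt]
        exact hs.monotone (ht z)
    · rw [← himg M hM]
      exact Set.image_subset_range _ _

end Pool.Agent.Lib.MP_eed79e_coW
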