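import Pool.Agent.Lib.MP_eed79e_coW.Rea

/-!
# JOB Act: symmetries of the realization

`W = wJ M.r univ`. An isometry `a` fixing `o` with `a r_i a⁻¹ = r_{π i}`, `π` an automorphism of the polyhedron `Q`, together with `g ∈ W a`, acts on the faces by `S ↦ g S a⁻¹` (`mv g a S`).

JOB ActA: `Nrm.inv` ... `KK_isSym`. JOB ActB: `isFl_flg` ... `twoOrbit_of`.

PROOFS.
* `Nrm.inv`: `IsIsom.inv`; `a⁻¹ o = o`; `conj`: from `a * r (π⁻¹ i) * a⁻¹ = r i`. `mem`: the map `J ↦ J.map π` is injective from the finset `Q.F` to itself, so it is surjective (`Finset.eq_of_subset_of_card_le` for `Q.F.image ..`): `J = J'.map π`, `J.map π⁻¹ = J'` (`Finset.map_map`, the composition is the identity). `rk` from this.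
* `conj_wJ`: `x ∈ W_J ↔ a x a⁻¹ ∈ W_{π J}`: `→` by `Subgroup.closure_induction`; `←` apply it with `a⁻¹`, `π⁻¹`. `conj_mem`: the same for `Set.univ`.
* `mv_co`: `y ∈ mv g a (co r x J) ↔ x⁻¹ g⁻¹ y a ∈ W_J ↔ a (x⁻¹ g⁻¹ y a) a⁻¹ ∈ W_{π J}`, and `a x⁻¹ g⁻¹ y = (g x a⁻¹)⁻¹ y`.
* `mv_mv`, `mv_sub`: direct (`mv g⁻¹ a⁻¹ (mv g a S) = S`).
* `mv_face`: `S.1 = ∅` (`mv g a ∅ = ∅`) or `S.1 = co r x J`: `mv_co`, `g x a⁻¹ = (g a⁻¹) (a x a⁻¹) ∈ W`.
* `mvE`: the inverse is given by `g⁻¹`, `a⁻¹`, `π⁻¹`; `g⁻¹ a = a⁻¹ (g a⁻¹)⁻¹ a ∈ W`. `mvE_rank`: `rkS_empty`, `rkS_co`, `Nrm.rk`. `mvE_bt`: `v.1 = {x}`, `mv g a {x} = {g x a⁻¹}`, `(g x a⁻¹) o = g (x o)` (`a⁻¹ o = o`).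
* `KK_isSym`: `isSym_of` for `mvE`.
* `isFl_flg`: `isFl_img`; the ranks by `rank_cpf` (`Q.rk_empty`, `Q.rk_sing`); the inclusions by `co_sub` (strict because the ranks differ).
* `exists_flg`: `exists_of_isFl`: `v < e < f < c`; `v.1 = {x}` (`vertex_iff`), `e.1 = co r y J` with `Q.rk J = 0`, `J = {i}` (`rk_zero`), `co r y J = co r x J` as `x ∈ e.1` (`co_eq`); the same for `f`, `c` (`co_sub` gives `{i} ⊆ E ⊆ G`).
* `eqv_flg`: the symmetry `g = x * a` (`g a⁻¹ = x ∈ W`): `KK_isSym`, and `map_toFl` for `mvE`: the images of the four faces (`mv_co` with `x = 1`: `g * 1 * a⁻¹ = x`; `{π i} = {i}.map π`, `∅.map π = ∅`).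
* `eqv_hdist`: `Φ.map g = Ψ` with `Φ = flg 1 q`, `Ψ = flg 1 q'`: `g o = o`, `m1 g {o, r i o} = {o, r i' o}` (`rep1_edge`), so `g (r i o) ∈ {o, r i' o}`, it is not `o` (`r i o ≠ o`: `mir_stab`, and `r i = 1` is impossible by `Cox.sep` for `J = ∅`), so `hdist o (r i' o) = hdist (g o) (g (r i o))`.
* `twoOrbit_of`: `Φ = flg 1 q₀`, `Ψ = flg 1 q₁`: `eqv_hdist`, `exists_flg`, `eqv_flg`.
-/

set_option autoImplicit false

namespace Pool.Agent.Lib.MP_eed79e_coW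

variable {ι : Type} [Fintype ι] [DecidableEq ι] (M : Mir ι) (Q : Fig ι)

/-- `a` is an isometry fixing `o` which permutes the mirrors by the automorphism `π` of the polyhedron. -/
structure Nrm (a : Equiv.Perm H3) (π : Equiv.Perm ι) : Prop where
  isom : IsIsom a
  fix : a o = o
  conj : ∀ i, a * M.r i * a⁻¹ = M.r (π i)
  mem : ∀ J ∈ Q.F, J.map π.toEmbedding ∈ Q.F
  rk : ∀ J ∈ Q.F, Q.rk (J.map π.toEmbedding) = Q.rk J

/-- The action on sets: `g S a⁻¹`. -/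
def mv (g a : Equiv.Perm H3) (S : Set (Equiv.Perm H3)) : Set (Equiv.Perm H3) :=
  {y | g⁻¹ * y * a ∈ S}

theorem mv_mv (g a : Equiv.Perm H3) (S : Set (Equiv.Perm H3)) : mv g⁻¹ a⁻¹ (mv g a S) = S := by
  ext y
  change g⁻¹ * (g⁻¹⁻¹ * y * a⁻¹) * a ∈ S ↔ y ∈ S
  have h1 : g⁻¹ * (g⁻¹⁻¹ * y * a⁻¹) * a = y := by group
  rw [h1]

theorem mv_sub (g a : Equiv.Perm H3) (S T : Set (Equiv.Perm H3)) :
    mv g a S ⊆ mv g a T ↔ S ⊆ T := by
  constructor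
  · intro h y hy
    have h1 : g⁻¹ * (g * y * a⁻¹) * a = y := by group
    have h2 : g * y * a⁻¹ ∈ mv g a S := by
      change g⁻¹ * (g * y * a⁻¹) * a ∈ S
      rw [h1]
      exact hy
    have h3 : g⁻¹ * (g * y * a⁻¹) * a ∈ T := h h2
    rwa [h1] at h3
  · intro h y hy
    exact h hy

variable {M Q} {a : Equiv.Perm H3} {π : Equiv.Perm ι}

omit [Fintype ι] [DecidableEq ι] in
private theorem acta_map_map (π : Equiv.Perm ι) (J : Finset ι) :
    (J.map π.toEmbedding).map (π⁻¹ : Equiv.Perm ι).toEmbedding = J := by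
  rw [Finset.map_map]
  have h1 : π.toEmbedding.trans (π⁻¹ : Equiv.Perm ι).toEmbedding = Function.Embedding.refl ι := by
    ext i
    exact Equiv.symm_apply_apply π i
  rw [h1, Finset.map_refl]

omit [Fintype ι] [DecidableEq ι] in
private theorem acta_map_map_inv (π : Equiv.Perm ι) (J : Finset ι) :
    (J.map (π⁻¹ : Equiv.Perm ι).toEmbedding).map π.toEmbedding = J := by
  have h1 := acta_map_map π⁻¹ J
  rwa [inv_inv] at h1

theorem Nrm.inv (h : Nrm M Q a π) : Nrm M Q a⁻¹ π⁻¹ := by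
  have hconj : ∀ i, a⁻¹ * M.r i * a⁻¹⁻¹ = M.r ((π⁻¹ : Equiv.Perm ι) i) := by
    intro i
    have h1 := h.conj ((π⁻¹ : Equiv.Perm ι) i)
    have h2 : π ((π⁻¹ : Equiv.Perm ι) i) = i := Equiv.apply_symm_apply π i
    rw [h2] at h1
    rw [← h1]
    group
  have himg : Q.F.image (fun J => J.map π.toEmbedding) = Q.F := by
    refine Finset.eq_of_subset_of_card_le ?_ ?_
    · intro J hJ
      obtain ⟨J', hJ', rfl⟩ := Finset.mem_image.1 hJ
      exact h.mem J' hJ'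
    · rw [Finset.card_image_of_injective _ (Finset.map_injective _)]
  have hmem : ∀ J ∈ Q.F, J.map (π⁻¹ : Equiv.Perm ι).toEmbedding ∈ Q.F := by
    intro J hJ
    rw [← himg] at hJ
    obtain ⟨J', hJ', rfl⟩ := Finset.mem_image.1 hJ
    rw [acta_map_map]
    exact hJ'
  refine ⟨h.isom.inv, ?_, hconj, hmem, ?_⟩
  · have h1 := congrArg (a⁻¹ : Equiv.Perm H3) h.fix
    have h2 : (a⁻¹ : Equiv.Perm H3) (a o) = o := Equiv.symm_apply_apply a o
    rw [h2] at h1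
    exact h1.symm
  · intro J hJ
    have h1 := h.rk _ (hmem J hJ)
    rw [acta_map_map_inv] at h1
    exact h1.symm

private theorem acta_conj (h : Nrm M Q a π) {J : Set ι} {x : Equiv.Perm H3}
    (hx : x ∈ wJ M.r J) : a * x * a⁻¹ ∈ wJ M.r (π '' J) := by
  unfold wJ at hx
  refine Subgroup.closure_induction (p := fun x _ => a * x * a⁻¹ ∈ wJ M.r (π '' J)) ?_ ?_ ?_ ?_ hx
  · rintro _ ⟨i, hi, rfl⟩
    rw [h.conj i]
    exact Subgroup.subset_closure ⟨π i, ⟨i, hi, rfl⟩, rfl⟩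
  · rw [mul_one, mul_inv_cancel]
    exact one_mem _
  · intro y z _ _ hy hz
    have h1 : a * (y * z) * a⁻¹ = (a * y * a⁻¹) * (a * z * a⁻¹) := by group
    rw [h1]
    exact mul_mem hy hz
  · intro y _ hy
    have h1 : a * y⁻¹ * a⁻¹ = (a * y * a⁻¹)⁻¹ := by group
    rw [h1]
    exact inv_mem hy

private theorem acta_conj_fin (h : Nrm M Q a π) {J : Finset ι} {x : Equiv.Perm H3}
    (hx : x ∈ wJ M.r (J : Set ι)) : a * x * a⁻¹ ∈ wJ M.r ((J.map π.toEmbedding : Finset ι) : Set ι) := by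
  have h1 := acta_conj h hx
  have h2 : ((J.map π.toEmbedding : Finset ι) : Set ι) = π '' (J : Set ι) := by
    rw [Finset.coe_map]
    rfl
  rw [h2]
  exact h1

theorem conj_wJ (h : Nrm M Q a π) (J : Finset ι) {x : Equiv.Perm H3} :
    a * x * a⁻¹ ∈ wJ M.r ((J.map π.toEmbedding : Finset ι) : Set ι) ↔ x ∈ wJ M.r (J : Set ι) := by
  constructor
  · intro hx
    have h1 := acta_conj_fin h.inv hx
    rw [acta_map_map] at h1
    have h2 : a⁻¹ * (a * x * a⁻¹) * a⁻¹⁻¹ = x := by group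
    rwa [h2] at h1
  · intro hx
    exact acta_conj_fin h hx

theorem conj_mem (h : Nrm M Q a π) {x : Equiv.Perm H3} (hx : x ∈ wJ M.r Set.univ) :
    a * x * a⁻¹ ∈ wJ M.r Set.univ := by
  have h1 := acta_conj h hx
  exact Subgroup.closure_mono (Set.image_mono (Set.subset_univ _)) h1

theorem mv_co (h : Nrm M Q a π) (g x : Equiv.Perm H3) (J : Finset ι) :
    mv g a (co M.r x J) = co M.r (g * x * a⁻¹) (J.map π.toEmbedding) := by
  ext y
  change x⁻¹ * (g⁻¹ * y * a) ∈ wJ M.r (J : Set ι) ↔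
    (g * x * a⁻¹)⁻¹ * y ∈ wJ M.r ((J.map π.toEmbedding : Finset ι) : Set ι)
  rw [← conj_wJ h J]
  have h1 : a * (x⁻¹ * (g⁻¹ * y * a)) * a⁻¹ = (g * x * a⁻¹)⁻¹ * y := by group
  rw [h1]

private theorem acta_emp (g a : Equiv.Perm H3) : mv g a ∅ = ∅ := by
  ext y
  exact Iff.rfl

theorem mv_face (h : Nrm M Q a π) {g : Equiv.Perm H3} (hg : g * a⁻¹ ∈ wJ M.r Set.univ)
    (S : CP M.r Q) :
    mv g a S.1 = ∅ ∨ ∃ x ∈ wJ M.r Set.univ, ∃ J ∈ Q.F, mv g a S.1 = co M.r x J := by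
  rcases S.2 with hS | ⟨x, hx, J, hJ, hS⟩
  · left
    rw [hS]
    exact acta_emp g a
  · right
    refine ⟨g * x * a⁻¹, ?_, J.map π.toEmbedding, h.mem J hJ, ?_⟩
    · have h1 : g * x * a⁻¹ = (g * a⁻¹) * (a * x * a⁻¹) := by group
      rw [h1]
      exact mul_mem hg (conj_mem h hx)
    · rw [hS]
      exact mv_co h g x J

theorem exists_mvE (h : Nrm M Q a π) {g : Equiv.Perm H3} (hg : g * a⁻¹ ∈ wJ M.r Set.univ) :
    ∃ θ : CP M.r Q ≃o CP M.r Q, (∀ S, (θ S).1 = mv g a S.1) ∧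
      (∀ S, (cpP (mir_cox M) Q).rank (θ S) = (cpP (mir_cox M) Q).rank S) ∧
      ∀ v, (cpP (mir_cox M) Q).rank v = 0 → bt M Q (θ v) = g (bt M Q v) := by
  have hg' : g⁻¹ * a⁻¹⁻¹ ∈ wJ M.r Set.univ := by
    have h1 := conj_mem h.inv (inv_mem hg)
    have h2 : a⁻¹ * (g * a⁻¹)⁻¹ * a⁻¹⁻¹ = g⁻¹ * a⁻¹⁻¹ := by group
    rwa [h2] at h1
  have hri : ∀ S, mv g a (mv g⁻¹ a⁻¹ S) = S := by
    intro S
    have h1 := mv_mv g⁻¹ a⁻¹ S
    rwa [inv_inv, inv_inv] at h1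
  let θ : CP M.r Q ≃o CP M.r Q :=
    { toFun := fun S => ⟨mv g a S.1, mv_face h hg S⟩
      invFun := fun S => ⟨mv g⁻¹ a⁻¹ S.1, mv_face h.inv hg' S⟩
      left_inv := fun S => Subtype.ext (mv_mv g a S.1)
      right_inv := fun S => Subtype.ext (hri S.1)
      map_rel_iff' := fun {S T} => mv_sub g a S.1 T.1 }
  have hθ : ∀ S, (θ S).1 = mv g a S.1 := fun S => rfl
  refine ⟨θ, hθ, ?_, ?_⟩
  · intro S
    rw [cpP_rank, cpP_rank, hθ]
    rcases S.2 with hS | ⟨x, hx, J, hJ, hS⟩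
    · rw [hS, acta_emp]
    · rw [hS, mv_co h, rkS_co (mir_cox M), rkS_co (mir_cox M), h.rk J hJ]
  · intro v hv
    obtain ⟨x, hx, hvx⟩ := (vertex_iff (mir_cox M) v).1 hv
    have h1 : (θ v).1 = {g * x * a⁻¹} := by
      rw [hθ, hvx, ← co_empty (r := M.r) x, mv_co h, Finset.map_empty, co_empty]
    rw [bt_vertex M Q h1, bt_vertex M Q hvx]
    change g (x ((a⁻¹ : Equiv.Perm H3) o)) = g (x o)
    rw [h.inv.fix]

theorem isom_of (h : Nrm M Q a π) {g : Equiv.Perm H3} (hg : g * a⁻¹ ∈ wJ M.r Set.univ) :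
    IsIsom g := by
  have h1 := (wJ_isom M hg).mul h.isom
  rwa [inv_mul_cancel_right] at h1

theorem KK_isSym (h : Nrm M Q a π) {g : Equiv.Perm H3} (hg : g * a⁻¹ ∈ wJ M.r Set.univ) :
    IsSym (KK M Q) g := by
  obtain ⟨θ, -, hr, hβ⟩ := exists_mvE h hg
  exact isSym_of (isom_of h hg) θ hr hβ

/-- A flag of the polyhedron: a vertex, an edge, a face. -/
structure QFlag (Q : Fig ι) where
  i : ι
  E : Finset ι
  G : Finset ι
  hE : E ∈ Q.F
  hG : G ∈ Q.F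
  rE : Q.rk E = 1
  rG : Q.rk G = 2
  iE : i ∈ E
  EG : E ⊆ G

variable (M Q) in
/-- The flag given by `x ∈ W` and a flag of the polyhedron. -/
noncomputable def flg (x : Equiv.Perm H3) (hx : x ∈ wJ M.r Set.univ) (q : QFlag Q) : Fl :=
  toFl (cpP (mir_cox M) Q) (bt M Q) (cpv M Q x hx) (cpf M.r Q x hx {q.i} (Q.sing_mem _))
    (cpf M.r Q x hx q.E q.hE) (cpf M.r Q x hx q.G q.hG)

private theorem actb_lt {S T : CP M.r Q} (h : S.1 ⊆ T.1)
    (hr : (cpP (mir_cox M) Q).rank S < (cpP (mir_cox M) Q).rank T) : S < T := by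
  refine lt_of_le_of_ne h fun he => ?_
  rw [he] at hr
  exact lt_irrefl _ hr

omit [DecidableEq ι] in
private theorem actb_sub (x : Equiv.Perm H3) {J J' : Finset ι} (h : J ⊆ J') :
    co M.r x J ⊆ co M.r x J' :=
  (co_sub (mir_cox M)).2 ⟨h, mem_co_self x J'⟩

private theorem actb_face {S : CP M.r Q} {x : Equiv.Perm H3} (hx : x ∈ S.1) :
    ∃ J ∈ Q.F, S.1 = co M.r x J ∧ (cpP (mir_cox M) Q).rank S = Q.rk J + 1 := by
  rcases S.2 with h0 | ⟨y, hy, J, hJ, h0⟩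
  · rw [h0] at hx
    exact hx.elim
  · refine ⟨J, hJ, ?_, ?_⟩
    · rw [h0] at hx ⊢
      exact co_eq hx
    · rw [cpP_rank, h0, rkS_co (mir_cox M)]

omit [DecidableEq ι] in
private theorem actb_ne (i : ι) : M.r i o ≠ o := by
  intro h
  have h1 : M.r i ∈ wJ M.r Set.univ := Subgroup.subset_closure ⟨i, Set.mem_univ i, rfl⟩
  have h2 : M.r i = 1 := mir_stab M h1 h
  have h3 : M.r i ∈ wJ M.r (∅ : Set ι) := by
    rw [h2]
    exact one_mem _
  exact (mir_cox M).sep i ∅ h3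

theorem isFl_flg (x : Equiv.Perm H3) (hx : x ∈ wJ M.r Set.univ) (q : QFlag Q) :
    IsFl (KK M Q) (flg M Q x hx q) := by
  have r0 : (cpP (mir_cox M) Q).rank (cpv M Q x hx) = 0 := cpv_rank M Q x hx
  have r1 : (cpP (mir_cox M) Q).rank (cpf M.r Q x hx {q.i} (Q.sing_mem _)) = 1 := by
    rw [rank_cpf, Q.rk_sing]
    norm_num
  have r2 : (cpP (mir_cox M) Q).rank (cpf M.r Q x hx q.E q.hE) = 2 := by
    rw [rank_cpf, q.rE]
    norm_num
  have r3 : (cpP (mir_cox M) Q).rank (cpf M.r Q x hx q.G q.hG) = 3 := by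
    rw [rank_cpf, q.rG]
    norm_num
  refine isFl_img (bt_faithful M Q) r0 r1 r2 r3 ?_ ?_ ?_
  · exact actb_lt (actb_sub x (Finset.empty_subset _)) (by rw [r0, r1]; norm_num)
  · exact actb_lt (actb_sub x (Finset.singleton_subset_iff.2 q.iE)) (by rw [r1, r2]; norm_num)
  · exact actb_lt (actb_sub x q.EG) (by rw [r2, r3]; norm_num)

theorem exists_flg {Φ : Fl} (h : IsFl (KK M Q) Φ) :
    ∃ (x : Equiv.Perm H3) (hx : x ∈ wJ M.r Set.univ) (q : QFlag Q), Φ = flg M Q x hx q := by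
  obtain ⟨v, e, f, c, hv, he, hf, hc, h1, h2, h3, rfl⟩ := exists_of_isFl (bt_faithful M Q) h
  obtain ⟨x, hx, hvx⟩ := (vertex_iff (mir_cox M) v).1 hv
  have hxv : x ∈ v.1 := by
    rw [hvx]
    exact Set.mem_singleton x
  have hxe : x ∈ e.1 := h1.le hxv
  have hxf : x ∈ f.1 := h2.le hxe
  have hxc : x ∈ c.1 := h3.le hxf
  obtain ⟨I, hI, heI, rI⟩ := actb_face hxe
  obtain ⟨E, hE, hfE, rE⟩ := actb_face hxf
  obtain ⟨G, hG, hcG, rG⟩ := actb_face hxc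
  obtain ⟨i, rfl⟩ := rk_zero Q hI (by omega)
  have s1 : ({i} : Finset ι) ⊆ E := by
    have h4 : e.1 ⊆ f.1 := h2.le
    rw [heI, hfE] at h4
    exact ((co_sub (mir_cox M)).1 h4).1
  have s2 : E ⊆ G := by
    have h4 : f.1 ⊆ c.1 := h3.le
    rw [hfE, hcG] at h4
    exact ((co_sub (mir_cox M)).1 h4).1
  have q1 : Q.rk E = 1 := by omega
  have q2 : Q.rk G = 2 := by omega
  refine ⟨x, hx, ⟨i, E, G, hE, hG, q1, q2, Finset.singleton_subset_iff.1 s1, s2⟩, ?_⟩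
  have e0 : v = cpv M Q x hx := Subtype.ext (hvx.trans (cpv_val M Q x hx).symm)
  have e1 : e = cpf M.r Q x hx {i} (Q.sing_mem i) := Subtype.ext heI
  have e2 : f = cpf M.r Q x hx E hE := Subtype.ext hfE
  have e3 : c = cpf M.r Q x hx G hG := Subtype.ext hcG
  unfold flg
  rw [e0, e1, e2, e3]

theorem eqv_flg (h : Nrm M Q a π) (x : Equiv.Perm H3) (hx : x ∈ wJ M.r Set.univ) (q q' : QFlag Q)
    (h1 : q'.i = π q.i) (h2 : q'.E = q.E.map π.toEmbedding) (h3 : q'.G = q.G.map π.toEmbedding) :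
    Eqv (KK M Q) (flg M Q 1 (one_mem _) q) (flg M Q x hx q') := by
  have hg : (x * a) * a⁻¹ ∈ wJ M.r Set.univ := by
    rw [mul_inv_cancel_right]
    exact hx
  obtain ⟨θ, t1, t2, t3⟩ := exists_mvE h hg
  refine ⟨x * a, KK_isSym h hg, ?_⟩
  have key : ∀ (J : Finset ι) (hJ : J ∈ Q.F) (J' : Finset ι) (hJ' : J' ∈ Q.F),
      J' = J.map π.toEmbedding →
      θ (cpf M.r Q 1 (one_mem _) J hJ) = cpf M.r Q x hx J' hJ' := by
    intro J hJ J' hJ' hJJ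
    refine Subtype.ext ?_
    rw [t1]
    change mv (x * a) a (co M.r 1 J) = co M.r x J'
    rw [mv_co h, mul_one, mul_inv_cancel_right, hJJ]
  have k0 : θ (cpv M Q 1 (one_mem _)) = cpv M Q x hx :=
    key ∅ Q.empty_mem ∅ Q.empty_mem (Finset.map_empty _).symm
  have k1 := key {q.i} (Q.sing_mem _) {q'.i} (Q.sing_mem _) (by
    rw [h1, Finset.map_singleton]
    rfl)
  have k2 := key q.E q.hE q'.E q'.hE h2
  have k3 := key q.G q.hG q'.G q'.hG h3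
  unfold flg
  rw [map_toFl θ t2 t3 (cpv_rank M Q 1 (one_mem _)), k0, k1, k2, k3]

theorem eqv_hdist {q q' : QFlag Q}
    (h : Eqv (KK M Q) (flg M Q 1 (one_mem _) q) (flg M Q 1 (one_mem _) q')) :
    hdist o (M.r q.i o) = hdist o (M.r q'.i o) := by
  obtain ⟨g, hg, hgf⟩ := h
  have e0 : bt M Q (cpv M Q 1 (one_mem _)) = o := bt_vertex M Q (cpv_val M Q 1 (one_mem _))
  have h0 : g o = o := by
    have h1 : g (bt M Q (cpv M Q 1 (one_mem _))) = bt M Q (cpv M Q 1 (one_mem _)) :=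
      congrArg Fl.v hgf
    rwa [e0] at h1
  have h1 : m1 g (rep1 (cpP (mir_cox M) Q) (bt M Q)
      (cpf M.r Q 1 (one_mem _) {q.i} (Q.sing_mem q.i))) =
      rep1 (cpP (mir_cox M) Q) (bt M Q) (cpf M.r Q 1 (one_mem _) {q'.i} (Q.sing_mem q'.i)) :=
    congrArg Fl.e hgf
  rw [rep1_edge, rep1_edge] at h1
  have h2 : g (M.r q.i o) ∈ m1 g {(1 : Equiv.Perm H3) o, (1 : Equiv.Perm H3) (M.r q.i o)} :=
    (mem_m1 g).2 (Or.inr rfl)
  rw [h1] at h2
  rcases h2 with h2 | h2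
  · exact absurd (g.injective (h2.trans h0.symm)) (actb_ne q.i)
  · have h3 : g (M.r q.i o) = M.r q'.i o := h2
    have h4 := hg.1 o (M.r q.i o)
    rw [h0, h3] at h4
    exact h4.symm

theorem twoOrbit_of (q₀ q₁ : QFlag Q) (hne : hdist o (M.r q₀.i o) ≠ hdist o (M.r q₁.i o))
    (hall : ∀ q : QFlag Q, ∃ (a : Equiv.Perm H3) (π : Equiv.Perm ι), Nrm M Q a π ∧
      ((q.i = π q₀.i ∧ q.E = q₀.E.map π.toEmbedding ∧ q.G = q₀.G.map π.toEmbedding) ∨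
        (q.i = π q₁.i ∧ q.E = q₁.E.map π.toEmbedding ∧ q.G = q₁.G.map π.toEmbedding))) :
    TwoOrbit (KK M Q) := by
  refine ⟨flg M Q 1 (one_mem _) q₀, flg M Q 1 (one_mem _) q₁, isFl_flg 1 _ q₀, isFl_flg 1 _ q₁,
    fun h => hne (eqv_hdist h), fun X hX => ?_⟩
  obtain ⟨x, hx, q, rfl⟩ := exists_flg hX
  obtain ⟨a, π, hn, ⟨h1, h2, h3⟩ | ⟨h1, h2, h3⟩⟩ := hall q
  · exact Or.inl (eqv_flg hn x hx q₀ q h1 h2 h3)
  · exact Or.inr (eqv_flg hn x hx q₁ q h1 h2 h3)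

end Pool.Agent.Lib.MP_eed79e_coW
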