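import Pool.Agent.Lib.MP_eed79e_coW.Refl

/-!
# JOB MirW: the group generated by the reflections in disjoint planes

PROOFS.
* `exists_red`: `Subgroup.closure_induction`; `x = 1`: `[]`. Products: it is enough to show that the elements with a reduced word in `J` are closed under left multiplication by `r j`, `j ∈ J`: for the word `i :: l'`: if `i = j` the word `l'` (`r j * r j = 1`), otherwise `j :: i :: l'`; for `[]` the word `[j]`. Inverses:
  `(r j)⁻¹ = r j`. (Use `Subgroup.closure_induction_left`, or `Submonoid`; or show first that every element is `(l.map r).prod` for a word `l` in `J`, and reduce by induction on `l`.)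
* `mir_stab`: `x = (l.map M.r).prod` with `l` reduced (`exists_red` for `J = Set.univ`, `Set.image_univ`), `x o = o` gives `1 + c * length ≤ 1`, so `l = []`.
* `mir_cox`: `inv`: `rfl3_mul`. `sep`: `r i = (l.map M.r).prod`, `l` a reduced word in `J`. `growth` for `[i]`: `lor (r i o) (n i) < 0`. `l ≠ []`: otherwise `r i = 1`, `r i o = o`, but `(r i o) 0 ≥ 1 + c`. `l = j :: l'`, `j ∈ J`: `lor (r i o) (n j) < 0`. If `i ≠ j` this is impossible:
  `y = r i o` has `lor y (n i) < 0` and `lor y (n j) < 0`; `m = n i + n j`: `lor m m = -2 + 2 κ' > 0`, `m 0 > 0`, so `lor y m > 0` (`lor_ge`). So `i = j ∈ J`.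
* `mir_disc`: let `x` be a point, `R` real. `hdist x y ≤ R` gives `lor x y ≤ Real.cosh R` (`Real.cosh_arcosh`, `arcosh ≥ 0`, `cosh` monotone on `[0, ∞)`: `Real.cosh_le_cosh`; if `R < 0` the set is empty). With `t = x 0 - sqrt (x 1 ^ 2 + x 2 ^ 2 + x 3 ^ 2) > 0`: `lor x y ≥ t * y 0` (Cauchy-Schwarz and `sqrt (y 1 ^ 2 + y 2 ^ 2 + y 3 ^ 2) ≤ y 0`).
  So `y 0 ≤ B := cosh R / t`. The points of the orbit with `y 0 ≤ B` are `(l.map M.r).prod o` with `l` reduced, `1 + c * length ≤ B`: finitely many words (`List.finite_length_le` or `List.finite_length_eq`).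
  (Another way to bound: `lor x y ≥ t y 0`, `t = 1 / (2 x 0)`: `x 0 y 0 - |x'| |y'| ≥ y 0 (x 0 - |x'|)` and `x 0 - |x'| = 1 / (x 0 + |x'|) ≥ 1 / (2 x 0)`.)
-/

set_option autoImplicit false

namespace Pool.Agent.Lib.MP_eed79e_coW

/-- The subgroup generated by the `r i`, `i ∈ J`. -/
def wJ {Γ : Type} [Group Γ] {ι : Type} (r : ι → Γ) (J : Set ι) : Subgroup Γ :=
  Subgroup.closure (r '' J)

/-- The properties of the generators which are used: involutions, and `r i` is not generated by the others. -/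
structure Cox {Γ : Type} [Group Γ] {ι : Type} (r : ι → Γ) : Prop where
  inv : ∀ i, r i * r i = 1
  sep : ∀ i (J : Set ι), r i ∈ wJ r J → i ∈ J

theorem exists_red {Γ : Type} [Group Γ] {ι : Type} (r : ι → Γ) (hr : ∀ i, r i * r i = 1)
    (J : Set ι) {x : Γ} (hx : x ∈ wJ r J) :
    ∃ l : List ι, (∀ i ∈ l, i ∈ J) ∧ List.IsChain (· ≠ ·) l ∧ (l.map r).prod = x := by
  classical
  -- left multiplication by a generator
  have step : ∀ j ∈ J, ∀ y : Γ,
      (∃ l : List ι, (∀ i ∈ l, i ∈ J) ∧ List.IsChain (· ≠ ·) l ∧ (l.map r).prod = y) →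
      ∃ l : List ι, (∀ i ∈ l, i ∈ J) ∧ List.IsChain (· ≠ ·) l ∧ (l.map r).prod = r j * y := by
    rintro j hj _ ⟨l, hl, hc, rfl⟩
    cases l with
    | nil =>
      refine ⟨[j], ?_, List.isChain_singleton j, ?_⟩
      · intro i hi
        rw [List.mem_singleton] at hi
        rw [hi]
        exact hj
      · rw [List.map_cons, List.prod_cons]
    | cons i l' =>
      by_cases hij : j = i
      · subst hij
        refine ⟨l', fun i hi => hl i (List.mem_cons_of_mem _ hi), ?_, ?_⟩
        · cases l' with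
          | nil => exact List.isChain_nil
          | cons k l'' => exact (List.isChain_cons_cons.1 hc).2
        · rw [List.map_cons, List.prod_cons, ← mul_assoc, hr, one_mul]
      · refine ⟨j :: i :: l', ?_, List.isChain_cons_cons.2 ⟨hij, hc⟩, ?_⟩
        · intro k hk
          rcases List.mem_cons.1 hk with h | h
          · rw [h]
            exact hj
          · exact hl k h
        · rw [List.map_cons, List.prod_cons]
  -- left multiplication by a product of generators
  have step2 : ∀ l : List ι, (∀ i ∈ l, i ∈ J) → ∀ y : Γ,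
      (∃ l : List ι, (∀ i ∈ l, i ∈ J) ∧ List.IsChain (· ≠ ·) l ∧ (l.map r).prod = y) →
      ∃ l' : List ι, (∀ i ∈ l', i ∈ J) ∧ List.IsChain (· ≠ ·) l' ∧
        (l'.map r).prod = (l.map r).prod * y := by
    intro l
    induction l with
    | nil =>
      intro _ y hy
      rwa [List.map_nil, List.prod_nil, one_mul]
    | cons i l ih =>
      intro hl y hy
      have h1 := ih (fun k hk => hl k (List.mem_cons_of_mem _ hk)) y hy
      have h2 := step i (hl i List.mem_cons_self) _ h1
      rwa [List.map_cons, List.prod_cons, mul_assoc]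
  have hrev : ∀ l : List ι, ((l.map r).prod)⁻¹ = (l.reverse.map r).prod := by
    intro l
    induction l with
    | nil => simp
    | cons i l ih =>
      have h1 : (r i)⁻¹ = r i := inv_eq_of_mul_eq_one_left (hr i)
      rw [List.map_cons, List.prod_cons, mul_inv_rev, ih, h1, List.reverse_cons, List.map_append,
        List.prod_append, List.map_cons, List.map_nil, List.prod_cons, List.prod_nil, mul_one]
  have hnil : ∃ l : List ι, (∀ i ∈ l, i ∈ J) ∧ List.IsChain (· ≠ ·) l ∧ (l.map r).prod = 1 :=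
    ⟨[], fun i hi => absurd hi List.not_mem_nil, List.isChain_nil, rfl⟩
  unfold wJ at hx
  refine Subgroup.closure_induction
    (p := fun x _ => ∃ l : List ι, (∀ i ∈ l, i ∈ J) ∧ List.IsChain (· ≠ ·) l ∧
      (l.map r).prod = x) ?_ hnil ?_ ?_ hx
  · rintro _ ⟨j, hj, rfl⟩
    have h1 := step j hj 1 hnil
    rwa [mul_one] at h1
  · rintro _ y _ _ ⟨l, hl, _, rfl⟩ hy
    exact step2 l hl y hy
  · rintro _ _ ⟨l, hl, _, rfl⟩
    have h1 := step2 l.reverse (fun i hi => hl i (List.mem_reverse.1 hi)) 1 hnil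
    rwa [mul_one, ← hrev] at h1

variable {ι : Type} [Finite ι] (M : Mir ι)

omit [Finite ι] in
private theorem mirwb_inv (i : ι) : M.r i * M.r i = 1 := rfl3_mul (M.unit i)

private theorem mirwb_o : o.1 0 = 1 := rfl

theorem mir_stab {x : Equiv.Perm H3} (hx : x ∈ wJ M.r Set.univ) (ho : x o = o) : x = 1 := by
  obtain ⟨l, -, hl, rfl⟩ := exists_red M.r (mirwb_inv M) Set.univ hx
  obtain ⟨c, hc, hg⟩ := growth M
  have h1 := (hg l hl).1
  rw [ho, mirwb_o] at h1
  have h2 : c * (l.length : ℝ) ≤ 0 := by linarith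
  have h3 : (l.length : ℝ) ≤ 0 := by
    by_contra h4
    push Not at h4
    exact absurd h2 (not_le.2 (mul_pos hc h4))
  have h4 : l.length = 0 := Nat.le_zero.1 (by exact_mod_cast h3)
  rw [List.length_eq_zero_iff.1 h4, List.map_nil, List.prod_nil]

theorem mir_cox : Cox M.r := by
  refine ⟨mirwb_inv M, fun i J hi => ?_⟩
  obtain ⟨l, hJ, hl, hprod⟩ := exists_red M.r (mirwb_inv M) J hi
  obtain ⟨c, hc, hg⟩ := growth M
  obtain ⟨h1, h2⟩ := hg [i] (List.isChain_singleton i)
  have h3 : (([i] : List ι).map M.r).prod = M.r i := List.prod_singleton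
  rw [h3] at h1 h2
  have h4 := h2 i [] rfl
  rcases l with _ | ⟨j, l'⟩
  · exfalso
    rw [List.map_nil, List.prod_nil] at hprod
    rw [← hprod] at h1
    have h5 : ((1 : Equiv.Perm H3) o).1 0 = 1 := rfl
    rw [h5, List.length_singleton, Nat.cast_one] at h1
    linarith
  · have h5 := (hg (j :: l') hl).2 j l' rfl
    rw [hprod] at h5
    by_cases hij : i = j
    · rw [hij]
      exact hJ j List.mem_cons_self
    · exfalso
      have h6 := M.sep i j hij
      have h7 : lor (M.n i + M.n j) (M.n i + M.n j) =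
          (Real.sqrt (2 * lor (M.n i) (M.n j) - 2)) ^ 2 := by
        rw [Real.sq_sqrt (by linarith), lor_add_left, lor_add_right, lor_add_right, M.unit, M.unit,
          lor_comm (M.n j) (M.n i)]
        ring
      have h8 := lor_ge (M.r i o) (M.n i + M.n j)
        (by
          rw [Pi.add_apply]
          exact add_pos (M.pos i) (M.pos j))
        (Real.sqrt (2 * lor (M.n i) (M.n j) - 2)) (Real.sqrt_pos.2 (by linarith)) h7
      have h9 : 0 < Real.sqrt (2 * lor (M.n i) (M.n j) - 2) := Real.sqrt_pos.2 (by linarith)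
      rw [lor_add_right] at h8
      linarith

private theorem mirwc_bound (x y : H3) : y.1 0 ≤ 2 * x.1 0 * lor x.1 y.1 := by
  obtain ⟨x, hx, hx0⟩ := x
  obtain ⟨y, hy, hy0⟩ := y
  unfold lor at hx hy ⊢
  simp only
  by_contra hcon
  push Not at hcon
  obtain ⟨s, hs⟩ : ∃ s, s = x 1 * y 1 + x 2 * y 2 + x 3 * y 3 := ⟨_, rfl⟩
  have hx1 : 1 ≤ x 0 * x 0 := by
    nlinarith [mul_self_nonneg (x 1), mul_self_nonneg (x 2), mul_self_nonneg (x 3)]
  have hx2 : x 0 * x 0 - 1 = x 1 * x 1 + x 2 * x 2 + x 3 * x 3 := by linarith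
  have hy2 : y 0 * y 0 - 1 = y 1 * y 1 + y 2 * y 2 + y 3 * y 3 := by linarith
  have hss : s * s ≤ (x 0 * x 0 - 1) * (y 0 * y 0 - 1) := by
    rw [hx2, hy2, hs]
    nlinarith [mul_self_nonneg (x 1 * y 2 - x 2 * y 1), mul_self_nonneg (x 1 * y 3 - x 3 * y 1),
      mul_self_nonneg (x 2 * y 3 - x 3 * y 2)]
  have h1 : (2 * (x 0 * x 0) - 1) * y 0 < 2 * x 0 * s := by
    rw [hs]
    nlinarith
  have h2 : 0 ≤ (2 * (x 0 * x 0) - 1) * y 0 := mul_nonneg (by linarith) hy0.le
  have h3 := mul_self_lt_mul_self h2 h1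
  have h4 : 4 * (x 0 * x 0) * (s * s) ≤
      4 * (x 0 * x 0) * ((x 0 * x 0 - 1) * (y 0 * y 0 - 1)) :=
    mul_le_mul_of_nonneg_left hss (by linarith)
  have h5 : 0 ≤ (x 0 * x 0) * (x 0 * x 0 - 1) := mul_nonneg (by linarith) (by linarith)
  have e1 : (2 * (x 0 * x 0) - 1) * y 0 * ((2 * (x 0 * x 0) - 1) * y 0) =
      4 * (x 0 * x 0) * ((x 0 * x 0 - 1) * (y 0 * y 0 - 1)) + y 0 * y 0 +
        4 * ((x 0 * x 0) * (x 0 * x 0 - 1)) := by ring
  have e2 : 2 * x 0 * s * (2 * x 0 * s) = 4 * (x 0 * x 0) * (s * s) := by ring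
  rw [e1, e2] at h3
  have h6 : 0 ≤ y 0 * y 0 := mul_self_nonneg _
  linarith

private theorem mirwc_cosh {x y : H3} {R : ℝ} (h : hdist x y ≤ R) :
    lor x.1 y.1 ≤ Real.cosh R := by
  have h1 := one_le_lor x y
  have h2 : 0 ≤ hdist x y := Real.arcosh_nonneg h1
  have h3 : Real.cosh (hdist x y) = lor x.1 y.1 := Real.cosh_arcosh h1
  rw [← h3, Real.cosh_le_cosh, abs_of_nonneg h2, abs_of_nonneg (h2.trans h)]
  exact h

theorem mir_disc : Disc {y | ∃ x ∈ wJ M.r Set.univ, x o = y} := by
  intro x R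
  obtain ⟨c, hc, hg⟩ := growth M
  obtain ⟨K, hK⟩ := exists_nat_gt (2 * x.1 0 * Real.cosh R / c)
  refine ((List.finite_length_lt ι K).image fun l => (l.map M.r).prod o).subset ?_
  rintro y ⟨⟨g, hgm, hgy⟩, hy⟩
  obtain ⟨l, -, hl, hlg⟩ := exists_red M.r (fun i => rfl3_mul (M.unit i)) Set.univ hgm
  refine ⟨l, ?_, ?_⟩
  · have h1 := (hg l hl).1
    rw [hlg, hgy] at h1
    have h2 := mirwc_bound x y
    have h3 : 2 * x.1 0 * lor x.1 y.1 ≤ 2 * x.1 0 * Real.cosh R :=
      mul_le_mul_of_nonneg_left (mirwc_cosh hy) (by have := x.2.2; linarith)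
    have h4 : c * l.length < c * K := by
      have h5 : 2 * x.1 0 * Real.cosh R < c * K := by
        rw [div_lt_iff₀ hc] at hK
        linarith
      linarith
    have h6 : (l.length : ℝ) < K := lt_of_mul_lt_mul_left h4 hc.le
    have h7 : l.length < K := by exact_mod_cast h6
    exact h7
  · change (l.map M.r).prod o = y
    rw [hlg, hgy]

end Pool.Agent.Lib.MP_eed79e_coW
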