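import Pool.Agent.Lib.MP_eed79e_coW.Abs
import Pool.Agent.Lib.MP_eed79e_coW.MirW

/-!
# Cos: the polytope of the cosets

`r : ι → Γ` generators (`Cox r`), `Q : Fig ι` the face lattice of a polyhedron with vertex set `ι` (faces = sets of vertices). Faces of the
4-polytope: `∅` and the cosets `co r x J = x W_J`, `x ∈ W = wJ r univ`, `J ∈ Q.F`, ordered by inclusion; `rank (x W_J) = rk J + 1`.

* JOB CosA (`mem_co_self` ... `rkS_co`): `x ∈ co r x J`. `co_eq`: if `y ∈ co r x J` then `co r x J = co r y J`. `wJ_le`: `wJ r J ≤ wJ r J' ↔ J ⊆ J'` (`Cox.sep`; `Subgroup.closure_mono`). `co_sub`: `co r x J ⊆ co r x' J'` iff `J ⊆ J'` and `x ∈ co r x' J'`: if the inclusion holds then `x ∈ co r x' J'`, so `co r x' J' = co r x J'`, and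
  for `w ∈ W_J` we have `x w ∈ co r x J ⊆ co r x J'`, so `w ∈ W_J'`. `co_inj`. `rkS_co`: the set `{i | ∃ y ∈ S, y * r i ∈ S}` for `S = co r x J` is `J`: if `y, y * r i ∈ S` then `r i = y⁻¹ (y r i) ∈ W_J`, so `i ∈ J`; conversely take `y = x`.
  `rk_bounds`: `-1 ≤ rk J ≤ 3` for `J ∈ F` (`rk_lt`, `rk_empty`, `rk_univ`; `∅ ⊂ J` or `J = ∅`). `rk_zero`: `J ≠ ∅`, let `i ∈ J`; if `{i} ≠ J` then `{i} ⊂ J` and `0 < rk J`.
* JOB CosB (`cp_mono`, `cp_dense`, `cp_diamond`): let `S < T` in `CP r Q`. If `S.1 = ∅`: `T.1 = co r x J`, `rkS T ≥ 0`. Otherwise `S.1 = co r x I`, and `T.1 = co r x J` (the same `x`: `T.1 = co r x' J`, `x ∈ T.1`, `co_eq`) with `I ⊂ J` (`co_sub`, and `I ≠ J` because `S ≠ T`).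
  dense: if `S.1 = ∅` and `rk J + 1 > 0` then `J ≠ ∅` and `co r x ∅` is between (`co_sub`, `co_inj`). If `S.1 = co r x I`: `Q.dense`.
  diamond: if `S.1 = ∅`: `rk J = 0`, so `J = {i}` (`rk_zero`), `co r x {i} = {x, x * r i}` (`W_{i} = {1, r i}`: `Subgroup.closure_singleton`-like, `r i * r i = 1`; `Subgroup.mem_closure_singleton`, `zpow` of an involution), `x ≠ x * r i` (`r i ≠ 1` by `Cox.sep` for `J = ∅`); the faces between `∅` and `T` are `co r x ∅ = {x}` and `co r (x * r i) ∅ = {x * r i}`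
  (a face between them is a coset `co r y J'` with `J' ⊂ {i}`, so `J' = ∅`). If `S.1 = co r x I`: the faces between are `co r x H` with `H ∈ F`, `I ⊂ H ⊂ J` (`co_sub`, `co_inj`): the set is the image of the finset of `Q.diamond` under an injective map (`Set.InjOn.encard_image`, `Set.encard_coe_eq_coe_finsetCard`).
* JOB CosC (`cp_conn`): `S < T`, rank difference `≥ 3`. If `S.1 = co r x I`, `T.1 = co r x J`: all elements between are `co r x H`, and a path in `Q` (`Q.conn`) gives a path (`Relation.ReflTransGen.lift`-like: induction). If `S.1 = ∅`, `T.1 = co r x J`, `rk J ≥ 1` (as `rk J + 1 ≥ 2`): let `a, b` be between: `a.1 = co r y H`, `b.1 = co r z H'`,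
  `y, z ∈ T.1`. The vertices `co r y ∅ ⊆ a`, `co r z ∅ ⊆ b` are between `∅` and `T` (`J ≠ ∅`). So it is enough to connect the vertices `co r y ∅`, `co r z ∅` for `y, z ∈ T.1 = co r x J`: `y⁻¹ z ∈ W_J`; by `Subgroup.closure_induction_right` (or `exists_red` and induction on the word) it is enough to connect `co r y ∅` and `co r (y * r j) ∅`, `j ∈ J`:
  both are below the edge `co r y {j}`, which is properly below `T` (`{j} ⊂ J` because `rk {j} = 0 < rk J`).
-/

set_option autoImplicit false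

namespace Pool.Agent.Lib.MP_eed79e_coW

/-- The face lattice of a polyhedron (abstract 3-polytope) with vertex set `ι`, all faces being determined by
their sets of vertices. -/
structure Fig (ι : Type) [Fintype ι] [DecidableEq ι] where
  F : Finset (Finset ι)
  rk : Finset ι → ℤ
  empty_mem : ∅ ∈ F
  univ_mem : Finset.univ ∈ F
  sing_mem : ∀ i, {i} ∈ F
  rk_empty : rk ∅ = -1
  rk_sing : ∀ i, rk {i} = 0
  rk_univ : rk Finset.univ = 3
  rk_lt : ∀ I ∈ F, ∀ J ∈ F, I ⊂ J → rk I < rk J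
  dense : ∀ I ∈ F, ∀ J ∈ F, I ⊂ J → rk I + 1 < rk J → ∃ H ∈ F, I ⊂ H ∧ H ⊂ J
  diamond : ∀ I ∈ F, ∀ J ∈ F, I ⊂ J → rk J = rk I + 2 →
    (F.filter fun H => I ⊂ H ∧ H ⊂ J).card = 2
  conn : ∀ I ∈ F, ∀ J ∈ F, I ⊂ J → rk I + 3 ≤ rk J → ∀ H ∈ F, ∀ H' ∈ F,
    I ⊂ H → H ⊂ J → I ⊂ H' → H' ⊂ J →
    Relation.ReflTransGen (fun S T => (T ∈ F ∧ I ⊂ T ∧ T ⊂ J) ∧ (S ⊆ T ∨ T ⊆ S)) H H'

section

variable {Γ : Type} [Group Γ] {ι : Type}

/-- The coset `x W_J`. -/
def co (r : ι → Γ) (x : Γ) (J : Finset ι) : Set Γ := {y | x⁻¹ * y ∈ wJ r (J : Set ι)}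

variable {r : ι → Γ}

private theorem cosa_mem {J : Set ι} {i : ι} (hi : i ∈ J) : r i ∈ wJ r J :=
  Subgroup.subset_closure ⟨i, hi, rfl⟩

theorem mem_co_self (x : Γ) (J : Finset ι) : x ∈ co r x J := by
  change x⁻¹ * x ∈ wJ r (J : Set ι)
  rw [inv_mul_cancel]
  exact one_mem _

theorem mem_co_mul (x : Γ) {J : Finset ι} {i : ι} (hi : i ∈ J) : x * r i ∈ co r x J := by
  change x⁻¹ * (x * r i) ∈ wJ r (J : Set ι)
  rw [inv_mul_cancel_left]
  exact cosa_mem (Finset.mem_coe.2 hi)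

theorem co_empty (x : Γ) : co r x ∅ = {x} := by
  ext y
  change x⁻¹ * y ∈ wJ r ((∅ : Finset ι) : Set ι) ↔ y = x
  have h1 : wJ r ((∅ : Finset ι) : Set ι) = ⊥ := by
    unfold wJ
    rw [Finset.coe_empty, Set.image_empty, Subgroup.closure_empty]
  rw [h1, Subgroup.mem_bot, inv_mul_eq_one, eq_comm]

theorem co_eq {x y : Γ} {J : Finset ι} (h : y ∈ co r x J) : co r x J = co r y J := by
  have h' : x⁻¹ * y ∈ wJ r (J : Set ι) := h
  ext z
  change x⁻¹ * z ∈ wJ r (J : Set ι) ↔ y⁻¹ * z ∈ wJ r (J : Set ι)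
  have h1 : x⁻¹ * z = (x⁻¹ * y) * (y⁻¹ * z) := by group
  rw [h1, Subgroup.mul_mem_cancel_left _ h']

theorem wJ_le (h : Cox r) {J J' : Finset ι} :
    wJ r (J : Set ι) ≤ wJ r (J' : Set ι) ↔ J ⊆ J' := by
  constructor
  · intro hle i hi
    exact Finset.mem_coe.1 (h.sep i _ (hle (cosa_mem (Finset.mem_coe.2 hi))))
  · intro hs
    exact Subgroup.closure_mono (Set.image_mono (Finset.coe_subset.2 hs))

theorem co_sub (h : Cox r) {x x' : Γ} {J J' : Finset ι} :
    co r x J ⊆ co r x' J' ↔ J ⊆ J' ∧ x ∈ co r x' J' := by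
  constructor
  · intro hs
    have hx : x ∈ co r x' J' := hs (mem_co_self x J)
    refine ⟨(wJ_le h).1 fun w hw => ?_, hx⟩
    rw [co_eq hx] at hs
    have h1 : x * w ∈ co r x J := by
      change x⁻¹ * (x * w) ∈ wJ r (J : Set ι)
      rwa [inv_mul_cancel_left]
    have h2 : x⁻¹ * (x * w) ∈ wJ r (J' : Set ι) := hs h1
    rwa [inv_mul_cancel_left] at h2
  · rintro ⟨hJ, hx⟩ y hy
    rw [co_eq hx]
    exact (wJ_le h).2 hJ (show x⁻¹ * y ∈ wJ r (J : Set ι) from hy)

theorem co_inj (h : Cox r) {x x' : Γ} {J J' : Finset ι} (he : co r x J = co r x' J') :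
    J = J' :=
  Finset.Subset.antisymm ((co_sub h).1 he.subset).1 ((co_sub h).1 he.symm.subset).1

variable [Fintype ι] [DecidableEq ι]

open Classical in
/-- The rank of a face. -/
noncomputable def rkS (r : ι → Γ) (Q : Fig ι) (S : Set Γ) : ℤ :=
  if S = ∅ then -1 else Q.rk (Finset.univ.filter fun i => ∃ y ∈ S, y * r i ∈ S) + 1

variable {Q : Fig ι}

theorem rkS_empty : rkS r Q ∅ = -1 := if_pos rfl

theorem rkS_co (h : Cox r) (x : Γ) (J : Finset ι) : rkS r Q (co r x J) = Q.rk J + 1 := by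
  classical
  have hne : co r x J ≠ ∅ := Set.nonempty_iff_ne_empty.1 ⟨x, mem_co_self x J⟩
  unfold rkS
  rw [if_neg hne]
  congr 2
  ext i
  rw [Finset.mem_filter]
  constructor
  · rintro ⟨-, y, hy, hyi⟩
    rw [co_eq hy] at hyi
    have h1 : y⁻¹ * (y * r i) ∈ wJ r (J : Set ι) := hyi
    rw [inv_mul_cancel_left] at h1
    exact Finset.mem_coe.1 (h.sep i _ h1)
  · intro hi
    exact ⟨Finset.mem_univ i, x, mem_co_self x J, mem_co_mul x hi⟩

theorem rk_bounds (Q : Fig ι) {J : Finset ι} (hJ : J ∈ Q.F) : -1 ≤ Q.rk J ∧ Q.rk J ≤ 3 := by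
  constructor
  · by_cases h0 : J = ∅
    · rw [h0, Q.rk_empty]
    · have h1 := Q.rk_lt ∅ Q.empty_mem J hJ (Finset.empty_ssubset.2
        (Finset.nonempty_iff_ne_empty.2 h0))
      rw [Q.rk_empty] at h1
      exact h1.le
  · by_cases h0 : J = Finset.univ
    · rw [h0, Q.rk_univ]
    · have h1 := Q.rk_lt J hJ Finset.univ Q.univ_mem (Finset.ssubset_univ_iff.2 h0)
      rw [Q.rk_univ] at h1
      exact h1.le

theorem rk_zero (Q : Fig ι) {J : Finset ι} (hJ : J ∈ Q.F) (h : Q.rk J = 0) : ∃ i, J = {i} := by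
  have hne : J ≠ ∅ := by
    rintro rfl
    rw [Q.rk_empty] at h
    omega
  obtain ⟨i, hi⟩ := Finset.nonempty_iff_ne_empty.2 hne
  refine ⟨i, ?_⟩
  by_contra hJi
  have h1 := Q.rk_lt {i} (Q.sing_mem i) J hJ
    (Finset.ssubset_iff_subset_ne.2 ⟨Finset.singleton_subset_iff.2 hi, fun he => hJi he.symm⟩)
  rw [Q.rk_sing, h] at h1
  exact lt_irrefl _ h1

theorem rk_neg (Q : Fig ι) {J : Finset ι} (hJ : J ∈ Q.F) (h : Q.rk J < 0) : J = ∅ := by
  by_contra hne
  obtain ⟨i, hi⟩ := Finset.nonempty_iff_ne_empty.2 hne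
  by_cases hJi : J = {i}
  · rw [hJi, Q.rk_sing] at h
    exact lt_irrefl _ h
  · have h1 := Q.rk_lt {i} (Q.sing_mem i) J hJ
      (Finset.ssubset_iff_subset_ne.2 ⟨Finset.singleton_subset_iff.2 hi, fun he => hJi he.symm⟩)
    rw [Q.rk_sing] at h1
    exact lt_asymm h h1

variable (r Q) in
/-- The faces of the 4-polytope of the cosets. -/
def CP : Type :=
  {S : Set Γ // S = ∅ ∨ ∃ x ∈ wJ r Set.univ, ∃ J ∈ Q.F, S = co r x J}

instance : PartialOrder (CP r Q) := Subtype.partialOrder _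

omit [Fintype ι] [DecidableEq ι] in
private theorem cosb_sub (h : Cox r) (x : Γ) {I J : Finset ι} :
    co r x I ⊆ co r x J ↔ I ⊆ J := by
  rw [co_sub h]
  exact ⟨fun h1 => h1.1, fun h1 => ⟨h1, mem_co_self x J⟩⟩

omit [Fintype ι] [DecidableEq ι] in
private theorem cosb_ssub (h : Cox r) (x : Γ) {I J : Finset ι} :
    co r x I ⊂ co r x J ↔ I ⊂ J := by
  have h1 : I ⊂ J ↔ I ⊆ J ∧ ¬ J ⊆ I := Iff.rfl
  have h2 : co r x I ⊂ co r x J ↔ co r x I ⊆ co r x J ∧ ¬ co r x J ⊆ co r x I := Iff.rfl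
  rw [h1, h2, cosb_sub h, cosb_sub h]

omit [Fintype ι] [DecidableEq ι] in
private theorem cosb_ne (x : Γ) (J : Finset ι) : co r x J ≠ ∅ := by
  intro h
  have h1 := mem_co_self (r := r) x J
  rw [h] at h1
  exact h1

private theorem cosb_val {S T : CP r Q} : S < T ↔ S.1 ⊂ T.1 := Iff.rfl

private theorem cosb_lt (h : Cox r) {S T : CP r Q} (hST : S < T) :
    ∃ x ∈ wJ r Set.univ, ∃ J ∈ Q.F, T.1 = co r x J ∧
      (S.1 = ∅ ∨ ∃ I ∈ Q.F, I ⊂ J ∧ S.1 = co r x I) := by
  rw [cosb_val] at hST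
  rcases T.2 with hT | ⟨x', hx', J, hJ, hT⟩
  · rw [hT] at hST
    exact absurd (Set.empty_subset _) hST.2
  · rcases S.2 with hS | ⟨x, hx, I, hI, hS⟩
    · exact ⟨x', hx', J, hJ, hT, Or.inl hS⟩
    · have hxT : x ∈ co r x' J := by
        rw [← hT]
        apply hST.1
        rw [hS]
        exact mem_co_self x I
      have hT' : T.1 = co r x J := hT.trans (co_eq hxT)
      refine ⟨x, hx, J, hJ, hT', Or.inr ⟨I, hI, ?_, hS⟩⟩
      rw [hT', hS] at hST
      exact (cosb_ssub h x).1 hST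

private theorem cosb_mid (h : Cox r) {U : CP r Q} {x : Γ} {I J : Finset ι}
    (h1 : co r x I ⊂ U.1) (h2 : U.1 ⊂ co r x J) :
    ∃ H ∈ Q.F, I ⊂ H ∧ H ⊂ J ∧ U.1 = co r x H := by
  rcases U.2 with hU | ⟨y, hy, H, hH, hU⟩
  · rw [hU] at h1
    exact absurd (Set.empty_subset _) h1.2
  · have hxU : x ∈ co r y H := by
      rw [← hU]
      exact h1.1 (mem_co_self x I)
    have hU' : U.1 = co r x H := hU.trans (co_eq hxU)
    rw [hU'] at h1 h2
    exact ⟨H, hH, (cosb_ssub h x).1 h1, (cosb_ssub h x).1 h2, hU'⟩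

omit [Fintype ι] [DecidableEq ι] in
private theorem cosb_emp (x : Γ) (J : Finset ι) : (∅ : Set Γ) ⊂ co r x J :=
  Set.empty_ssubset.2 ⟨x, mem_co_self x J⟩

omit [Fintype ι] [DecidableEq ι] in
private theorem cosb_two (h : Cox r) {i : ι} {z : Γ} (hz : z ∈ wJ r (({i} : Finset ι) : Set ι)) :
    z = 1 ∨ z = r i := by
  unfold wJ at hz
  rw [Finset.coe_singleton, Set.image_singleton, Subgroup.mem_closure_singleton] at hz
  obtain ⟨n, rfl⟩ := hz
  have h2 : r i ^ (2 : ℤ) = 1 := by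
    rw [zpow_two]
    exact h.inv i
  rcases Int.even_or_odd' n with ⟨m, hm | hm⟩
  · left
    rw [hm, zpow_mul, h2, one_zpow]
  · right
    rw [hm, zpow_add, zpow_mul, h2, one_zpow, one_mul, zpow_one]

omit [Fintype ι] [DecidableEq ι] in
private theorem cosb_ri (h : Cox r) (i : ι) : r i ≠ 1 := by
  intro h1
  have h2 : r i ∈ wJ r ∅ := by
    rw [h1]
    exact one_mem _
  exact h.sep i ∅ h2

theorem cp_mono (h : Cox r) : StrictMono fun S : CP r Q => rkS r Q S.1 := by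
  intro S T hST
  change rkS r Q S.1 < rkS r Q T.1
  obtain ⟨x, hx, J, hJ, hT, hS | ⟨I, hI, hIJ, hS⟩⟩ := cosb_lt h hST
  · rw [hT, hS, rkS_empty, rkS_co h]
    have := (rk_bounds Q hJ).1
    omega
  · rw [hT, hS, rkS_co h, rkS_co h]
    have := Q.rk_lt I hI J hJ hIJ
    omega

theorem cp_dense (h : Cox r) (S T : CP r Q) (hST : S < T) (h1 : rkS r Q S.1 + 1 < rkS r Q T.1) :
    ∃ U, S < U ∧ U < T := by
  obtain ⟨x, hx, J, hJ, hT, hS | ⟨I, hI, hIJ, hS⟩⟩ := cosb_lt h hST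
  · rw [hT, hS, rkS_empty, rkS_co h] at h1
    have hJ0 : (∅ : Finset ι) ⊂ J := by
      rw [Finset.empty_ssubset, Finset.nonempty_iff_ne_empty]
      intro hJ1
      rw [hJ1, Q.rk_empty] at h1
      omega
    refine ⟨⟨co r x ∅, Or.inr ⟨x, hx, ∅, Q.empty_mem, rfl⟩⟩, ?_, ?_⟩
    · rw [cosb_val, hS]
      exact cosb_emp x ∅
    · rw [cosb_val, hT]
      exact (cosb_ssub h x).2 hJ0
  · rw [hT, hS, rkS_co h, rkS_co h] at h1
    obtain ⟨H, hH, hIH, hHJ⟩ := Q.dense I hI J hJ hIJ (by omega)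
    refine ⟨⟨co r x H, Or.inr ⟨x, hx, H, hH, rfl⟩⟩, ?_, ?_⟩
    · rw [cosb_val, hS]
      exact (cosb_ssub h x).2 hIH
    · rw [cosb_val, hT]
      exact (cosb_ssub h x).2 hHJ

theorem cp_diamond (h : Cox r) (S T : CP r Q) (hST : S < T)
    (h2 : rkS r Q T.1 - rkS r Q S.1 = 2) : {U | S < U ∧ U < T}.encard = 2 := by
  obtain ⟨x, hx, J, hJ, hT, hS | ⟨I, hI, hIJ, hS⟩⟩ := cosb_lt h hST
  · rw [hT, hS, rkS_empty, rkS_co h] at h2
    obtain ⟨i, rfl⟩ := rk_zero Q hJ (by omega)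
    have hxi : x * r i ∈ wJ r Set.univ :=
      mul_mem hx (Subgroup.subset_closure ⟨i, Set.mem_univ i, rfl⟩)
    have hei : (∅ : Finset ι) ⊂ {i} := by
      rw [Finset.empty_ssubset]
      exact Finset.singleton_nonempty i
    have hT' : T.1 = co r (x * r i) {i} :=
      hT.trans (co_eq (mem_co_mul x (Finset.mem_singleton_self i)))
    let U₀ : CP r Q := ⟨co r x ∅, Or.inr ⟨x, hx, ∅, Q.empty_mem, rfl⟩⟩
    let U₁ : CP r Q := ⟨co r (x * r i) ∅, Or.inr ⟨x * r i, hxi, ∅, Q.empty_mem, rfl⟩⟩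
    have hne : U₀ ≠ U₁ := by
      intro he
      have h3 : co r x ∅ = co r (x * r i) ∅ := congrArg Subtype.val he
      rw [co_empty, co_empty, Set.singleton_eq_singleton_iff] at h3
      exact cosb_ri h i (mul_left_cancel (h3.symm.trans (mul_one x).symm))
    have hset : {U | S < U ∧ U < T} = ({U₀, U₁} : Set (CP r Q)) := by
      ext U
      rw [Set.mem_ofPred_eq, Set.mem_insert_iff, Set.mem_singleton_iff, cosb_val, cosb_val]
      constructor
      · rintro ⟨h3, h4⟩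
        rcases U.2 with hU | ⟨y, hy, H, hH, hU⟩
        · rw [hU, hS] at h3
          exact absurd h3 (ssubset_irrefl _)
        · rw [hT, hU] at h4
          obtain ⟨h5, h6⟩ := (co_sub h).1 h4.1
          have h7 : H = ∅ := by
            rcases Finset.subset_singleton_iff.1 h5 with h8 | h8
            · exact h8
            · rw [h8, ← co_eq h6] at h4
              exact absurd h4 (ssubset_irrefl _)
          subst h7
          have h9 : x⁻¹ * y ∈ wJ r (({i} : Finset ι) : Set ι) := h6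
          rcases cosb_two h h9 with h10 | h10
          · left
            refine Subtype.ext ?_
            have h11 : x = y := inv_mul_eq_one.1 h10
            subst h11
            exact hU
          · right
            refine Subtype.ext ?_
            have h11 : y = x * r i := inv_mul_eq_iff_eq_mul.1 h10
            subst h11
            exact hU
      · rintro (rfl | rfl)
        · refine ⟨?_, ?_⟩
          · rw [hS]
            exact cosb_emp x ∅
          · rw [hT]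
            exact (cosb_ssub h x).2 hei
        · refine ⟨?_, ?_⟩
          · rw [hS]
            exact cosb_emp _ ∅
          · rw [hT']
            exact (cosb_ssub h _).2 hei
    rw [hset]
    exact Set.encard_pair hne
  · rw [hT, hS, rkS_co h, rkS_co h] at h2
    have h3 := Q.diamond I hI J hJ hIJ (by omega)
    have h4 : ((fun U : CP r Q => U.1) '' {U : CP r Q | S < U ∧ U < T} : Set (Set Γ)) =
        (fun H => co r x H) '' ((Q.F.filter fun H => I ⊂ H ∧ H ⊂ J : Finset (Finset ι)) :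
          Set (Finset ι)) := by
      ext Z
      constructor
      · rintro ⟨U, ⟨h5, h6⟩, rfl⟩
        rw [cosb_val] at h5 h6
        rw [hS] at h5
        rw [hT] at h6
        obtain ⟨H, hH, h7, h8, h9⟩ := cosb_mid h h5 h6
        exact ⟨H, Finset.mem_coe.2 (Finset.mem_filter.2 ⟨hH, h7, h8⟩), h9.symm⟩
      · rintro ⟨H, hH, rfl⟩
        obtain ⟨h5, h6, h7⟩ := Finset.mem_filter.1 (Finset.mem_coe.1 hH)
        refine ⟨⟨co r x H, Or.inr ⟨x, hx, H, h5, rfl⟩⟩, ⟨?_, ?_⟩, rfl⟩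
        · rw [cosb_val, hS]
          exact (cosb_ssub h x).2 h6
        · rw [cosb_val, hT]
          exact (cosb_ssub h x).2 h7
    have h5 : Function.Injective (fun H : Finset ι => co r x H) := fun H H' he => co_inj h he
    have h6 : Function.Injective (fun U : CP r Q => U.1) := Subtype.val_injective
    rw [← h6.encard_image, h4, h5.encard_image, Set.encard_coe_eq_coe_finsetCard, h3]
    rfl

omit [Fintype ι] [DecidableEq ι] in
private theorem cosc_univ {x y : Γ} {J : Finset ι} (hx : x ∈ wJ r Set.univ)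
    (hy : y ∈ co r x J) : y ∈ wJ r Set.univ := by
  have h1 : x⁻¹ * y ∈ wJ r Set.univ :=
    Subgroup.closure_mono (Set.image_mono (Set.subset_univ _)) hy
  have h2 := mul_mem hx h1
  rwa [mul_inv_cancel_left] at h2

theorem cp_conn (h : Cox r) (S T : CP r Q) (hST : S < T) (h3 : 3 ≤ rkS r Q T.1 - rkS r Q S.1)
    (a b : CP r Q) (ha : S < a) (ha' : a < T) (hb : S < b) (hb' : b < T) :
    Relation.ReflTransGen (fun s t => (S < t ∧ t < T) ∧ (s ≤ t ∨ t ≤ s)) a b := by
  have hne : ∀ {U V : CP r Q}, U < V → V.1 ≠ ∅ := by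
    intro U V hUV hV
    have h1 : U.1 ⊆ V.1 := hUV.le
    have h2 : U.1 = ∅ := Set.subset_eq_empty h1 hV
    exact hUV.ne (Subtype.ext (h2.trans hV.symm))
  have hrep : ∀ U : CP r Q, U.1 ≠ ∅ → ∀ x ∈ U.1, x ∈ wJ r Set.univ ∧ ∃ J ∈ Q.F, U.1 = co r x J := by
    intro U hU x hx
    rcases U.2 with h1 | ⟨x', hx', J, hJ, h1⟩
    · exact absurd h1 hU
    · rw [h1] at hx
      refine ⟨cosc_univ hx' hx, J, hJ, ?_⟩
      rw [h1]
      exact co_eq hx
  by_cases hS : S.1 = ∅
  · -- the empty face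
    obtain ⟨x, hx⟩ : T.1.Nonempty := Set.nonempty_iff_ne_empty.2 (hne hST)
    obtain ⟨hxW, J, hJ, hTJ⟩ := hrep T (hne hST) x hx
    have hrk : 1 ≤ Q.rk J := by
      rw [hS, hTJ, rkS_empty, rkS_co h] at h3
      omega
    have hSlt : ∀ U : CP r Q, U.1.Nonempty → S < U := by
      intro U hU
      refine lt_of_le_of_ne ?_ ?_
      · change S.1 ⊆ U.1
        rw [hS]
        exact Set.empty_subset _
      · intro h1
        rw [← h1, hS] at hU
        exact Set.not_nonempty_empty hU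
    have hpath : ∀ l : List ι, (∀ i ∈ l, i ∈ J) → ∀ (u v : CP r Q) (y : Γ), y ∈ T.1 →
        u.1 = co r y ∅ → v.1 = co r (y * (l.map r).prod) ∅ →
        Relation.ReflTransGen (fun s t => (S < t ∧ t < T) ∧ (s ≤ t ∨ t ≤ s)) u v := by
      intro l
      induction l with
      | nil =>
        intro _ u v y _ hu hv
        rw [List.map_nil, List.prod_nil, mul_one] at hv
        have h1 : u = v := Subtype.ext (hu.trans hv.symm)
        rw [h1]
      | cons i l ih =>
        intro hl u v y hy hu hv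
        have hi : i ∈ J := hl i List.mem_cons_self
        have hyW := (hrep T (hne hST) y hy).1
        have hTy : T.1 = co r y J := by
          rw [hTJ] at hy ⊢
          exact co_eq hy
        have hy1 : y * r i ∈ T.1 := by
          rw [hTy]
          exact mem_co_mul y hi
        have hyW1 := (hrep T (hne hST) (y * r i) hy1).1
        let e : CP r Q := ⟨co r y {i}, Or.inr ⟨y, hyW, {i}, Q.sing_mem i, rfl⟩⟩
        let m : CP r Q := ⟨co r (y * r i) ∅, Or.inr ⟨y * r i, hyW1, ∅, Q.empty_mem, rfl⟩⟩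
        have heT : e < T := by
          refine lt_of_le_of_ne ?_ ?_
          · change co r y {i} ⊆ T.1
            rw [hTy, co_sub h]
            exact ⟨Finset.singleton_subset_iff.2 hi, mem_co_self y J⟩
          · intro h1
            have h2 : co r y {i} = co r y J := by
              rw [← hTy, ← h1]
            have h4 := co_inj h h2
            rw [← h4, Q.rk_sing] at hrk
            omega
        have hue : u ≤ e := by
          change u.1 ⊆ co r y {i}
          rw [hu, co_sub h]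
          exact ⟨Finset.empty_subset _, mem_co_self y _⟩
        have hme : m ≤ e := by
          change co r (y * r i) ∅ ⊆ co r y {i}
          rw [co_sub h]
          exact ⟨Finset.empty_subset _, mem_co_mul y (Finset.mem_singleton_self i)⟩
        have h5 : Relation.ReflTransGen (fun s t => (S < t ∧ t < T) ∧ (s ≤ t ∨ t ≤ s)) m v := by
          refine ih (fun j hj => hl j (List.mem_cons_of_mem _ hj)) m v (y * r i) hy1 rfl ?_
          rw [hv, List.map_cons, List.prod_cons, mul_assoc]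
        refine Relation.ReflTransGen.head ⟨⟨hSlt e ⟨y, mem_co_self y _⟩, heT⟩, Or.inl hue⟩ ?_
        exact Relation.ReflTransGen.head
          ⟨⟨hSlt m ⟨y * r i, mem_co_self _ _⟩, lt_of_le_of_lt hme heT⟩, Or.inr hme⟩ h5
    -- the vertex below a face
    have hvert : ∀ U : CP r Q, S < U → U < T → ∃ (U0 : CP r Q) (y : Γ), y ∈ T.1 ∧
        U0.1 = co r y ∅ ∧ S < U0 ∧ U0 < T ∧ U0 ≤ U := by
      intro U hU1 hU2
      obtain ⟨y, hy⟩ : U.1.Nonempty := Set.nonempty_iff_ne_empty.2 (hne hU1)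
      obtain ⟨hyW, H, hH, hUH⟩ := hrep U (hne hU1) y hy
      let U0 : CP r Q := ⟨co r y ∅, Or.inr ⟨y, hyW, ∅, Q.empty_mem, rfl⟩⟩
      have h1 : U0 ≤ U := by
        change co r y ∅ ⊆ U.1
        rw [hUH, co_sub h]
        exact ⟨Finset.empty_subset _, mem_co_self y _⟩
      exact ⟨U0, y, hU2.le hy, rfl, hSlt U0 ⟨y, mem_co_self y _⟩, lt_of_le_of_lt h1 hU2, h1⟩
    obtain ⟨a0, y, hy, ha0, ha1, ha2, ha3⟩ := hvert a ha ha'
    obtain ⟨b0, z, hz, hb0, hb1, hb2, hb3⟩ := hvert b hb hb'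
    have h6 : y⁻¹ * z ∈ wJ r (J : Set ι) := by
      rw [hTJ] at hy hz
      have h7 : (x⁻¹ * y)⁻¹ * (x⁻¹ * z) ∈ wJ r (J : Set ι) := mul_mem (inv_mem hy) hz
      have h8 : (x⁻¹ * y)⁻¹ * (x⁻¹ * z) = y⁻¹ * z := by group
      rwa [h8] at h7
    obtain ⟨l, hl, _, hlp⟩ := exists_red r h.inv (J : Set ι) h6
    have h9 : Relation.ReflTransGen (fun s t => (S < t ∧ t < T) ∧ (s ≤ t ∨ t ≤ s)) a0 b0 := by
      refine hpath l (fun i hi => hl i hi) a0 b0 y hy ha0 ?_
      rw [hb0, hlp, mul_inv_cancel_left]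
    refine Relation.ReflTransGen.head ⟨⟨ha1, ha2⟩, Or.inr ha3⟩ ?_
    exact h9.tail ⟨⟨hb, hb'⟩, Or.inl hb3⟩
  · -- a coset
    obtain ⟨x, hx⟩ : S.1.Nonempty := Set.nonempty_iff_ne_empty.2 hS
    obtain ⟨hxW, I, hI, hSI⟩ := hrep S hS x hx
    obtain ⟨_, J, hJ, hTJ⟩ := hrep T (hne hST) x (hST.le hx)
    have hlt : ∀ {U V : CP r Q} {A B : Finset ι}, U.1 = co r x A → V.1 = co r x B → U < V →
        A ⊂ B := by
      intro U V A B hU hV hUV
      have h1 : co r x A ⊆ co r x B := by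
        rw [← hU, ← hV]
        exact hUV.le
      rw [co_sub h] at h1
      refine lt_of_le_of_ne h1.1 fun h2 => ?_
      exact hUV.ne (Subtype.ext (by rw [hU, hV, h2]))
    have hlt' : ∀ {U V : CP r Q} {A B : Finset ι}, U.1 = co r x A → V.1 = co r x B → A ⊂ B →
        U < V := by
      intro U V A B hU hV hAB
      refine lt_of_le_of_ne ?_ fun h2 => ?_
      · change U.1 ⊆ V.1
        rw [hU, hV, co_sub h]
        exact ⟨hAB.1, mem_co_self x B⟩
      · have h4 : co r x A = co r x B := by rw [← hU, ← hV, h2]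
        exact hAB.ne (co_inj h h4)
    have hle' : ∀ {U V : CP r Q} {A B : Finset ι}, U.1 = co r x A → V.1 = co r x B → A ⊆ B →
        U ≤ V := by
      intro U V A B hU hV hAB
      change U.1 ⊆ V.1
      rw [hU, hV, co_sub h]
      exact ⟨hAB, mem_co_self x B⟩
    obtain ⟨_, A, hA, haA⟩ := hrep a (hne ha) x (ha.le hx)
    obtain ⟨_, B, hB, hbB⟩ := hrep b (hne hb) x (hb.le hx)
    have hrk : Q.rk I + 3 ≤ Q.rk J := by
      rw [hSI, hTJ, rkS_co h, rkS_co h] at h3
      omega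
    have hpath := Q.conn I hI J hJ (hlt hSI hTJ hST) hrk A hA B hB (hlt hSI haA ha)
      (hlt haA hTJ ha') (hlt hSI hbB hb) (hlt hbB hTJ hb')
    have key : ∀ B' : Finset ι, Relation.ReflTransGen
        (fun S T => (T ∈ Q.F ∧ I ⊂ T ∧ T ⊂ J) ∧ (S ⊆ T ∨ T ⊆ S)) A B' →
        ∃ v : CP r Q, v.1 = co r x B' ∧
          Relation.ReflTransGen (fun s t => (S < t ∧ t < T) ∧ (s ≤ t ∨ t ≤ s)) a v := by
      intro B' hB'
      induction hB' with
      | refl => exact ⟨a, haA, Relation.ReflTransGen.refl⟩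
      | @tail b' c' _ hbc ih =>
        obtain ⟨v, hv, hav⟩ := ih
        obtain ⟨⟨hc1, hc2, hc3⟩, hc4⟩ := hbc
        let w : CP r Q := ⟨co r x c', Or.inr ⟨x, hxW, c', hc1, rfl⟩⟩
        have hw : w.1 = co r x c' := rfl
        refine ⟨w, hw, hav.tail ⟨⟨hlt' hSI hw hc2, hlt' hw hTJ hc3⟩, ?_⟩⟩
        rcases hc4 with h5 | h5
        · exact Or.inl (hle' hv hw h5)
        · exact Or.inr (hle' hw hv h5)
    obtain ⟨v, hv, hav⟩ := key B hpath
    have h7 : v = b := Subtype.ext (hv.trans hbB.symm)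
    rwa [h7] at hav

end

end Pool.Agent.Lib.MP_eed79e_coW
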