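import Pool.Agent.Lib.MP_eed79e_coW.Cos

/-!
# CosP: the abstract 4-polytope of the cosets (complete file)
-/

set_option autoImplicit false

namespace Pool.Agent.Lib.MP_eed79e_coW

variable {Γ : Type} [Group Γ] {ι : Type} {r : ι → Γ} [Fintype ι] [DecidableEq ι] {Q : Fig ι}

variable (r Q) in
/-- The least face. -/
def cpBot : CP r Q := ⟨∅, Or.inl rfl⟩

variable (r Q) in
/-- The face `x W_J`. -/
def cpf (x : Γ) (hx : x ∈ wJ r Set.univ) (J : Finset ι) (hJ : J ∈ Q.F) : CP r Q :=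
  ⟨co r x J, Or.inr ⟨x, hx, J, hJ, rfl⟩⟩

variable (r Q) in
/-- The greatest face. -/
def cpTop : CP r Q := cpf r Q 1 (one_mem _) Finset.univ Q.univ_mem

theorem cpBot_le (S : CP r Q) : cpBot r Q ≤ S := fun _ h => h.elim

theorem le_cpTop (h : Cox r) (S : CP r Q) : S ≤ cpTop r Q := by
  obtain ⟨S, hS⟩ := S
  show S ⊆ co r 1 Finset.univ
  rcases hS with rfl | ⟨x, hx, J, _, rfl⟩
  · exact Set.empty_subset _
  · rw [co_sub h]
    refine ⟨Finset.subset_univ _, ?_⟩
    show (1 : Γ)⁻¹ * x ∈ wJ r ((Finset.univ : Finset ι) : Set ι)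
    rw [inv_one, one_mul, Finset.coe_univ]
    exact hx

theorem cp_flag (h : Cox r) : (∀ s : Set (CP r Q), IsMaxChain (· ≤ ·) s → s.encard = (4 : ℕ) + 2) ∧
    Set.range (fun S : CP r Q => rkS r Q S.1) = Set.Icc (-1) ((4 : ℕ) : ℤ) :=
  flag_of_dense (fun S : CP r Q => rkS r Q S.1) (cp_mono h) (cpBot r Q) (cpTop r Q) cpBot_le
    (le_cpTop h) rkS_empty
    (by
      show rkS r Q (co r 1 Finset.univ) = ((4 : ℕ) : ℤ)
      rw [rkS_co h, Q.rk_univ]
      norm_num)
    (cp_dense h)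

/-- The abstract 4-polytope of the cosets. -/
noncomputable def cpP (h : Cox r) (Q : Fig ι) : AbsPoly 4 (CP r Q) where
  rank S := rkS r Q S.1
  rank_mono := cp_mono h
  range_rank := (cp_flag h).2
  bot := cpBot r Q
  bot_le := cpBot_le
  rank_bot := rkS_empty
  top := cpTop r Q
  le_top := le_cpTop h
  rank_top := by
    show rkS r Q (co r 1 Finset.univ) = ((4 : ℕ) : ℤ)
    rw [rkS_co h, Q.rk_univ]
    norm_num
  flag := (cp_flag h).1
  diamond := cp_diamond h
  conn := cp_conn h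

theorem cpP_rank (h : Cox r) (S : CP r Q) : (cpP h Q).rank S = rkS r Q S.1 := rfl

theorem rank_cpf (h : Cox r) (x : Γ) (hx : x ∈ wJ r Set.univ) (J : Finset ι) (hJ : J ∈ Q.F) :
    (cpP h Q).rank (cpf r Q x hx J hJ) = Q.rk J + 1 := rkS_co h x J

/-- The vertices of the polytope are the one-element sets. -/
theorem vertex_iff (h : Cox r) (S : CP r Q) :
    (cpP h Q).rank S = 0 ↔ ∃ x ∈ wJ r Set.univ, S.1 = {x} := by
  obtain ⟨S, hS⟩ := S
  rw [cpP_rank]
  show rkS r Q S = 0 ↔ ∃ x ∈ wJ r Set.univ, S = {x}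
  constructor
  · intro h0
    rcases hS with rfl | ⟨x, hx, J, hJ, rfl⟩
    · rw [rkS_empty] at h0
      norm_num at h0
    · rw [rkS_co h] at h0
      have h1 := rk_neg Q hJ (by linarith)
      subst h1
      exact ⟨x, hx, co_empty x⟩
  · rintro ⟨x, _, rfl⟩
    rw [← co_empty (r := r) x, rkS_co h, Q.rk_empty]
    norm_num

end Pool.Agent.Lib.MP_eed79e_coW
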