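import Pool.Agent.Lib.MP_eed79e_coW.Cos

/-!
# The face lattice of the cube (complete file)

The vertices are the numbers `0, ..., 7` (binary digits = coordinates); the faces are given by bit masks.
-/

set_option autoImplicit false

namespace Pool.Agent.Lib.MP_eed79e_coW

/-- The masks of the faces of the cube (including the empty face and the cube). -/
def cubeM : List ℕ := [0, 1, 2, 4, 8, 16, 32, 64, 128,
  3, 12, 48, 192, 5, 10, 80, 160, 17, 34, 68, 136, 15, 240, 51, 204, 85, 170, 255]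

/-- The set with the mask `m`. -/
def toF (m : ℕ) : Finset (Fin 8) := Finset.univ.filter (fun i => m.testBit i.val = true)

/-- The faces of the cube. -/
def cubeF : Finset (Finset (Fin 8)) := (cubeM.map toF).toFinset

/-- The rank of a face. -/
def cubeRk (J : Finset (Fin 8)) : ℤ :=
  if J.card = 0 then -1 else if J.card = 1 then 0 else if J.card = 2 then 1 else
  if J.card = 4 then 2 else 3

def rkm (m : ℕ) : ℤ := cubeRk (toF m)

/-- proper inclusion of masks -/
def ltm (m m' : ℕ) : Bool := (m &&& m' == m) && (m != m')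

theorem toF_sub {m m' : ℕ} (hm : m < 256) : toF m ⊆ toF m' ↔ m &&& m' = m := by
  constructor
  · intro h
    refine Nat.eq_of_testBit_eq fun k => ?_
    rw [Nat.testBit_and]
    by_cases hk : k < 8
    · have h1 := @h ⟨k, hk⟩
      simp only [toF, Finset.mem_filter, Finset.mem_univ, true_and] at h1
      cases h2 : m.testBit k
      · rfl
      · rw [h1 h2]; rfl
    · have h1 : m.testBit k = false := by
        apply Nat.testBit_lt_two_pow
        calc m < 256 := hm
          _ = 2 ^ 8 := by norm_num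
          _ ≤ 2 ^ k := Nat.pow_le_pow_right (by norm_num) (by omega)
      rw [h1]; rfl
  · intro h i hi
    simp only [toF, Finset.mem_filter, Finset.mem_univ, true_and] at hi ⊢
    have h1 := congrArg (fun x => Nat.testBit x i.val) h
    simp only [Nat.testBit_and, hi, Bool.true_and] at h1
    exact h1

theorem toF_inj {m m' : ℕ} (hm : m < 256) (hm' : m' < 256) (h : toF m = toF m') : m = m' := by
  have h1 := (toF_sub (m' := m') hm).1 h.subset
  have h2 := (toF_sub (m' := m) hm').1 h.symm.subset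
  rw [Nat.and_comm] at h2
  rw [← h1, h2]

theorem cubeM_lt {m : ℕ} (h : m ∈ cubeM) : m < 256 := by
  revert m
  decide +kernel

theorem mem_cubeF {J : Finset (Fin 8)} : J ∈ cubeF ↔ ∃ m ∈ cubeM, toF m = J := by
  unfold cubeF
  rw [List.mem_toFinset, List.mem_map]

theorem toF_lt {m m' : ℕ} (hm : m ∈ cubeM) (hm' : m' ∈ cubeM) :
    toF m ⊂ toF m' ↔ ltm m m' = true := by
  unfold ltm
  rw [Finset.ssubset_iff_subset_ne, toF_sub (cubeM_lt hm), Bool.and_eq_true, beq_iff_eq, bne_iff_ne]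
  refine and_congr_right fun _ => ?_
  constructor
  · intro h h'
    exact h (congrArg toF h')
  · intro h h'
    exact h (toF_inj (cubeM_lt hm) (cubeM_lt hm') h')

private theorem cube_univ : (Finset.univ : Finset (Fin 8)) = toF 255 := by decide +kernel

private theorem cube_empty : (∅ : Finset (Fin 8)) = toF 0 := by decide +kernel

private theorem cube_sing : ∀ i : Fin 8, ({i} : Finset (Fin 8)) = toF (2 ^ i.val) ∧
    2 ^ i.val ∈ cubeM := by decide +kernel

private theorem cube_lt : ∀ m ∈ cubeM, ∀ m' ∈ cubeM, ltm m m' = true → rkm m < rkm m' := by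
  decide +kernel

private theorem cube_dense : ∀ m ∈ cubeM, ∀ m' ∈ cubeM, ltm m m' = true → rkm m + 1 < rkm m' →
    ∃ h ∈ cubeM, ltm m h = true ∧ ltm h m' = true := by
  decide +kernel

private theorem cube_diamond : ∀ m ∈ cubeM, ∀ m' ∈ cubeM, ltm m m' = true → rkm m' = rkm m + 2 →
    (cubeM.filter fun h => ltm m h && ltm h m').length = 2 := by
  decide +kernel

private theorem cube_nodup : cubeM.Nodup := by decide +kernel

/-- one step of the search -/
def stp (I J : ℕ) (S : List ℕ) : List ℕ :=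
  cubeM.filter fun t => (ltm I t && ltm t J) && S.any fun s => s == t || ltm s t || ltm t s

private theorem cube_conn : ∀ I ∈ cubeM, ∀ J ∈ cubeM, ltm I J = true → rkm I + 3 ≤ rkm J →
    ∀ H ∈ cubeM, ltm I H = true → ltm H J = true → ∀ H' ∈ cubeM, ltm I H' = true →
    ltm H' J = true → H' ∈ (stp I J)^[6] [H] := by
  decide +kernel

private theorem cube_reach {I J : ℕ} (hI : I ∈ cubeM) (hJ : J ∈ cubeM) {H : ℕ} (hH : H ∈ cubeM)
    (k : ℕ) : ∀ T ∈ (stp I J)^[k] [H], T ∈ cubeM ∧
      Relation.ReflTransGen (fun S T => (T ∈ cubeF ∧ toF I ⊂ T ∧ T ⊂ toF J) ∧ (S ⊆ T ∨ T ⊆ S))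
        (toF H) (toF T) := by
  induction k with
  | zero =>
    intro T hT
    rw [Function.iterate_zero, id, List.mem_singleton] at hT
    subst hT
    exact ⟨hH, Relation.ReflTransGen.refl⟩
  | succ k ih =>
    intro T hT
    rw [Function.iterate_succ_apply'] at hT
    unfold stp at hT
    rw [List.mem_filter, Bool.and_eq_true, Bool.and_eq_true, List.any_eq_true] at hT
    obtain ⟨hTM, ⟨h1, h2⟩, s, hs, h3⟩ := hT
    obtain ⟨hsM, hr⟩ := ih s hs
    refine ⟨hTM, hr.tail ⟨⟨mem_cubeF.2 ⟨T, hTM, rfl⟩, (toF_lt hI hTM).2 h1,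
      (toF_lt hTM hJ).2 h2⟩, ?_⟩⟩
    rw [Bool.or_eq_true, Bool.or_eq_true, beq_iff_eq] at h3
    rcases h3 with (h3 | h3) | h3
    · exact Or.inl (by rw [h3])
    · exact Or.inl ((toF_lt hsM hTM).2 h3).subset
    · exact Or.inr ((toF_lt hTM hsM).2 h3).subset

/-- The face lattice of the cube. -/
def cube : Fig (Fin 8) where
  F := cubeF
  rk := cubeRk
  empty_mem := mem_cubeF.2 ⟨0, by decide, cube_empty.symm⟩
  univ_mem := mem_cubeF.2 ⟨255, by decide, cube_univ.symm⟩
  sing_mem i := mem_cubeF.2 ⟨2 ^ i.val, (cube_sing i).2, (cube_sing i).1.symm⟩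
  rk_empty := by decide
  rk_sing i := by
    unfold cubeRk
    rw [Finset.card_singleton]
    rfl
  rk_univ := by decide +kernel
  rk_lt := by
    intro I hI J hJ h
    obtain ⟨m, hm, rfl⟩ := mem_cubeF.1 hI
    obtain ⟨m', hm', rfl⟩ := mem_cubeF.1 hJ
    exact cube_lt m hm m' hm' ((toF_lt hm hm').1 h)
  dense := by
    intro I hI J hJ h h2
    obtain ⟨m, hm, rfl⟩ := mem_cubeF.1 hI
    obtain ⟨m', hm', rfl⟩ := mem_cubeF.1 hJ
    obtain ⟨t, ht, h3, h4⟩ := cube_dense m hm m' hm' ((toF_lt hm hm').1 h) h2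
    exact ⟨toF t, mem_cubeF.2 ⟨t, ht, rfl⟩, (toF_lt hm ht).2 h3, (toF_lt ht hm').2 h4⟩
  diamond := by
    intro I hI J hJ h h2
    obtain ⟨m, hm, rfl⟩ := mem_cubeF.1 hI
    obtain ⟨m', hm', rfl⟩ := mem_cubeF.1 hJ
    have h3 := cube_diamond m hm m' hm' ((toF_lt hm hm').1 h) h2
    have h4 : (cubeF.filter fun H => toF m ⊂ H ∧ H ⊂ toF m') =
        (cubeM.filter fun h => ltm m h && ltm h m').toFinset.image toF := by
      ext H
      rw [Finset.mem_filter, Finset.mem_image, mem_cubeF]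
      constructor
      · rintro ⟨⟨t, ht, rfl⟩, h5, h6⟩
        refine ⟨t, ?_, rfl⟩
        rw [List.mem_toFinset, List.mem_filter, Bool.and_eq_true]
        exact ⟨ht, (toF_lt hm ht).1 h5, (toF_lt ht hm').1 h6⟩
      · rintro ⟨t, ht, rfl⟩
        rw [List.mem_toFinset, List.mem_filter, Bool.and_eq_true] at ht
        exact ⟨⟨t, ht.1, rfl⟩, (toF_lt hm ht.1).2 ht.2.1, (toF_lt ht.1 hm').2 ht.2.2⟩
    rw [h4, Finset.card_image_of_injOn, List.toFinset_card_of_nodup (cube_nodup.filter _)]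
    · exact h3
    · intro a ha b hb hab
      rw [Finset.mem_coe, List.mem_toFinset, List.mem_filter] at ha hb
      exact toF_inj (cubeM_lt ha.1) (cubeM_lt hb.1) hab
  conn := by
    intro I hI J hJ h h3 H hH H' hH' a1 a2 b1 b2
    obtain ⟨m, hm, rfl⟩ := mem_cubeF.1 hI
    obtain ⟨m', hm', rfl⟩ := mem_cubeF.1 hJ
    obtain ⟨s, hs, rfl⟩ := mem_cubeF.1 hH
    obtain ⟨s', hs', rfl⟩ := mem_cubeF.1 hH'
    exact (cube_reach hm hm' hs 6 s' (cube_conn m hm m' hm' ((toF_lt hm hm').1 h) h3 s hs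
      ((toF_lt hm hs).1 a1) ((toF_lt hs hm').1 a2) s' hs' ((toF_lt hm hs').1 b1)
      ((toF_lt hs' hm').1 b2))).2

end Pool.Agent.Lib.MP_eed79e_coW
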