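import Pool.Agent.Lib.MP_eed79e_coW.Act
import Pool.Agent.Lib.MP_eed79e_coW.Cube

/-!
# JOB CubeG: the mirrors of the cube and its symmetries

`bt8 i k`: the `k`-th binary digit of `i : Fin 8`. `pmf σ m i`: permute the digits of `i` by `σ` and add (xor) `m`. The mirrors of even vertices are at one distance, those of odd vertices at another distance from `o`.

JOB CubeGA: `pmf_bit` ... `flags_cube`. JOB CubeGB: `nv_lor` ... `nv_sep`. JOB CubeGC: `sp_lor` ... `nrm_cube`.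

PROOFS.
* CubeGA: `pmf_bit`, `pmf_inj`, `pmf_par`: `decide +kernel`. `pm_mem`, `pm_rk`: `Finset.map_eq_image`; rank: `Finset.card_map`. membership: `mem_cubeF` (Cube.lean), and for the masks: `im σ m x := ∑ i : Fin 8, if x.testBit i then 2 ^ (pmf σ m i).val else 0`; `∀ σ m, ∀ x ∈ cubeM, im σ m x ∈ cubeM` and `∀ σ m, ∀ x ∈ cubeM, (toF x).image (pmf σ m) = toF (im σ m x)` by `decide +kernel`
  (or any other way). `flags_cube`: reduce to masks (`mem_cubeF`, `toF_sub`, `cube.rk = cubeRk`): for all `i : Fin 8`, `e, g ∈ cubeM` with `rkm e = 1`, `rkm g = 2`, `e.testBit i`, `e &&& g = e` there are `σ, m`, `par8 m = false`, with `(pmf σ m 0 = i, im σ m 3 = e, im σ m 15 = g)` or `(pmf σ m 7 = i, im σ m 192 = e, im σ m 240 = g)`: `decide +kernel`. `{0,1} = toF 3`, `{0,1,2,3} = toF 15`, `{6,7} = toF 192`, `{4,5,6,7} = toF 240`.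
* CubeGB: `lor_eq`: `Fin.sum_univ_three`. `nv_lor`: `lor (nv A B i) (nv A B j) = √((c i - 1)/2) √((c j - 1)/2) - √((c i + 1)/6) √((c j + 1)/6) dot i j`, `dot i j = ∑ k, sg i k * sg j k`. `nv_unit`: `dot i i = 3`; `(c - 1)/2 - 3 (c + 1)/6 = -1`. `nv_sep`: `i ≠ j`. `dot i j ≤ 1`, and `dot i j = -1` if `par8 i = par8 j` (`decide` for the integer version).
  Same parity: `(c - 1)/2 + (c + 1)/6 = (2 c - 1)/3 > 1`. Different parity: `lor ≥ p - q`, `p = √((A-1)/2) √((B-1)/2)`, `q = √((A+1)/6) √((B+1)/6)`; with `a = (A - 1)/2 ≥ 2`, `b = (B - 1)/2 > 2`: `p ^ 2 = a b > 4`, `p > 2`, `q ^ 2 = (a + 1)(b + 1)/9`, and `(a - 2)(b - 2) ≥ 0` gives `a + b ≤ a b / 2 + 2`, so `9 q ^ 2 = p ^ 2 + a + b + 1 ≤ (3/2) p ^ 2 + 3`, and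
  `9 (p - 1) ^ 2 - (3/2) p ^ 2 - 3 = (3/2) (5 p - 2) (p - 2) > 0`. So `q ^ 2 < (p - 1) ^ 2`, `q < p - 1`. `nv_pos`: clear. `nv_hdist`: `r_i o = o + 2 (lor o n) n`, `lor o n = n 0`, `lor o (r_i o) = 1 + 2 (n 0) ^ 2 = 1 + (c - 1) = c`.
* CubeGC: `sp_lor`: `lor_eq` and `Equiv.sum_comp` for `σ`, `sg m k ^ 2 = 1`. `spe`: the inverse of `sp σ m` is `y ↦ (y 0, j ↦ sg m (σ j) * y (σ j).succ)`; it also preserves `lor` and the `0`-th coordinate (or: `sp σ m` is linear and injective because it preserves `lor`, ...). `spe_conj`: `sp` is linear (`sp σ m (x + c • y) = sp σ m x + c • sp σ m y`) and maps `nv A B i` to `nv A B (pmf σ m i)` (`pmf_bit`, `pmf_par`), so `a (r_i x) = r_{π i} (a x)` for all `x`.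
  `nrm_cube`: from these and `pm_mem`, `pm_rk`.
-/

set_option autoImplicit false

namespace Pool.Agent.Lib.MP_eed79e_coW

/-- The `k`-th binary digit. -/
def bt8 (i : Fin 8) (k : Fin 3) : Bool := i.val.testBit k.val

/-- The number with the given digits. -/
def ofb (b : Fin 3 → Bool) : Fin 8 :=
  ⟨(b 0).toNat + 2 * (b 1).toNat + 4 * (b 2).toNat, by
    have h0 := (b 0).toNat_lt
    have h1 := (b 1).toNat_lt
    have h2 := (b 2).toNat_lt
    omega⟩

/-- The parity. -/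
def par8 (i : Fin 8) : Bool := xor (bt8 i 0) (xor (bt8 i 1) (bt8 i 2))

/-- Permute the digits of `i` by `σ` and add `m`. -/
def pmf (σ : Equiv.Perm (Fin 3)) (m i : Fin 8) : Fin 8 :=
  ofb fun k => xor (bt8 m k) (bt8 i (σ.symm k))

theorem pmf_bit (σ : Equiv.Perm (Fin 3)) (m i : Fin 8) (k : Fin 3) :
    bt8 (pmf σ m i) k = xor (bt8 m k) (bt8 i (σ.symm k)) := by
  revert σ m i k
  decide +kernel

theorem pmf_inj (σ : Equiv.Perm (Fin 3)) (m : Fin 8) : Function.Injective (pmf σ m) := by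
  revert σ m
  unfold Function.Injective
  decide +kernel

theorem pmf_par (σ : Equiv.Perm (Fin 3)) (m i : Fin 8) (hm : par8 m = false) :
    par8 (pmf σ m i) = par8 i := by
  revert σ m i
  decide +kernel

/-- The permutation `pmf σ m`. -/
noncomputable def pm (σ : Equiv.Perm (Fin 3)) (m : Fin 8) : Equiv.Perm (Fin 8) :=
  Equiv.ofBijective (pmf σ m) (Finite.injective_iff_bijective.1 (pmf_inj σ m))

theorem pm_apply (σ : Equiv.Perm (Fin 3)) (m i : Fin 8) : pm σ m i = pmf σ m i := rfl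

/-- The action of `pmf σ m` on masks. -/
private def cubega_im (σ : Equiv.Perm (Fin 3)) (m : Fin 8) (x : ℕ) : ℕ :=
  ∑ i : Fin 8, if x.testBit i.val then 2 ^ (pmf σ m i).val else 0

private theorem cubega_mem : ∀ (σ : Equiv.Perm (Fin 3)) (m : Fin 8), ∀ x ∈ cubeM,
    cubega_im σ m x ∈ cubeM := by
  decide +kernel

private theorem cubega_img : ∀ (σ : Equiv.Perm (Fin 3)) (m : Fin 8), ∀ x ∈ cubeM,
    (toF x).image (pmf σ m) = toF (cubega_im σ m x) := by
  decide +kernel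

private theorem cubega_map (σ : Equiv.Perm (Fin 3)) (m : Fin 8) {x : ℕ} (hx : x ∈ cubeM) :
    (toF x).map (pm σ m).toEmbedding = toF (cubega_im σ m x) := by
  rw [Finset.map_eq_image]
  exact cubega_img σ m x hx

theorem pm_mem (σ : Equiv.Perm (Fin 3)) (m : Fin 8) (J : Finset (Fin 8)) (hJ : J ∈ cube.F) :
    J.map (pm σ m).toEmbedding ∈ cube.F := by
  obtain ⟨x, hx, rfl⟩ := mem_cubeF.1 hJ
  exact mem_cubeF.2 ⟨cubega_im σ m x, cubega_mem σ m x hx, (cubega_map σ m hx).symm⟩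

theorem pm_rk (σ : Equiv.Perm (Fin 3)) (m : Fin 8) (J : Finset (Fin 8)) (hJ : J ∈ cube.F) :
    cube.rk (J.map (pm σ m).toEmbedding) = cube.rk J := by
  show cubeRk (J.map (pm σ m).toEmbedding) = cubeRk J
  unfold cubeRk
  rw [Finset.card_map]

/-- The even base flag. -/
def q₀ : QFlag cube where
  i := 0
  E := {0, 1}
  G := {0, 1, 2, 3}
  hE := by decide +kernel
  hG := by decide +kernel
  rE := by decide +kernel
  rG := by decide +kernel
  iE := by decide
  EG := by decide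

/-- The odd base flag. -/
def q₁ : QFlag cube where
  i := 7
  E := {6, 7}
  G := {4, 5, 6, 7}
  hE := by decide +kernel
  hG := by decide +kernel
  rE := by decide +kernel
  rG := by decide +kernel
  iE := by decide
  EG := by decide

private theorem cubega_dec : ∀ e ∈ cubeM, rkm e = 1 → ∀ g ∈ cubeM, rkm g = 2 → e &&& g = e →
    ∀ i : Fin 8, e.testBit i.val = true → ∃ (σ : Equiv.Perm (Fin 3)) (m : Fin 8), par8 m = false ∧
      ((i = pmf σ m 0 ∧ e = cubega_im σ m 3 ∧ g = cubega_im σ m 15) ∨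
        (i = pmf σ m 7 ∧ e = cubega_im σ m 192 ∧ g = cubega_im σ m 240)) := by
  decide +kernel

private theorem cubega_base : ({0, 1} : Finset (Fin 8)) = toF 3 ∧
    ({0, 1, 2, 3} : Finset (Fin 8)) = toF 15 ∧ ({6, 7} : Finset (Fin 8)) = toF 192 ∧
    ({4, 5, 6, 7} : Finset (Fin 8)) = toF 240 := by
  decide +kernel

theorem flags_cube (q : QFlag cube) : ∃ (σ : Equiv.Perm (Fin 3)) (m : Fin 8), par8 m = false ∧
    ((q.i = pm σ m q₀.i ∧ q.E = q₀.E.map (pm σ m).toEmbedding ∧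
      q.G = q₀.G.map (pm σ m).toEmbedding) ∨
    (q.i = pm σ m q₁.i ∧ q.E = q₁.E.map (pm σ m).toEmbedding ∧
      q.G = q₁.G.map (pm σ m).toEmbedding)) := by
  obtain ⟨i, E, G, hE, hG, rE, rG, iE, EG⟩ := q
  obtain ⟨e, he, rfl⟩ := mem_cubeF.1 hE
  obtain ⟨g, hg, rfl⟩ := mem_cubeF.1 hG
  have h1 : e &&& g = e := (toF_sub (cubeM_lt he)).1 EG
  have h2 : e.testBit i.val = true := by
    have h3 : i ∈ toF e := iE
    unfold toF at h3
    exact (Finset.mem_filter.1 h3).2
  obtain ⟨b0, b1, b2, b3⟩ := cubega_base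
  obtain ⟨σ, m, hm, h⟩ := cubega_dec e he rE g hg rG h1 i h2
  refine ⟨σ, m, hm, ?_⟩
  have m1 : (3 : ℕ) ∈ cubeM := by decide
  have m2 : (15 : ℕ) ∈ cubeM := by decide
  have m3 : (192 : ℕ) ∈ cubeM := by decide
  have m4 : (240 : ℕ) ∈ cubeM := by decide
  rcases h with ⟨h3, h4, h5⟩ | ⟨h3, h4, h5⟩
  · refine Or.inl ⟨h3, ?_, ?_⟩
    · show toF e = ({0, 1} : Finset (Fin 8)).map (pm σ m).toEmbedding
      rw [b0, cubega_map σ m m1, ← h4]
    · show toF g = ({0, 1, 2, 3} : Finset (Fin 8)).map (pm σ m).toEmbedding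
      rw [b1, cubega_map σ m m2, ← h5]
  · refine Or.inr ⟨h3, ?_, ?_⟩
    · show toF e = ({6, 7} : Finset (Fin 8)).map (pm σ m).toEmbedding
      rw [b2, cubega_map σ m m3, ← h4]
    · show toF g = ({4, 5, 6, 7} : Finset (Fin 8)).map (pm σ m).toEmbedding
      rw [b3, cubega_map σ m m4, ← h5]

/-! ### the mirrors -/

/-- The sign of a digit. -/
noncomputable def sg (i : Fin 8) (k : Fin 3) : ℝ := if bt8 i k then -1 else 1

/-- The parameter of the mirror `i`. -/
noncomputable def cc (A B : ℝ) (i : Fin 8) : ℝ := if par8 i then B else A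

/-- The normal vectors. -/
noncomputable def nv (A B : ℝ) (i : Fin 8) : Fin 4 → ℝ :=
  Fin.cons (√((cc A B i - 1) / 2)) fun k => √((cc A B i + 1) / 6) * sg i k

theorem lor_eq (x y : Fin 4 → ℝ) : lor x y = x 0 * y 0 - ∑ k : Fin 3, x k.succ * y k.succ := by
  rw [Fin.sum_univ_three]
  change x 0 * y 0 - x 1 * y 1 - x 2 * y 2 - x 3 * y 3 =
    x 0 * y 0 - (x 1 * y 1 + x 2 * y 2 + x 3 * y 3)
  ring

theorem nv_lor (A B : ℝ) (i j : Fin 8) : lor (nv A B i) (nv A B j) =
    √((cc A B i - 1) / 2) * √((cc A B j - 1) / 2) -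
      √((cc A B i + 1) / 6) * √((cc A B j + 1) / 6) * ∑ k, sg i k * sg j k := by
  rw [lor_eq, Finset.mul_sum]
  congr 1
  refine Finset.sum_congr rfl fun k _ => ?_
  change √((cc A B i + 1) / 6) * sg i k * (√((cc A B j + 1) / 6) * sg j k) = _
  ring

private theorem cubegb_cc {A B : ℝ} (hA : 5 ≤ A) (hB : A < B) (i : Fin 8) : 5 ≤ cc A B i := by
  unfold cc
  split_ifs
  · linarith
  · exact hA

/-- The sign of a digit as an integer. -/
private def cubegb_sz (i : Fin 8) (k : Fin 3) : ℤ := if bt8 i k then -1 else 1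

private theorem cubegb_sg (i : Fin 8) (k : Fin 3) : sg i k = ((cubegb_sz i k : ℤ) : ℝ) := by
  unfold sg cubegb_sz
  split_ifs
  · push_cast
    rfl
  · push_cast
    rfl

private theorem cubegb_dot (i j : Fin 8) :
    ∑ k, sg i k * sg j k = ((∑ k, cubegb_sz i k * cubegb_sz j k : ℤ) : ℝ) := by
  push_cast
  exact Finset.sum_congr rfl fun k _ => by rw [cubegb_sg, cubegb_sg]

private theorem cubegb_z1 : ∀ i : Fin 8, ∑ k, cubegb_sz i k * cubegb_sz i k = 3 := by
  decide +kernel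

private theorem cubegb_z2 : ∀ i j : Fin 8, i ≠ j → ∑ k, cubegb_sz i k * cubegb_sz j k ≤ 1 := by
  decide +kernel

private theorem cubegb_z3 : ∀ i j : Fin 8, i ≠ j → par8 i = par8 j →
    ∑ k, cubegb_sz i k * cubegb_sz j k = -1 := by
  decide +kernel

theorem nv_unit {A B : ℝ} (hA : 5 ≤ A) (hB : A < B) (i : Fin 8) :
    lor (nv A B i) (nv A B i) = -1 := by
  have hc := cubegb_cc hA hB i
  rw [nv_lor, cubegb_dot, cubegb_z1, Real.mul_self_sqrt (by linarith),
    Real.mul_self_sqrt (by linarith)]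
  push_cast
  ring

theorem nv_pos {A B : ℝ} (hA : 5 ≤ A) (hB : A < B) (i : Fin 8) : 0 < nv A B i 0 := by
  have hc := cubegb_cc hA hB i
  change 0 < √((cc A B i - 1) / 2)
  exact Real.sqrt_pos.2 (by linarith)

theorem num_sep {A B : ℝ} (hA : 5 ≤ A) (hB : A < B) :
    1 < √((A - 1) / 2) * √((B - 1) / 2) - √((A + 1) / 6) * √((B + 1) / 6) := by
  obtain ⟨p, hp⟩ : ∃ p : ℝ, p = √((A - 1) / 2) * √((B - 1) / 2) := ⟨_, rfl⟩
  obtain ⟨q, hq⟩ : ∃ q : ℝ, q = √((A + 1) / 6) * √((B + 1) / 6) := ⟨_, rfl⟩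
  have hp0 : 0 ≤ p := by
    rw [hp]
    positivity
  have hq0 : 0 ≤ q := by
    rw [hq]
    positivity
  have hp2 : p ^ 2 = (A - 1) / 2 * ((B - 1) / 2) := by
    rw [hp, mul_pow, Real.sq_sqrt (by linarith), Real.sq_sqrt (by linarith)]
  have hq2 : q ^ 2 = (A + 1) / 6 * ((B + 1) / 6) := by
    rw [hq, mul_pow, Real.sq_sqrt (by linarith), Real.sq_sqrt (by linarith)]
  rw [← hp, ← hq]
  have h1 : 0 ≤ (A - 5) * (B - 5) := mul_nonneg (by linarith) (by linarith)
  have h2 : 4 < p ^ 2 := by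
    rw [hp2]
    nlinarith
  have h3 : 2 < p := by
    by_contra hcon
    push Not at hcon
    nlinarith
  have h4 : 9 * q ^ 2 ≤ 3 / 2 * p ^ 2 + 3 := by
    rw [hp2, hq2]
    nlinarith
  have h5 : 0 < (5 * p - 2) * (p - 2) := mul_pos (by linarith) (by linarith)
  have h6 : q ^ 2 < (p - 1) ^ 2 := by nlinarith
  have h7 : q < p - 1 := lt_of_pow_lt_pow_left₀ 2 (by linarith) h6
  linarith

theorem nv_sep {A B : ℝ} (hA : 5 ≤ A) (hB : A < B) (i j : Fin 8) (hij : i ≠ j) :
    1 < lor (nv A B i) (nv A B j) := by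
  rw [nv_lor, cubegb_dot]
  by_cases h : par8 i = par8 j
  · have hc := cubegb_cc hA hB i
    have hcc : cc A B j = cc A B i := by
      unfold cc
      rw [h]
    rw [hcc, cubegb_z3 i j hij h, Real.mul_self_sqrt (by linarith),
      Real.mul_self_sqrt (by linarith)]
    push_cast
    linarith
  · have h1 := num_sep hA hB
    have h2 : ((∑ k, cubegb_sz i k * cubegb_sz j k : ℤ) : ℝ) ≤ 1 := by
      exact_mod_cast cubegb_z2 i j hij
    have key : ∀ P R D : ℝ, 0 ≤ R → D ≤ 1 → 1 < P - R → 1 < P - R * D := by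
      intro P R D hR hD hP
      have h3 : R * D ≤ R * 1 := mul_le_mul_of_nonneg_left hD hR
      linarith
    refine key _ _ _ (by positivity) h2 ?_
    rcases hi : par8 i with _ | _
    · rcases hj : par8 j with _ | _
      · exact absurd (hi.trans hj.symm) h
      · have e1 : cc A B i = A := by
          unfold cc
          rw [hi]
          rfl
        have e2 : cc A B j = B := by
          unfold cc
          rw [hj]
          rfl
        rw [e1, e2]
        exact h1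
    · rcases hj : par8 j with _ | _
      · have e1 : cc A B i = B := by
          unfold cc
          rw [hi]
          rfl
        have e2 : cc A B j = A := by
          unfold cc
          rw [hj]
          rfl
        rw [e1, e2, mul_comm (√((B - 1) / 2)), mul_comm (√((B + 1) / 6))]
        exact h1
      · exact absurd (hi.trans hj.symm) h

/-- The mirrors. -/
noncomputable def MM {A B : ℝ} (hA : 5 ≤ A) (hB : A < B) : Mir (Fin 8) where
  n := nv A B
  unit := nv_unit hA hB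
  pos := nv_pos hA hB
  sep := nv_sep hA hB

theorem nv_hdist {A B : ℝ} (hA : 5 ≤ A) (hB : A < B) (i : Fin 8) :
    hdist o ((MM hA hB).r i o) = Real.arcosh (cc A B i) := by
  have hc := cubegb_cc hA hB i
  have h1 : lor o.1 (nv A B i) = nv A B i 0 := by
    unfold o lor
    simp
  have h2 : ((MM hA hB).r i o).1 = o.1 + (2 * lor o.1 (nv A B i)) • nv A B i := rfl
  have h3 : nv A B i 0 = √((cc A B i - 1) / 2) := rfl
  unfold hdist
  rw [h2, lor_add_right, lor_smul_right, lor_self, h1, mul_assoc, h3,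
    Real.mul_self_sqrt (by linarith)]
  congr 1
  ring

/-! ### the symmetries -/

/-- The signed permutation of the coordinates `1, 2, 3`. -/
noncomputable def sp (σ : Equiv.Perm (Fin 3)) (m : Fin 8) (x : Fin 4 → ℝ) : Fin 4 → ℝ :=
  Fin.cons (x 0) fun k => sg m k * x (σ.symm k).succ

private theorem cubegc_zero (σ : Equiv.Perm (Fin 3)) (m : Fin 8) (x : Fin 4 → ℝ) :
    sp σ m x 0 = x 0 := rfl

private theorem cubegc_succ (σ : Equiv.Perm (Fin 3)) (m : Fin 8) (x : Fin 4 → ℝ) (k : Fin 3) :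
    sp σ m x k.succ = sg m k * x (σ.symm k).succ := rfl

private theorem cubegc_sg (m : Fin 8) (k : Fin 3) : sg m k * sg m k = 1 := by
  unfold sg
  split_ifs <;> norm_num

private theorem cubegc_xor (σ : Equiv.Perm (Fin 3)) (m i : Fin 8) (k : Fin 3) :
    sg (pmf σ m i) k = sg m k * sg i (σ.symm k) := by
  unfold sg
  rw [pmf_bit]
  cases bt8 m k <;> cases bt8 i (σ.symm k) <;> norm_num

theorem sp_lor (σ : Equiv.Perm (Fin 3)) (m : Fin 8) (x y : Fin 4 → ℝ) :
    lor (sp σ m x) (sp σ m y) = lor x y := by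
  rw [lor_eq, lor_eq x y, cubegc_zero, cubegc_zero,
    ← Equiv.sum_comp σ.symm (fun k : Fin 3 => x k.succ * y k.succ)]
  refine congrArg (fun t => x 0 * y 0 - t) (Finset.sum_congr rfl fun k _ => ?_)
  rw [cubegc_succ, cubegc_succ]
  have h := cubegc_sg m k
  linear_combination (x (σ.symm k).succ * y (σ.symm k).succ) * h

private theorem cubegc_lin (σ : Equiv.Perm (Fin 3)) (m : Fin 8) (c : ℝ) (x y : Fin 4 → ℝ) :
    sp σ m (x + c • y) = sp σ m x + c • sp σ m y := by
  funext j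
  refine Fin.cases ?_ (fun k => ?_) j
  · rfl
  · rw [cubegc_succ, Pi.add_apply, Pi.add_apply, Pi.smul_apply, Pi.smul_apply, cubegc_succ,
      cubegc_succ, smul_eq_mul, smul_eq_mul]
    ring

/-- The inverse of `sp σ m`. -/
private noncomputable def cubegc_si (σ : Equiv.Perm (Fin 3)) (m : Fin 8) (y : Fin 4 → ℝ) :
    Fin 4 → ℝ :=
  Fin.cons (y 0) fun j => sg m (σ j) * y (σ j).succ

private theorem cubegc_si_sp (σ : Equiv.Perm (Fin 3)) (m : Fin 8) (x : Fin 4 → ℝ) :
    cubegc_si σ m (sp σ m x) = x := by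
  funext j
  refine Fin.cases ?_ (fun k => ?_) j
  · rfl
  · show sg m (σ k) * (sg m (σ k) * x (σ.symm (σ k)).succ) = x k.succ
    rw [Equiv.symm_apply_apply, ← mul_assoc, cubegc_sg, one_mul]

private theorem cubegc_sp_si (σ : Equiv.Perm (Fin 3)) (m : Fin 8) (x : Fin 4 → ℝ) :
    sp σ m (cubegc_si σ m x) = x := by
  funext j
  refine Fin.cases ?_ (fun k => ?_) j
  · rfl
  · show sg m k * (sg m (σ (σ.symm k)) * x (σ (σ.symm k)).succ) = x k.succ
    rw [Equiv.apply_symm_apply, ← mul_assoc, cubegc_sg, one_mul]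

theorem exists_spe (σ : Equiv.Perm (Fin 3)) (m : Fin 8) :
    ∃ a : Equiv.Perm H3, ∀ x : H3, (a x).1 = sp σ m x.1 := by
  have h1 : ∀ x : H3, lor (sp σ m x.1) (sp σ m x.1) = 1 ∧ 0 < sp σ m x.1 0 := fun x =>
    ⟨by rw [sp_lor, lor_self], x.2.2⟩
  have h2 : ∀ x : H3, lor (cubegc_si σ m x.1) (cubegc_si σ m x.1) = 1 ∧
      0 < cubegc_si σ m x.1 0 := fun x =>
    ⟨by rw [← sp_lor σ m, cubegc_sp_si, lor_self], x.2.2⟩
  exact ⟨⟨fun x => ⟨_, h1 x⟩, fun x => ⟨_, h2 x⟩, fun x => H3.ext (cubegc_si_sp σ m x.1),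
    fun x => H3.ext (cubegc_sp_si σ m x.1)⟩, fun x => rfl⟩

theorem sp_nv {A B : ℝ} (σ : Equiv.Perm (Fin 3)) (m : Fin 8) (hm : par8 m = false) (i : Fin 8) :
    sp σ m (nv A B i) = nv A B (pm σ m i) := by
  have h0 : cc A B (pm σ m i) = cc A B i := by
    unfold cc
    rw [pm_apply, pmf_par σ m i hm]
  funext j
  refine Fin.cases ?_ (fun k => ?_) j
  · show √((cc A B i - 1) / 2) = √((cc A B (pm σ m i) - 1) / 2)
    rw [h0]
  · show sg m k * (√((cc A B i + 1) / 6) * sg i (σ.symm k)) =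
      √((cc A B (pm σ m i) + 1) / 6) * sg (pm σ m i) k
    rw [h0, pm_apply, cubegc_xor]
    ring

theorem nrm_cube {A B : ℝ} (hA : 5 ≤ A) (hB : A < B) (σ : Equiv.Perm (Fin 3)) (m : Fin 8)
    (hm : par8 m = false) : ∃ a, Nrm (MM hA hB) cube a (pm σ m) := by
  obtain ⟨a, ha⟩ := exists_spe σ m
  refine ⟨a, ?_, ?_, ?_, pm_mem σ m, pm_rk σ m⟩
  · refine (isIsom_iff a).2 fun x y => ?_
    rw [ha, ha, sp_lor]
  · refine H3.ext ?_
    rw [ha]
    funext j
    refine Fin.cases ?_ (fun k => ?_) j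
    · rfl
    · rw [cubegc_succ]
      have h1 : ∀ k : Fin 3, o.1 k.succ = 0 := by
        intro k
        fin_cases k <;> rfl
      rw [h1, h1, mul_zero]
  · intro i
    have h1 : a * (MM hA hB).r i = (MM hA hB).r (pm σ m i) * a := by
      refine Equiv.ext fun x => H3.ext ?_
      show (a ((MM hA hB).r i x)).1 = rv (nv A B (pm σ m i)) (a x).1
      rw [ha, ha]
      show sp σ m (rv (nv A B i) x.1) = _
      unfold rv
      rw [cubegc_lin, ← sp_nv σ m hm i, sp_lor]
    rw [h1, mul_inv_cancel_right]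

end Pool.Agent.Lib.MP_eed79e_coW
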