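import Mathlib

/-!
# MP_eed79e_co: geometric 4-polytopes in hyperbolic 3-space (definitions)

* `H3`: hyperbolic 3-space (upper sheet of the hyperboloid), `hdist` its distance, `IsIsom g`: `g` is an isometry.
* `AbsPoly n P`: an abstract `n`-polytope on the poset `P`.
* `rep1`, `rep2`, `rep3`: the representatives of the edges, 2-faces and facets under a map `β` of the vertices
  to `H3`; `Faithful`: distinct faces have distinct representatives; `img`: the vertices, edges, 2-faces and
  facets of the image.
* `IsImg K`: `K` is the image of a faithful realization; `IsGeom4 K`: moreover the vertex set is discrete.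
* `IsSym K g`: `g` is a symmetry of `K`; `Fl`, `IsFl K Φ`: flags of `K`; `Eqv K`: equivalence of flags under
  the symmetry group; `TwoOrbit K`, `AtMostTwo K`: the symmetry group has exactly two (at most two) orbits on
  the flags.
* `Cong K K'`: an isometry maps `K` onto `K'`; `lens K`: the set of the lengths of the edges.
-/

set_option autoImplicit false

namespace Pool.Agent.Lib.MP_eed79e_coW

/-! ## Hyperbolic 3-space -/

/-- The Lorentz form of signature `(1, 3)` on `ℝ⁴`. -/
def lor (x y : Fin 4 → ℝ) : ℝ := x 0 * y 0 - x 1 * y 1 - x 2 * y 2 - x 3 * y 3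

/-- Hyperbolic 3-space: the upper sheet of the hyperboloid `lor x x = 1`. -/
def H3 : Type := {x : Fin 4 → ℝ // lor x x = 1 ∧ 0 < x 0}

/-- The hyperbolic distance: `cosh (hdist x y) = lor x y`. -/
noncomputable def hdist (x y : H3) : ℝ := Real.arcosh (lor x.1 y.1)

/-- The isometries of `H3`: the distance preserving bijections. -/
def IsIsom (g : Equiv.Perm H3) : Prop := ∀ x y, hdist (g x) (g y) = hdist x y

/-- `S` is discrete: every ball of `H3` contains only finitely many points of `S`. -/
def Disc (S : Set H3) : Prop := ∀ (x : H3) (R : ℝ), {y | y ∈ S ∧ hdist x y ≤ R}.Finite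

/-! ## Abstract polytopes -/

/-- An abstract `n`-polytope: a poset with a strictly monotone rank function onto `{-1, 0, ..., n}`, a least
face of rank `-1` and a greatest face of rank `n`, such that all flags (maximal chains) have `n + 2` elements,
the diamond condition holds, and all sections of rank at least `2` are connected. -/
structure AbsPoly (n : ℕ) (P : Type) [PartialOrder P] where
  rank : P → ℤ
  rank_mono : StrictMono rank
  range_rank : Set.range rank = Set.Icc (-1) (n : ℤ)
  bot : P
  bot_le : ∀ x, bot ≤ x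
  rank_bot : rank bot = -1
  top : P
  le_top : ∀ x, x ≤ top
  rank_top : rank top = n
  flag : ∀ s : Set P, IsMaxChain (· ≤ ·) s → s.encard = n + 2
  diamond : ∀ x y, x < y → rank y - rank x = 2 → {z | x < z ∧ z < y}.encard = 2
  conn : ∀ x y, x < y → 3 ≤ rank y - rank x → ∀ a b, x < a → a < y → x < b → b < y →
    Relation.ReflTransGen (fun s t => (x < t ∧ t < y) ∧ (s ≤ t ∨ t ≤ s)) a b

/-! ## Realizations -/

section

variable {P : Type} [PartialOrder P] (A : AbsPoly 4 P) (β : P → H3)

/-- The representative of an edge `e`: the set of the images of its vertices. (Only the values of `β` at the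
vertices are used.) -/
def rep1 (e : P) : Set H3 := {x | ∃ v, A.rank v = 0 ∧ v ≤ e ∧ β v = x}

/-- The representative of a 2-face: the set of the representatives of its edges. -/
def rep2 (f : P) : Set (Set H3) := {x | ∃ e, A.rank e = 1 ∧ e ≤ f ∧ rep1 A β e = x}

/-- The representative of a facet: the set of the representatives of its 2-faces. -/
def rep3 (c : P) : Set (Set (Set H3)) := {x | ∃ f, A.rank f = 2 ∧ f ≤ c ∧ rep2 A β f = x}

/-- Distinct faces have distinct representatives. -/
structure Faithful : Prop where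
  f0 : ∀ x y, A.rank x = 0 → A.rank y = 0 → β x = β y → x = y
  f1 : ∀ x y, A.rank x = 1 → A.rank y = 1 → rep1 A β x = rep1 A β y → x = y
  f2 : ∀ x y, A.rank x = 2 → A.rank y = 2 → rep2 A β x = rep2 A β y → x = y
  f3 : ∀ x y, A.rank x = 3 → A.rank y = 3 → rep3 A β x = rep3 A β y → x = y

end

/-- The sets of the vertices, edges, 2-faces and facets (representatives) of a geometric 4-polytope. -/
@[ext] structure Geo where
  V : Set H3
  E : Set (Set H3)
  F : Set (Set (Set H3))
  C : Set (Set (Set (Set H3)))

/-- The image of the realization `β`. -/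
def img {P : Type} [PartialOrder P] (A : AbsPoly 4 P) (β : P → H3) : Geo where
  V := {x | ∃ v, A.rank v = 0 ∧ β v = x}
  E := {x | ∃ e, A.rank e = 1 ∧ rep1 A β e = x}
  F := {x | ∃ f, A.rank f = 2 ∧ rep2 A β f = x}
  C := {x | ∃ c, A.rank c = 3 ∧ rep3 A β c = x}

/-- `K` is the image of a faithful (not necessarily discrete) realization of an abstract 4-polytope. -/
def IsImg (K : Geo) : Prop :=
  ∃ (P : Type) (_ : PartialOrder P) (A : AbsPoly 4 P) (β : P → H3), Faithful A β ∧ K = img A β

/-- `K` is a geometric 4-polytope in `H3`. -/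
def IsGeom4 (K : Geo) : Prop := IsImg K ∧ Disc K.V

/-! ## Symmetries and flags -/

/-- The action of `g` on sets of points. -/
def m1 (g : Equiv.Perm H3) : Set H3 → Set H3 := Set.image g

/-- The action of `g` on sets of sets of points. -/
def m2 (g : Equiv.Perm H3) : Set (Set H3) → Set (Set H3) := Set.image (m1 g)

/-- The action of `g` on sets of sets of sets of points. -/
def m3 (g : Equiv.Perm H3) : Set (Set (Set H3)) → Set (Set (Set H3)) := Set.image (m2 g)

/-- The action of `g` on sets of sets of sets of sets of points. -/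
def m4 (g : Equiv.Perm H3) : Set (Set (Set (Set H3))) → Set (Set (Set (Set H3))) := Set.image (m3 g)

/-- The image of `K` under `g`. -/
def Geo.map (g : Equiv.Perm H3) (K : Geo) : Geo := ⟨m1 g K.V, m2 g K.E, m3 g K.F, m4 g K.C⟩

/-- `g` is a symmetry of `K`: an isometry which maps `K` to itself. -/
def IsSym (K : Geo) (g : Equiv.Perm H3) : Prop := IsIsom g ∧ K.map g = K

/-- Candidates for flags: a point, a set of points, ... -/
@[ext] structure Fl where
  v : H3
  e : Set H3
  f : Set (Set H3)
  c : Set (Set (Set H3))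

/-- `Φ` is a flag of `K`: a vertex, an edge containing it, a 2-face containing the edge, a facet containing
the 2-face. -/
structure IsFl (K : Geo) (Φ : Fl) : Prop where
  hv : Φ.v ∈ K.V
  he : Φ.e ∈ K.E
  hf : Φ.f ∈ K.F
  hc : Φ.c ∈ K.C
  ve : Φ.v ∈ Φ.e
  ef : Φ.e ∈ Φ.f
  fc : Φ.f ∈ Φ.c

/-- The image of a flag under `g`. -/
def Fl.map (g : Equiv.Perm H3) (Φ : Fl) : Fl := ⟨g Φ.v, m1 g Φ.e, m2 g Φ.f, m3 g Φ.c⟩

/-- Equivalence of flags under the symmetry group of `K`. -/
def Eqv (K : Geo) (Φ Ψ : Fl) : Prop := ∃ g, IsSym K g ∧ Φ.map g = Ψ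

/-- The symmetry group of `K` has exactly two orbits on the flags of `K`. -/
def TwoOrbit (K : Geo) : Prop :=
  ∃ Φ Ψ, IsFl K Φ ∧ IsFl K Ψ ∧ ¬ Eqv K Φ Ψ ∧ ∀ X, IsFl K X → Eqv K Φ X ∨ Eqv K Ψ X

/-- The symmetry group of `K` has one or two orbits on the flags of `K`. -/
def AtMostTwo (K : Geo) : Prop :=
  ∃ Φ Ψ, IsFl K Φ ∧ IsFl K Ψ ∧ ∀ X, IsFl K X → Eqv K Φ X ∨ Eqv K Ψ X

/-- An isometry maps `K` onto `K'`. -/
def Cong (K K' : Geo) : Prop := ∃ g, IsIsom g ∧ K.map g = K'

/-- The set of the lengths of the edges of `K`. -/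
def lens (K : Geo) : Set ℝ := {d | ∃ e ∈ K.E, ∃ x ∈ e, ∃ y ∈ e, x ≠ y ∧ hdist x y = d}

end Pool.Agent.Lib.MP_eed79e_coW
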