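import Pool.Agent.Lib.MP_eed79e_coW.Hyp

/-!
# Group properties of symmetries (complete file)
-/

set_option autoImplicit false

namespace Pool.Agent.Lib.MP_eed79e_coW

theorem m1_one (s : Set H3) : m1 1 s = s := by
  unfold m1
  exact Set.image_id s

theorem m2_one (s : Set (Set H3)) : m2 1 s = s := by
  unfold m2
  have h : m1 1 = id := funext m1_one
  rw [h, Set.image_id]

theorem m3_one (s : Set (Set (Set H3))) : m3 1 s = s := by
  unfold m3
  have h : m2 1 = id := funext m2_one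
  rw [h, Set.image_id]

theorem m4_one (s : Set (Set (Set (Set H3)))) : m4 1 s = s := by
  unfold m4
  have h : m3 1 = id := funext m3_one
  rw [h, Set.image_id]

theorem m1_mul (g h : Equiv.Perm H3) (s : Set H3) : m1 (g * h) s = m1 g (m1 h s) := by
  unfold m1
  rw [← Set.image_comp]
  rfl

theorem m2_mul (g h : Equiv.Perm H3) (s : Set (Set H3)) : m2 (g * h) s = m2 g (m2 h s) := by
  unfold m2
  rw [← Set.image_comp]
  exact congrArg (fun f => f '' s) (funext (m1_mul g h))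

theorem m3_mul (g h : Equiv.Perm H3) (s : Set (Set (Set H3))) :
    m3 (g * h) s = m3 g (m3 h s) := by
  unfold m3
  rw [← Set.image_comp]
  exact congrArg (fun f => f '' s) (funext (m2_mul g h))

theorem m4_mul (g h : Equiv.Perm H3) (s : Set (Set (Set (Set H3)))) :
    m4 (g * h) s = m4 g (m4 h s) := by
  unfold m4
  rw [← Set.image_comp]
  exact congrArg (fun f => f '' s) (funext (m3_mul g h))

theorem m1_inj (g : Equiv.Perm H3) : Function.Injective (m1 g) := by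
  intro s t h
  have h1 := congrArg (m1 g⁻¹) h
  rwa [← m1_mul, ← m1_mul, inv_mul_cancel, m1_one, m1_one] at h1

theorem m2_inj (g : Equiv.Perm H3) : Function.Injective (m2 g) := by
  intro s t h
  have h1 := congrArg (m2 g⁻¹) h
  rwa [← m2_mul, ← m2_mul, inv_mul_cancel, m2_one, m2_one] at h1

theorem m3_inj (g : Equiv.Perm H3) : Function.Injective (m3 g) := by
  intro s t h
  have h1 := congrArg (m3 g⁻¹) h
  rwa [← m3_mul, ← m3_mul, inv_mul_cancel, m3_one, m3_one] at h1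

theorem mem_m1 (g : Equiv.Perm H3) {x : H3} {s : Set H3} : g x ∈ m1 g s ↔ x ∈ s :=
  g.injective.mem_set_image

theorem mem_m2 (g : Equiv.Perm H3) {x : Set H3} {s : Set (Set H3)} : m1 g x ∈ m2 g s ↔ x ∈ s :=
  (m1_inj g).mem_set_image

theorem mem_m3 (g : Equiv.Perm H3) {x : Set (Set H3)} {s : Set (Set (Set H3))} :
    m2 g x ∈ m3 g s ↔ x ∈ s :=
  (m2_inj g).mem_set_image

theorem mem_m4 (g : Equiv.Perm H3) {x : Set (Set (Set H3))} {s : Set (Set (Set (Set H3)))} :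
    m3 g x ∈ m4 g s ↔ x ∈ s :=
  (m3_inj g).mem_set_image

theorem Geo.map_one (K : Geo) : K.map 1 = K := by
  unfold Geo.map
  rw [m1_one, m2_one, m3_one, m4_one]

theorem Geo.map_mul (g h : Equiv.Perm H3) (K : Geo) : K.map (g * h) = (K.map h).map g := by
  unfold Geo.map
  rw [m1_mul, m2_mul, m3_mul, m4_mul]

theorem Fl.map_one (Φ : Fl) : Φ.map 1 = Φ := by
  unfold Fl.map
  rw [m1_one, m2_one, m3_one]
  rfl

theorem Fl.map_mul (g h : Equiv.Perm H3) (Φ : Fl) : Φ.map (g * h) = (Φ.map h).map g := by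
  unfold Fl.map
  rw [m1_mul, m2_mul, m3_mul]
  rfl

theorem isSym_one (K : Geo) : IsSym K 1 := ⟨isIsom_one, K.map_one⟩

theorem IsSym.mul {K : Geo} {g h : Equiv.Perm H3} (hg : IsSym K g) (hh : IsSym K h) :
    IsSym K (g * h) :=
  ⟨hg.1.mul hh.1, by rw [Geo.map_mul, hh.2, hg.2]⟩

theorem IsSym.inv {K : Geo} {g : Equiv.Perm H3} (hg : IsSym K g) : IsSym K g⁻¹ := by
  refine ⟨hg.1.inv, ?_⟩
  have h1 : (K.map g).map g⁻¹ = K := by
    rw [← Geo.map_mul, inv_mul_cancel, Geo.map_one]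
  rwa [hg.2] at h1

theorem IsSym.memV {K : Geo} {g : Equiv.Perm H3} (hg : IsSym K g) {x : H3} :
    g x ∈ K.V ↔ x ∈ K.V := by
  have h1 : K.V = m1 g K.V := (congrArg Geo.V hg.2).symm
  rw [h1, mem_m1, ← h1]

theorem IsSym.memE {K : Geo} {g : Equiv.Perm H3} (hg : IsSym K g) {x : Set H3} :
    m1 g x ∈ K.E ↔ x ∈ K.E := by
  have h1 : K.E = m2 g K.E := (congrArg Geo.E hg.2).symm
  rw [h1, mem_m2, ← h1]

theorem IsSym.memF {K : Geo} {g : Equiv.Perm H3} (hg : IsSym K g) {x : Set (Set H3)} :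
    m2 g x ∈ K.F ↔ x ∈ K.F := by
  have h1 : K.F = m3 g K.F := (congrArg Geo.F hg.2).symm
  rw [h1, mem_m3, ← h1]

theorem IsSym.memC {K : Geo} {g : Equiv.Perm H3} (hg : IsSym K g) {x : Set (Set (Set H3))} :
    m3 g x ∈ K.C ↔ x ∈ K.C := by
  have h1 : K.C = m4 g K.C := (congrArg Geo.C hg.2).symm
  rw [h1, mem_m4, ← h1]

theorem IsSym.isFl {K : Geo} {g : Equiv.Perm H3} (hg : IsSym K g) {Φ : Fl} (h : IsFl K Φ) :
    IsFl K (Φ.map g) where
  hv := hg.memV.2 h.hv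
  he := hg.memE.2 h.he
  hf := hg.memF.2 h.hf
  hc := hg.memC.2 h.hc
  ve := (mem_m1 g).2 h.ve
  ef := (mem_m2 g).2 h.ef
  fc := (mem_m3 g).2 h.fc

theorem Eqv.refl (K : Geo) (Φ : Fl) : Eqv K Φ Φ := ⟨1, isSym_one K, Φ.map_one⟩

theorem Eqv.symm {K : Geo} {Φ Ψ : Fl} (h : Eqv K Φ Ψ) : Eqv K Ψ Φ := by
  obtain ⟨g, hg, rfl⟩ := h
  exact ⟨g⁻¹, hg.inv, by rw [← Fl.map_mul, inv_mul_cancel, Fl.map_one]⟩

theorem Eqv.trans {K : Geo} {Φ Ψ X : Fl} (h : Eqv K Φ Ψ) (h' : Eqv K Ψ X) : Eqv K Φ X := by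
  obtain ⟨g, hg, rfl⟩ := h
  obtain ⟨g', hg', rfl⟩ := h'
  exact ⟨g' * g, hg'.mul hg, by rw [Fl.map_mul]⟩

end Pool.Agent.Lib.MP_eed79e_coW
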