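import Pool.Agent.Lib.MP_eed79e_coW.Defs

/-!
# Basic geometry of the hyperboloid model (complete file)
-/

set_option autoImplicit false

namespace Pool.Agent.Lib.MP_eed79e_coW

theorem lor_comm (x y : Fin 4 → ℝ) : lor x y = lor y x := by
  unfold lor
  ring

theorem lor_add_left (x y z : Fin 4 → ℝ) : lor (x + y) z = lor x z + lor y z := by
  unfold lor
  simp only [Pi.add_apply]
  ring

theorem lor_add_right (x y z : Fin 4 → ℝ) : lor x (y + z) = lor x y + lor x z := by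
  unfold lor
  simp only [Pi.add_apply]
  ring

theorem lor_sub_left (x y z : Fin 4 → ℝ) : lor (x - y) z = lor x z - lor y z := by
  unfold lor
  simp only [Pi.sub_apply]
  ring

theorem lor_sub_right (x y z : Fin 4 → ℝ) : lor x (y - z) = lor x y - lor x z := by
  unfold lor
  simp only [Pi.sub_apply]
  ring

theorem lor_smul_left (a : ℝ) (x y : Fin 4 → ℝ) : lor (a • x) y = a * lor x y := by
  unfold lor
  simp only [Pi.smul_apply, smul_eq_mul]
  ring

theorem lor_smul_right (a : ℝ) (x y : Fin 4 → ℝ) : lor x (a • y) = a * lor x y := by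
  unfold lor
  simp only [Pi.smul_apply, smul_eq_mul]
  ring

theorem lor_zero_left (x : Fin 4 → ℝ) : lor 0 x = 0 := by
  unfold lor
  simp

theorem lor_zero_right (x : Fin 4 → ℝ) : lor x 0 = 0 := by
  unfold lor
  simp

theorem lor_self (x : H3) : lor x.1 x.1 = 1 := x.2.1

theorem H3.ext {x y : H3} (h : x.1 = y.1) : x = y := Subtype.ext h

/-- The orthogonal complement of a point of `H3` is negative definite. -/
theorem eq_zero_of_orth (v : H3) (u : Fin 4 → ℝ) (h1 : lor u v.1 = 0) (h2 : 0 ≤ lor u u) :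
    u = 0 := by
  obtain ⟨v, hv, hv0⟩ := v
  unfold lor at h1 h2 hv
  simp only at h1
  have hS : u 1 * u 1 + u 2 * u 2 + u 3 * u 3 ≤ 0 := by
    have e1 : 0 ≤ (u 0 * u 0 - u 1 * u 1 - u 2 * u 2 - u 3 * u 3) * (v 0 * v 0) :=
      mul_nonneg h2 (mul_self_nonneg _)
    have e2 : (u 0 * v 0) * (u 0 * v 0) = (u 1 * v 1 + u 2 * v 2 + u 3 * v 3) *
        (u 1 * v 1 + u 2 * v 2 + u 3 * v 3) := by
      have : u 0 * v 0 = u 1 * v 1 + u 2 * v 2 + u 3 * v 3 := by linarith
      rw [this]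
    have e3 : v 0 * v 0 = 1 + v 1 * v 1 + v 2 * v 2 + v 3 * v 3 := by linarith
    have e4 : (u 0 * u 0) * (v 0 * v 0) = (u 1 * v 1 + u 2 * v 2 + u 3 * v 3) *
        (u 1 * v 1 + u 2 * v 2 + u 3 * v 3) := by
      rw [← e2]
      ring
    have e5 : (u 0 * u 0 - u 1 * u 1 - u 2 * u 2 - u 3 * u 3) * (v 0 * v 0) =
        (u 0 * u 0) * (v 0 * v 0) - (u 1 * u 1 + u 2 * u 2 + u 3 * u 3) *
          (1 + v 1 * v 1 + v 2 * v 2 + v 3 * v 3) := by
      rw [← e3]
      ring
    rw [e5, e4] at e1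
    nlinarith [mul_self_nonneg (u 1 * v 2 - u 2 * v 1), mul_self_nonneg (u 1 * v 3 - u 3 * v 1),
      mul_self_nonneg (u 2 * v 3 - u 3 * v 2)]
  have h1' : u 1 = 0 := by
    nlinarith [mul_self_nonneg (u 1), mul_self_nonneg (u 2), mul_self_nonneg (u 3)]
  have h2' : u 2 = 0 := by
    nlinarith [mul_self_nonneg (u 1), mul_self_nonneg (u 2), mul_self_nonneg (u 3)]
  have h3' : u 3 = 0 := by
    nlinarith [mul_self_nonneg (u 1), mul_self_nonneg (u 2), mul_self_nonneg (u 3)]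
  have h0' : u 0 = 0 := by
    rw [h1', h2', h3'] at h1
    have : u 0 * v 0 = 0 := by linarith
    rcases mul_eq_zero.1 this with h | h
    · exact h
    · exact absurd h hv0.ne'
  funext i
  fin_cases i
  · exact h0'
  · exact h1'
  · exact h2'
  · exact h3'

theorem lor_pos (x y : H3) : 0 < lor x.1 y.1 := by
  obtain ⟨x, hx, hx0⟩ := x
  obtain ⟨y, hy, hy0⟩ := y
  unfold lor at hx hy ⊢
  simp only
  by_contra hcon
  push Not at hcon
  have h1 : x 0 * y 0 ≤ x 1 * y 1 + x 2 * y 2 + x 3 * y 3 := by linarith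
  have h2 : 0 < x 0 * y 0 := mul_pos hx0 hy0
  have h3 : (x 0 * y 0) * (x 0 * y 0) ≤ (x 1 * y 1 + x 2 * y 2 + x 3 * y 3) *
      (x 1 * y 1 + x 2 * y 2 + x 3 * y 3) := mul_self_le_mul_self h2.le h1
  have e1 : x 0 * x 0 = 1 + x 1 * x 1 + x 2 * x 2 + x 3 * x 3 := by linarith
  have e2 : y 0 * y 0 = 1 + y 1 * y 1 + y 2 * y 2 + y 3 * y 3 := by linarith
  have e3 : (x 0 * y 0) * (x 0 * y 0) = (1 + x 1 * x 1 + x 2 * x 2 + x 3 * x 3) *
      (1 + y 1 * y 1 + y 2 * y 2 + y 3 * y 3) := by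
    rw [← e1, ← e2]
    ring
  rw [e3] at h3
  nlinarith [mul_self_nonneg (x 1 * y 2 - x 2 * y 1), mul_self_nonneg (x 1 * y 3 - x 3 * y 1),
    mul_self_nonneg (x 2 * y 3 - x 3 * y 2), mul_self_nonneg (x 1), mul_self_nonneg (x 2),
    mul_self_nonneg (x 3), mul_self_nonneg (y 1), mul_self_nonneg (y 2), mul_self_nonneg (y 3)]

theorem one_le_lor (x y : H3) : 1 ≤ lor x.1 y.1 := by
  have h0 := lor_pos x y
  by_contra hcon
  push Not at hcon
  have h1 : lor (y.1 - lor x.1 y.1 • x.1) x.1 = 0 := by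
    rw [lor_sub_left, lor_smul_left, lor_self, lor_comm y.1]
    ring
  have h2 : lor (y.1 - lor x.1 y.1 • x.1) (y.1 - lor x.1 y.1 • x.1) =
      1 - lor x.1 y.1 * lor x.1 y.1 := by
    rw [lor_sub_left, lor_sub_right, lor_sub_right, lor_smul_left, lor_smul_left,
      lor_smul_right, lor_smul_right, lor_self, lor_self, lor_comm y.1]
    ring
  have h3 : 0 < 1 - lor x.1 y.1 * lor x.1 y.1 := by nlinarith
  have h4 := eq_zero_of_orth x _ h1 (by rw [h2]; exact h3.le)
  rw [h4, lor_zero_left] at h2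
  linarith

theorem eq_of_lor_le {x y : H3} (h : lor x.1 y.1 ≤ 1) : x = y := by
  have h0 : lor x.1 y.1 = 1 := le_antisymm h (one_le_lor x y)
  have h1 : lor (y.1 - x.1) x.1 = 0 := by
    rw [lor_sub_left, lor_self, lor_comm y.1, h0]
    ring
  have h2 : lor (y.1 - x.1) (y.1 - x.1) = 0 := by
    rw [lor_sub_left, lor_sub_right, lor_sub_right, lor_self, lor_self, lor_comm y.1, h0]
    ring
  have h3 := eq_zero_of_orth x _ h1 h2.ge
  exact H3.ext (sub_eq_zero.1 h3).symm

theorem isIsom_iff (g : Equiv.Perm H3) :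
    IsIsom g ↔ ∀ x y, lor (g x).1 (g y).1 = lor x.1 y.1 := by
  constructor
  · intro h x y
    exact Real.arcosh_injOn (one_le_lor _ _) (one_le_lor _ _) (h x y)
  · intro h x y
    unfold hdist
    rw [h x y]

theorem isIsom_one : IsIsom 1 := fun _ _ => rfl

theorem IsIsom.mul {g h : Equiv.Perm H3} (hg : IsIsom g) (hh : IsIsom h) : IsIsom (g * h) :=
  fun x y => (hg (h x) (h y)).trans (hh x y)

theorem IsIsom.inv {g : Equiv.Perm H3} (hg : IsIsom g) : IsIsom g⁻¹ := by
  intro x y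
  have h1 := hg (g⁻¹ x) (g⁻¹ y)
  have h2 : ∀ z, g (g⁻¹ z) = z := fun z => Equiv.apply_symm_apply g z
  rw [h2, h2] at h1
  exact h1.symm

/-- A unit timelike vector which has a positive product with a point of `H3` is in `H3`. -/
theorem pos_of_lor_pos {x : Fin 4 → ℝ} (h : lor x x = 1) (y : H3) (hy : 0 < lor y.1 x) :
    0 < x 0 := by
  rcases lt_trichotomy 0 (x 0) with h0 | h0 | h0
  · exact h0
  · exfalso
    unfold lor at h
    nlinarith [mul_self_nonneg (x 1), mul_self_nonneg (x 2), mul_self_nonneg (x 3)]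
  · exfalso
    have h1 : lor (-x) (-x) = 1 := by
      unfold lor at h ⊢
      simp only [Pi.neg_apply]
      linarith
    have h2 : 0 < (-x) 0 := by
      rw [Pi.neg_apply]
      linarith
    have h3 := lor_pos y ⟨-x, h1, h2⟩
    have h4 : lor y.1 (-x) = - lor y.1 x := by
      unfold lor
      simp only [Pi.neg_apply]
      ring
    simp only at h3
    rw [h4] at h3
    linarith

/-- The reversed Cauchy-Schwarz inequality for a future timelike vector. -/
theorem lor_ge (y : H3) (m : Fin 4 → ℝ) (h0 : 0 < m 0) (μ : ℝ) (hμ : 0 < μ)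
    (h : lor m m = μ ^ 2) : μ ≤ lor y.1 m := by
  have h1 : lor (μ⁻¹ • m) (μ⁻¹ • m) = 1 := by
    rw [lor_smul_left, lor_smul_right, h]
    field_simp
  have h2 : 0 < (μ⁻¹ • m) 0 := by
    rw [Pi.smul_apply, smul_eq_mul]
    exact mul_pos (inv_pos.2 hμ) h0
  have h3 := one_le_lor y ⟨μ⁻¹ • m, h1, h2⟩
  simp only at h3
  rw [lor_smul_right] at h3
  have h4 : μ * 1 ≤ μ * (μ⁻¹ * lor y.1 m) := mul_le_mul_of_nonneg_left h3 hμ.le
  rw [← mul_assoc, mul_inv_cancel₀ hμ.ne', one_mul, mul_one] at h4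
  exact h4

end Pool.Agent.Lib.MP_eed79e_coW
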