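import Pool.Agent.Lib.MP_eed79e_coW.Rea

/-!
# JOB Iso: the polytope of the cosets does not depend on the mirrors

`M`, `M'` mirrors with the same index set. `growth` and `exists_red`: every element of `W = wJ M.r univ` is `(l.map M.r).prod` for a reduced word `l` (no two consecutive letters are equal), and reduced words are determined by the element.

JOB IsoA: `red_unique`, `exists_wiso`. JOB IsoB: `exists_cpiso` (from `exists_wiso`).

PROOFS.
* `red_nil`: if `l` is reduced and `(l.map M.r).prod = 1` then `l = []`: `growth`: `1 + c * length ≤ (1 o) 0 = 1`.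
* `rdc`: for every word `l` there is a reduced word `l'` with `(l.map r).prod = (l'.map r).prod` for ALL involutions `r` in all groups (only `Γ = Equiv.Perm H3`, `r = M.r` or `r = M'.r` is needed): induction on `l`: for `i :: l` let `l'` be the word for `l`; if `l' = i :: l''` take `l''` (`r i * r i = 1`), otherwise `i :: l'`.
* `prod_eq_one_iff`: `(l.map M.r).prod = 1 ↔ (l.map M'.r).prod = 1`: take `l'` for `l`; both sides are equivalent to `l' = []` (`red_nil` for `M` and `M'`).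
* `exists_wiso`: `ψ x := (l.map M'.r).prod` for a chosen word `l` with `(l.map M.r).prod = x` (`exists_red`). It does not depend on the choice: if `(l.map M.r).prod = (k.map M.r).prod` then `(l.map M.r).prod * (k.reverse.map M.r).prod = 1` (`(k.reverse.map r).prod` is the inverse of `(k.map r).prod`, as the `r i` are involutions),
  so the same holds for `M'` by `prod_eq_one_iff`. Hence `ψ (x * y) = ψ x * ψ y` (append the words), `ψ (M.r i) = M'.r i` (word `[i]`); `ψ` maps `W_J` to `W'_J` (words in `J`, `exists_red`), and the analogous map `ψ'` in the other direction is inverse to it.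
* `exists_cpiso`: `θ S := {y ∈ W' | ψ' y ∈ S}`. `θ (co M.r x J) = co M'.r (ψ x) J`: `(ψ x)⁻¹ y ∈ W'_J ↔ x⁻¹ (ψ' y) ∈ W_J` (apply `ψ'`, `ψ`). Order isomorphism (`S ⊆ T ↔ θ S ⊆ θ T`: `S, T ⊆ W` by `face_mem`), the inverse is given by `ψ` instead of `ψ'`; ranks: `rkS_empty`, `rkS_co`.
-/

set_option autoImplicit false

namespace Pool.Agent.Lib.MP_eed79e_coW

variable {ι : Type} [Fintype ι] (M M' : Mir ι)

theorem red_nil {l : List ι} (h : List.IsChain (· ≠ ·) l) (h1 : (l.map M.r).prod = 1) : l = [] := by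
  obtain ⟨c, hc, hg⟩ := growth M
  have h2 := (hg l h).1
  rw [h1] at h2
  have h3 : ((1 : Equiv.Perm H3) o).1 0 = 1 := rfl
  rw [h3] at h2
  by_contra h4
  have h5 : 0 < l.length := List.length_pos_iff.2 h4
  have h6 : 0 < c * (l.length : ℝ) := mul_pos hc (Nat.cast_pos.2 h5)
  linarith

omit [Fintype ι] in
private theorem isoa_inv (i : ι) : M.r i * M.r i = 1 := rfl3_mul (M.unit i)

omit [Fintype ι] in
private theorem isoa_rdc (l : List ι) : ∃ l' : List ι, List.IsChain (· ≠ ·) l' ∧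
    ∀ M : Mir ι, (l'.map M.r).prod = (l.map M.r).prod := by
  classical
  induction l with
  | nil => exact ⟨[], List.isChain_nil, fun M => rfl⟩
  | cons i l ih =>
    obtain ⟨l', hc, hl⟩ := ih
    cases l' with
    | nil =>
      refine ⟨[i], List.isChain_singleton i, fun M => ?_⟩
      rw [List.map_cons, List.prod_cons, List.map_cons, List.prod_cons, hl M]
    | cons j l'' =>
      by_cases hij : i = j
      · subst hij
        refine ⟨l'', ?_, fun M => ?_⟩
        · cases l'' with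
          | nil => exact List.isChain_nil
          | cons k l₀ => exact (List.isChain_cons_cons.1 hc).2
        · rw [List.map_cons, List.prod_cons, ← hl M, List.map_cons, List.prod_cons, ← mul_assoc,
            isoa_inv, one_mul]
      · refine ⟨i :: j :: l'', List.isChain_cons_cons.2 ⟨hij, hc⟩, fun M => ?_⟩
        rw [List.map_cons, List.prod_cons, hl M, List.map_cons, List.prod_cons]

theorem prod_eq_one_iff (l : List ι) : (l.map M.r).prod = 1 ↔ (l.map M'.r).prod = 1 := by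
  obtain ⟨l', hc, hl⟩ := isoa_rdc l
  rw [← hl M, ← hl M']
  constructor
  · intro h
    rw [red_nil M hc h]
    rfl
  · intro h
    rw [red_nil M' hc h]
    rfl

omit [Fintype ι] in
private theorem isoa_rev (l : List ι) : (l.reverse.map M.r).prod = ((l.map M.r).prod)⁻¹ := by
  induction l with
  | nil => simp
  | cons i l ih =>
    have h1 : (M.r i)⁻¹ = M.r i := inv_eq_of_mul_eq_one_left (isoa_inv M i)
    rw [List.map_cons, List.prod_cons, mul_inv_rev, ← ih, h1, List.reverse_cons, List.map_append,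
      List.prod_append, List.map_cons, List.map_nil, List.prod_cons, List.prod_nil, mul_one]

private theorem isoa_eq {k l : List ι} (h : (k.map M.r).prod = (l.map M.r).prod) :
    (k.map M'.r).prod = (l.map M'.r).prod := by
  have h1 : ∀ M : Mir ι, ((k ++ l.reverse).map M.r).prod =
      (k.map M.r).prod * ((l.map M.r).prod)⁻¹ := by
    intro M
    rw [List.map_append, List.prod_append, isoa_rev]
  have h2 : ((k ++ l.reverse).map M.r).prod = 1 := by
    rw [h1, h, mul_inv_cancel]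
  have h3 := (prod_eq_one_iff M M' _).1 h2
  rw [h1] at h3
  exact mul_inv_eq_one.1 h3

open Classical in
/-- The image of `x` under the isomorphism, `1` for elements outside the group. -/
private noncomputable def isoa_psi (x : Equiv.Perm H3) : Equiv.Perm H3 :=
  if h : ∃ l : List ι, (l.map M.r).prod = x then (h.choose.map M'.r).prod else 1

private theorem isoa_psi_prod (l : List ι) :
    isoa_psi M M' (l.map M.r).prod = (l.map M'.r).prod := by
  have h : ∃ k : List ι, (k.map M.r).prod = (l.map M.r).prod := ⟨l, rfl⟩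
  unfold isoa_psi
  rw [dif_pos h]
  exact isoa_eq M M' h.choose_spec

private theorem isoa_mem (J : Set ι) {x : Equiv.Perm H3} (hx : x ∈ wJ M.r J) :
    isoa_psi M M' x ∈ wJ M'.r J := by
  obtain ⟨l, hJ, -, rfl⟩ := exists_red M.r (isoa_inv M) J hx
  rw [isoa_psi_prod]
  refine Subgroup.list_prod_mem _ fun y hy => ?_
  obtain ⟨i, hi, rfl⟩ := List.mem_map.1 hy
  exact Subgroup.subset_closure ⟨i, hJ i hi, rfl⟩

private theorem isoa_inv_psi {x : Equiv.Perm H3} (hx : x ∈ wJ M.r Set.univ) :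
    isoa_psi M' M (isoa_psi M M' x) = x := by
  obtain ⟨l, -, -, rfl⟩ := exists_red M.r (isoa_inv M) Set.univ hx
  rw [isoa_psi_prod, isoa_psi_prod]

private theorem isoa_mul {x y : Equiv.Perm H3} (hx : x ∈ wJ M.r Set.univ)
    (hy : y ∈ wJ M.r Set.univ) :
    isoa_psi M M' (x * y) = isoa_psi M M' x * isoa_psi M M' y := by
  obtain ⟨l, -, -, rfl⟩ := exists_red M.r (isoa_inv M) Set.univ hx
  obtain ⟨k, -, -, rfl⟩ := exists_red M.r (isoa_inv M) Set.univ hy
  rw [← List.prod_append, ← List.map_append, isoa_psi_prod, isoa_psi_prod, isoa_psi_prod,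
    List.map_append, List.prod_append]

/-- The isomorphism of the groups, as a map defined everywhere. -/
theorem exists_wiso : ∃ ψ ψ' : Equiv.Perm H3 → Equiv.Perm H3,
    (∀ J : Set ι, ∀ x ∈ wJ M.r J, ψ x ∈ wJ M'.r J) ∧ (∀ J : Set ι, ∀ y ∈ wJ M'.r J, ψ' y ∈ wJ M.r J) ∧
    (∀ x ∈ wJ M.r Set.univ, ψ' (ψ x) = x) ∧ (∀ y ∈ wJ M'.r Set.univ, ψ (ψ' y) = y) ∧
    (∀ x ∈ wJ M.r Set.univ, ∀ y ∈ wJ M.r Set.univ, ψ (x * y) = ψ x * ψ y) ∧
    (∀ x ∈ wJ M'.r Set.univ, ∀ y ∈ wJ M'.r Set.univ, ψ' (x * y) = ψ' x * ψ' y) :=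
  ⟨isoa_psi M M', isoa_psi M' M, fun J _ hx => isoa_mem M M' J hx,
    fun J _ hx => isoa_mem M' M J hx, fun _ hx => isoa_inv_psi M M' hx,
    fun _ hx => isoa_inv_psi M' M hx, fun _ hx _ hy => isoa_mul M M' hx hy,
    fun _ hx _ hy => isoa_mul M' M hx hy⟩

variable {M M'} in
private theorem isob_inv {ψ : Equiv.Perm H3 → Equiv.Perm H3}
    (h : ∀ x ∈ wJ M.r Set.univ, ∀ y ∈ wJ M.r Set.univ, ψ (x * y) = ψ x * ψ y)
    {x : Equiv.Perm H3} (hx : x ∈ wJ M.r Set.univ) : ψ x⁻¹ = (ψ x)⁻¹ := by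
  have h0 : ψ 1 = 1 := by
    have h1 := h 1 (one_mem _) 1 (one_mem _)
    rw [mul_one] at h1
    refine mul_left_cancel (a := ψ 1) ?_
    rw [mul_one]
    exact h1.symm
  have h2 := h x⁻¹ (inv_mem hx) x hx
  rw [inv_mul_cancel, h0] at h2
  exact (inv_eq_of_mul_eq_one_left h2.symm).symm

private theorem isob_le {ι : Type} (M : Mir ι) (J : Set ι) : wJ M.r J ≤ wJ M.r Set.univ :=
  Subgroup.closure_mono (Set.image_mono (Set.subset_univ J))

variable {M M'} in
/-- the image of a coset -/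
private theorem isob_co {ψ ψ' : Equiv.Perm H3 → Equiv.Perm H3}
    (h1 : ∀ J : Set ι, ∀ x ∈ wJ M.r J, ψ x ∈ wJ M'.r J)
    (h2 : ∀ J : Set ι, ∀ y ∈ wJ M'.r J, ψ' y ∈ wJ M.r J)
    (h3 : ∀ x ∈ wJ M.r Set.univ, ψ' (ψ x) = x) (h4 : ∀ y ∈ wJ M'.r Set.univ, ψ (ψ' y) = y)
    (h5 : ∀ x ∈ wJ M.r Set.univ, ∀ y ∈ wJ M.r Set.univ, ψ (x * y) = ψ x * ψ y)
    (h6 : ∀ x ∈ wJ M'.r Set.univ, ∀ y ∈ wJ M'.r Set.univ, ψ' (x * y) = ψ' x * ψ' y)
    {x : Equiv.Perm H3} (hx : x ∈ wJ M.r Set.univ) (J : Finset ι) :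
    {y | y ∈ wJ M'.r Set.univ ∧ ψ' y ∈ co M.r x J} = co M'.r (ψ x) J := by
  have hx' : ψ x ∈ wJ M'.r Set.univ := h1 _ x hx
  ext y
  constructor
  · rintro ⟨hy, hyJ⟩
    have e1 : x⁻¹ * ψ' y ∈ wJ M.r (J : Set ι) := hyJ
    have e2 := h1 _ _ e1
    rw [h5 _ (inv_mem hx) _ (h2 _ y hy), isob_inv h5 hx, h4 y hy] at e2
    exact e2
  · intro hy
    have e1 : (ψ x)⁻¹ * y ∈ wJ M'.r (J : Set ι) := hy
    have e2 : (ψ x)⁻¹ * y ∈ wJ M'.r Set.univ := isob_le M' _ e1
    have hyW : y ∈ wJ M'.r Set.univ := by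
      have e3 := mul_mem hx' e2
      rwa [mul_inv_cancel_left] at e3
    refine ⟨hyW, ?_⟩
    show x⁻¹ * ψ' y ∈ wJ M.r (J : Set ι)
    have e4 := h2 _ _ e1
    rw [h6 _ (inv_mem hx') _ hyW, isob_inv h6 hx', h3 x hx] at e4
    exact e4

variable [DecidableEq ι] (Q : Fig ι)

theorem exists_cpiso : ∃ θ : CP M.r Q ≃o CP M'.r Q,
    ∀ p, (cpP (mir_cox M') Q).rank (θ p) = (cpP (mir_cox M) Q).rank p := by
  obtain ⟨ψ, ψ', h1, h2, h3, h4, h5, h6⟩ := exists_wiso M M'
  have hco : ∀ x ∈ wJ M.r Set.univ, ∀ J : Finset ι,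
      {y | y ∈ wJ M'.r Set.univ ∧ ψ' y ∈ co M.r x J} = co M'.r (ψ x) J :=
    fun x hx J => isob_co h1 h2 h3 h4 h5 h6 hx J
  have hco' : ∀ x ∈ wJ M'.r Set.univ, ∀ J : Finset ι,
      {y | y ∈ wJ M.r Set.univ ∧ ψ y ∈ co M'.r x J} = co M.r (ψ' x) J :=
    fun x hx J => isob_co h2 h1 h4 h3 h6 h5 hx J
  have hemp : {y | y ∈ wJ M'.r Set.univ ∧ ψ' y ∈ (∅ : Set (Equiv.Perm H3))} = ∅ := by
    ext y
    exact ⟨fun h => h.2.elim, fun h => h.elim⟩
  have hemp' : {y | y ∈ wJ M.r Set.univ ∧ ψ y ∈ (∅ : Set (Equiv.Perm H3))} = ∅ := by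
    ext y
    exact ⟨fun h => h.2.elim, fun h => h.elim⟩
  have hf : ∀ S : CP M.r Q, {y | y ∈ wJ M'.r Set.univ ∧ ψ' y ∈ S.1} = ∅ ∨
      ∃ x ∈ wJ M'.r Set.univ, ∃ J ∈ Q.F,
        {y | y ∈ wJ M'.r Set.univ ∧ ψ' y ∈ S.1} = co M'.r x J := by
    intro S
    rcases S.2 with h | ⟨x, hx, J, hJ, h⟩
    · left
      rw [h]
      exact hemp
    · right
      refine ⟨ψ x, h1 _ x hx, J, hJ, ?_⟩
      rw [h]
      exact hco x hx J
  have hf' : ∀ S : CP M'.r Q, {y | y ∈ wJ M.r Set.univ ∧ ψ y ∈ S.1} = ∅ ∨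
      ∃ x ∈ wJ M.r Set.univ, ∃ J ∈ Q.F,
        {y | y ∈ wJ M.r Set.univ ∧ ψ y ∈ S.1} = co M.r x J := by
    intro S
    rcases S.2 with h | ⟨x, hx, J, hJ, h⟩
    · left
      rw [h]
      exact hemp'
    · right
      refine ⟨ψ' x, h2 _ x hx, J, hJ, ?_⟩
      rw [h]
      exact hco' x hx J
  let e : CP M.r Q ≃ CP M'.r Q :=
    { toFun := fun S => ⟨_, hf S⟩
      invFun := fun S => ⟨_, hf' S⟩
      left_inv := by
        intro S
        apply Subtype.ext
        ext x
        constructor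
        · rintro ⟨hx, -, hx2⟩
          rw [h3 x hx] at hx2
          exact hx2
        · intro hx
          have hxW := face_mem M Q hx
          refine ⟨hxW, h1 _ x hxW, ?_⟩
          show ψ' (ψ x) ∈ S.1
          rw [h3 x hxW]
          exact hx
      right_inv := by
        intro S
        apply Subtype.ext
        ext x
        constructor
        · rintro ⟨hx, -, hx2⟩
          rw [h4 x hx] at hx2
          exact hx2
        · intro hx
          have hxW := face_mem M' Q hx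
          refine ⟨hxW, h2 _ x hxW, ?_⟩
          show ψ (ψ' x) ∈ S.1
          rw [h4 x hxW]
          exact hx }
  refine ⟨⟨e, ?_⟩, ?_⟩
  · intro S T
    constructor
    · intro h x hx
      have hxW := face_mem M Q hx
      have h7 : ψ x ∈ (e S).1 := ⟨h1 _ x hxW, by
        show ψ' (ψ x) ∈ S.1
        rw [h3 x hxW]
        exact hx⟩
      have h8 : ψ' (ψ x) ∈ T.1 := (h h7).2
      rw [h3 x hxW] at h8
      exact h8
    · intro h y hy
      exact ⟨hy.1, h hy.2⟩
  · intro S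
    rw [cpP_rank, cpP_rank]
    show rkS M'.r Q {y | y ∈ wJ M'.r Set.univ ∧ ψ' y ∈ S.1} = rkS M.r Q S.1
    rcases S.2 with h | ⟨x, hx, J, hJ, h⟩
    · rw [h, hemp, rkS_empty, rkS_empty]
    · rw [h, hco x hx J, rkS_co (mir_cox M'), rkS_co (mir_cox M)]

end Pool.Agent.Lib.MP_eed79e_coW
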