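import Pool.Agent.Lib.MP_eed79e_coW.Hyp

/-!
# JOB Stab: pointwise stabilisers

`lor` is bilinear (`lor_add_left`, ...), `lor v v = 1` on `H3`; `eq_zero_of_orth`: if `lor u v = 0` for a point `v` and `0 ≤ lor u u` then `u = 0`; `isIsom_iff`.
PROOFS.
* `fix_of_dep`: there are `a b c`, not all zero, with `a v + b x + c w = 0` (`LinearIndependent` negation: `Fintype.not_linearIndependent_iff`, `Fin.sum_univ_three`). If `c = 0`: `a v + b x = 0`; the product with `v` and with `x` gives `a + b L = 0`, `a L + b = 0`, `L = lor v x`, so `b (1 - L ^ 2) = 0`. `L > 1` (`one_le_lor`, `eq_of_lor_le`, `v ≠ x`), so `b = 0`, `a = 0`: contradiction.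
  So `c ≠ 0`. Let `u = g w - w` (vectors). `lor u v = lor (g w) (g v) - lor w v = 0`, `lor u x = 0`, so `c * lor u w = 0`, `lor u w = 0`; `1 = lor (g w) (g w) = lor (w + u) (w + u) = 1 + 2 lor u w + lor u u`, so `lor u u = 0` and `u = 0`.
* `eq_of_fix`: choose `y` with `g y ≠ y` (`g ≠ 1`); `n = g y - y`; `lor n v = lor n x = lor n w = 0` as before; `lor n n = 2 - 2 lor (g y) y < 0`. `v, x, w, n` are linearly independent: `a v + b x + c w + t n = 0`, product with `n`: `t lor n n = 0`, `t = 0`, then `a = b = c = 0` by `hind`. So every vector is a combination of them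
  (`LinearIndependent.span_eq_top_of_card_eq_finrank'` or `basisOfLinearIndependentOfCardEqFinrank`; dimension `4`). (1) If `lor u v = lor u x = lor u w = 0` then `u = t n` for some `t`: `u = a v + b x + c w + t n`; `u' = u - t n` satisfies `lor u' v = lor u' x = lor u' w = 0`, so `lor u' u' = 0` (`u' = a v + b x + c w`), so `u' = 0`.
  (2) For `k ∈ {g, h}` and every point `z`: `k z = z + t n` for some `t` by (1), and `1 = lor (z + t n) (z + t n) = 1 + 2 t lor z n + t ^ 2 lor n n`, so `t = 0` or `t lor n n = - 2 lor z n`. So `k z = z` or `k z = z - (2 lor z n / lor n n) n =: ρ z`. (3) If `k y' ≠ y'` for some `y'` (`k ≠ 1`) then `k z = ρ z` for all `z`: if `k z = z` then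
  `lor z (k y' - y') = lor (k z) (k y') - lor z y' = 0` and `k y' - y' = t n`, `t ≠ 0`, so `lor z n = 0` and `ρ z = z`. So `g z = ρ z = h z` for all `z`.
* `center`: `S` finite, nonempty; `s = ∑ v ∈ S, v` (vectors). `lor s s = ∑ ∑ lor v w ≥ 1` (all terms are `≥ 1`; at least one), `s 0 > 0`. `o = s / sqrt (lor s s)` is in `H3`. For an isometry `g` with `g '' S = S`: `lor (g o) s = ∑ v, lor (g o) v = ∑ v, lor (g o) (g v) = ∑ v, lor o v = lor o s`
  (reindex: `g` permutes `S`). So `lor (g o) o = lor o o = 1` and `g o = o` (`eq_of_lor_le`).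
-/

set_option autoImplicit false

namespace Pool.Agent.Lib.MP_eed79e_coW

private theorem staba_gsub {g : Equiv.Perm H3} (hg : IsIsom g) {v : H3} (hv : g v = v) (z : H3) :
    lor ((g z).1 - z.1) v.1 = 0 := by
  have h := (isIsom_iff g).1 hg z v
  rw [hv] at h
  rw [lor_sub_left, h, sub_self]

private theorem staba_self (g : Equiv.Perm H3) (z : H3) :
    2 * lor z.1 ((g z).1 - z.1) + lor ((g z).1 - z.1) ((g z).1 - z.1) = 0 := by
  have h1 := lor_self (g z)
  have h2 := lor_self z
  rw [lor_sub_right, lor_sub_left, lor_sub_right, lor_sub_right, h1, h2, lor_comm (g z).1 z.1]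
  ring

theorem fix_of_dep {v x w : H3} (hvx : v ≠ x) (hdep : ¬ LinearIndependent ℝ ![v.1, x.1, w.1])
    {g : Equiv.Perm H3} (hg : IsIsom g) (hv : g v = v) (hx : g x = x) : g w = w := by
  rw [Fintype.not_linearIndependent_iff] at hdep
  obtain ⟨c, hc, i, hi⟩ := hdep
  rw [Fin.sum_univ_three] at hc
  simp only [Matrix.cons_val_zero, Matrix.cons_val_one, Matrix.cons_val] at hc
  have hL : 1 < lor v.1 x.1 := by
    rcases (one_le_lor v x).lt_or_eq with h | h
    · exact h
    · exact absurd (eq_of_lor_le h.ge) hvx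
  have hv1 := lor_self v
  have hx1 := lor_self x
  have hc2 : c 2 ≠ 0 := by
    intro h2
    rw [h2, zero_smul, add_zero] at hc
    have e1 : lor (c 0 • v.1 + c 1 • x.1) v.1 = 0 := by rw [hc, lor_zero_left]
    have e2 : lor (c 0 • v.1 + c 1 • x.1) x.1 = 0 := by rw [hc, lor_zero_left]
    rw [lor_add_left, lor_smul_left, lor_smul_left, hv1, lor_comm x.1 v.1] at e1
    rw [lor_add_left, lor_smul_left, lor_smul_left, hx1] at e2
    have e3 : c 1 * (1 - lor v.1 x.1 ^ 2) = 0 := by
      have : c 0 = - (c 1 * lor v.1 x.1) := by linarith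
      rw [this] at e2
      linarith
    have h1 : c 1 = 0 := by
      rcases mul_eq_zero.1 e3 with h | h
      · exact h
      · nlinarith
    have h0 : c 0 = 0 := by
      rw [h1] at e1
      linarith
    fin_cases i
    · exact hi h0
    · exact hi h1
    · exact hi h2
  have u1 := staba_gsub hg hv w
  have u2 := staba_gsub hg hx w
  set u := (g w).1 - w.1 with hu
  have e1 : lor u (c 0 • v.1 + c 1 • x.1 + c 2 • w.1) = 0 := by rw [hc, lor_zero_right]
  rw [lor_add_right, lor_add_right, lor_smul_right, lor_smul_right, lor_smul_right, u1, u2] at e1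
  have e2 : lor u w.1 = 0 := by
    have : c 2 * lor u w.1 = 0 := by linarith
    rcases mul_eq_zero.1 this with h | h
    · exact absurd h hc2
    · exact h
  have e3 := staba_self g w
  rw [← hu, lor_comm w.1 u, e2] at e3
  have e4 := eq_zero_of_orth v u u1 (by linarith)
  exact H3.ext (sub_eq_zero.1 (hu.symm.trans e4))

theorem eq_of_fix {v x w : H3} (hind : LinearIndependent ℝ ![v.1, x.1, w.1])
    {g h : Equiv.Perm H3} (hg : IsIsom g) (hh : IsIsom h) (gv : g v = v) (gx : g x = x)
    (gw : g w = w) (hv : h v = v) (hx : h x = x) (hw : h w = w) (g1 : g ≠ 1) (h1 : h ≠ 1) :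
    g = h := by
  obtain ⟨y, hy⟩ : ∃ y, g y ≠ y := by
    by_contra hcon
    push Not at hcon
    exact g1 (Equiv.ext hcon)
  set n := (g y).1 - y.1 with hn
  have nv : lor n v.1 = 0 := staba_gsub hg gv y
  have nx : lor n x.1 = 0 := staba_gsub hg gx y
  have nw : lor n w.1 = 0 := staba_gsub hg gw y
  have n0 : n ≠ 0 := by
    intro h0
    exact hy (H3.ext (sub_eq_zero.1 (hn.symm.trans h0)))
  have nn : lor n n < 0 := by
    by_contra hcon
    push Not at hcon
    exact n0 (eq_zero_of_orth v n nv hcon)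
  have hind4 : LinearIndependent ℝ ![v.1, x.1, w.1, n] := by
    rw [Fintype.linearIndependent_iff]
    intro c hc
    rw [Fin.sum_univ_four] at hc
    simp only [Matrix.cons_val_zero, Matrix.cons_val_one, Matrix.cons_val] at hc
    have e1 : lor n (c 0 • v.1 + c 1 • x.1 + c 2 • w.1 + c 3 • n) = 0 := by
      rw [hc, lor_zero_right]
    rw [lor_add_right, lor_add_right, lor_add_right, lor_smul_right, lor_smul_right,
      lor_smul_right, lor_smul_right, nv, nx, nw] at e1
    have h3 : c 3 = 0 := by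
      have : c 3 * lor n n = 0 := by linarith
      rcases mul_eq_zero.1 this with h | h
      · exact h
      · exact absurd h nn.ne
    rw [h3, zero_smul, add_zero] at hc
    rw [Fintype.linearIndependent_iff] at hind
    have h4 := hind ![c 0, c 1, c 2] (by
      rw [Fin.sum_univ_three]
      simpa using hc)
    intro i
    fin_cases i
    · exact h4 0
    · exact h4 1
    · exact h4 2
    · exact h3
  have hspan : ∀ u : Fin 4 → ℝ, ∃ c : Fin 4 → ℝ,
      u = c 0 • v.1 + c 1 • x.1 + c 2 • w.1 + c 3 • n := by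
    intro u
    have htop := hind4.span_eq_top_of_card_eq_finrank' (by simp)
    have hu : u ∈ Submodule.span ℝ (Set.range ![v.1, x.1, w.1, n]) := by
      rw [htop]; exact Submodule.mem_top
    rw [Submodule.mem_span_range_iff_exists_fun] at hu
    obtain ⟨c, hc⟩ := hu
    refine ⟨c, ?_⟩
    rw [← hc, Fin.sum_univ_four]
    simp
  have horth : ∀ u : Fin 4 → ℝ, lor u v.1 = 0 → lor u x.1 = 0 → lor u w.1 = 0 →
      ∃ t : ℝ, u = t • n := by
    intro u uv ux uw
    obtain ⟨c, hc⟩ := hspan u
    refine ⟨c 3, ?_⟩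
    have e1 : lor (u - c 3 • n) v.1 = 0 := by
      rw [lor_sub_left, lor_smul_left, uv, nv]; ring
    have e2 : lor (u - c 3 • n) x.1 = 0 := by
      rw [lor_sub_left, lor_smul_left, ux, nx]; ring
    have e3 : lor (u - c 3 • n) w.1 = 0 := by
      rw [lor_sub_left, lor_smul_left, uw, nw]; ring
    have e4 : u - c 3 • n = c 0 • v.1 + c 1 • x.1 + c 2 • w.1 := by
      rw [sub_eq_iff_eq_add]; exact hc
    have e5 : lor (u - c 3 • n) (u - c 3 • n) = 0 := by
      have h5 : lor (u - c 3 • n) (c 0 • v.1 + c 1 • x.1 + c 2 • w.1) = 0 := by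
        rw [lor_add_right, lor_add_right, lor_smul_right, lor_smul_right, lor_smul_right, e1, e2,
          e3]
        ring
      rwa [← e4] at h5
    exact sub_eq_zero.1 (eq_zero_of_orth v _ e1 e5.ge)
  -- the two possible values
  have hval : ∀ k : Equiv.Perm H3, IsIsom k → k v = v → k x = x → k w = w → ∀ z,
      ∃ t : ℝ, (k z).1 = z.1 + t • n ∧ (t = 0 ∨ t * lor n n = - (2 * lor z.1 n)) := by
    intro k hk kv kx kw z
    obtain ⟨t, ht⟩ := horth ((k z).1 - z.1) (staba_gsub hk kv z) (staba_gsub hk kx z)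
      (staba_gsub hk kw z)
    refine ⟨t, by rw [← ht]; abel, ?_⟩
    have e := staba_self k z
    rw [ht, lor_smul_right, lor_smul_left, lor_smul_right] at e
    by_cases h0 : t = 0
    · exact Or.inl h0
    · right
      have : t * (2 * lor z.1 n + t * lor n n) = 0 := by linarith
      rcases mul_eq_zero.1 this with h | h
      · exact absurd h h0
      · linarith
  have hrefl : ∀ k : Equiv.Perm H3, IsIsom k → k v = v → k x = x → k w = w → k ≠ 1 → ∀ z,
      (k z).1 = z.1 + (- (2 * lor z.1 n) / lor n n) • n := by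
    intro k hk kv kx kw k1 z
    obtain ⟨y', hy'⟩ : ∃ y, k y ≠ y := by
      by_contra hcon
      push Not at hcon
      exact k1 (Equiv.ext hcon)
    obtain ⟨t, ht, ht'⟩ := hval k hk kv kx kw z
    rcases ht' with h0 | h0
    · -- `k z = z`
      have hz : k z = z := H3.ext (by rw [ht, h0, zero_smul, add_zero])
      obtain ⟨t', ht1, ht2⟩ := hval k hk kv kx kw y'
      have ht0 : t' ≠ 0 := by
        intro h00
        apply hy'
        exact H3.ext (by rw [ht1, h00, zero_smul, add_zero])
      have e := staba_gsub hk hz y'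
      rw [ht1] at e
      have e' : lor (y'.1 + t' • n - y'.1) z.1 = t' * lor n z.1 := by
        rw [add_sub_cancel_left, lor_smul_left]
      rw [e'] at e
      have e2 : lor z.1 n = 0 := by
        rcases mul_eq_zero.1 e with h | h
        · exact absurd h ht0
        · rw [lor_comm]; exact h
      rw [hz, e2]
      simp
    · have : t = - (2 * lor z.1 n) / lor n n := by
        rw [eq_div_iff nn.ne]
        exact h0
      rw [ht, this]
  exact Equiv.ext fun z => H3.ext (by
    rw [hrefl g hg gv gx gw g1 z, hrefl h hh hv hx hw h1 z])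

private theorem stabb_sum_left {ι : Type*} (F : Finset ι) (f : ι → Fin 4 → ℝ) (y : Fin 4 → ℝ) :
    lor (∑ i ∈ F, f i) y = ∑ i ∈ F, lor (f i) y := by
  classical
  induction F using Finset.induction_on with
  | empty => rw [Finset.sum_empty, Finset.sum_empty, lor_zero_left]
  | insert a F ha ih => rw [Finset.sum_insert ha, Finset.sum_insert ha, lor_add_left, ih]

private theorem stabb_sum_right {ι : Type*} (F : Finset ι) (f : ι → Fin 4 → ℝ) (y : Fin 4 → ℝ) :
    lor y (∑ i ∈ F, f i) = ∑ i ∈ F, lor y (f i) := by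
  rw [lor_comm, stabb_sum_left]
  exact Finset.sum_congr rfl fun i _ => lor_comm _ _

theorem center (S : Set H3) (hS : S.Finite) (hne : S.Nonempty) :
    ∃ o : H3, ∀ g : Equiv.Perm H3, IsIsom g → g '' S = S → g o = o := by
  classical
  obtain ⟨v₀, hv₀⟩ := hne
  let F := hS.toFinset
  have hv₀F : v₀ ∈ F := hS.mem_toFinset.2 hv₀
  let s : Fin 4 → ℝ := ∑ v ∈ F, v.1
  have hss : 1 ≤ lor s s := by
    have h1 : lor s s = ∑ v ∈ F, ∑ w ∈ F, lor v.1 w.1 := by
      change lor (∑ v ∈ F, v.1) s = _
      rw [stabb_sum_left]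
      refine Finset.sum_congr rfl fun v _ => ?_
      exact stabb_sum_right F (fun w : H3 => w.1) v.1
    rw [h1]
    have h2 : ∑ w ∈ F, lor v₀.1 w.1 ≤ ∑ v ∈ F, ∑ w ∈ F, lor v.1 w.1 :=
      Finset.single_le_sum (f := fun v : H3 => ∑ w ∈ F, lor v.1 w.1)
        (fun v _ => Finset.sum_nonneg fun w _ => (lor_pos v w).le) hv₀F
    have h3 : lor v₀.1 v₀.1 ≤ ∑ w ∈ F, lor v₀.1 w.1 :=
      Finset.single_le_sum (f := fun w : H3 => lor v₀.1 w.1)
        (fun w _ => (lor_pos v₀ w).le) hv₀F
    rw [lor_self] at h3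
    exact h3.trans h2
  have hs0 : 0 < s 0 := by
    change 0 < (∑ v ∈ F, v.1) 0
    rw [Finset.sum_apply]
    exact Finset.sum_pos (fun v _ => v.2.2) ⟨v₀, hv₀F⟩
  have ht0 : 0 < Real.sqrt (lor s s) := Real.sqrt_pos.2 (one_pos.trans_le hss)
  have htt : Real.sqrt (lor s s) * Real.sqrt (lor s s) = lor s s :=
    Real.mul_self_sqrt (zero_le_one.trans hss)
  set t := Real.sqrt (lor s s) with ht
  have ho1 : lor (t⁻¹ • s) (t⁻¹ • s) = 1 := by
    rw [lor_smul_left, lor_smul_right, ← htt]
    field_simp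
  have ho2 : 0 < (t⁻¹ • s) 0 := by
    rw [Pi.smul_apply, smul_eq_mul]
    exact mul_pos (inv_pos.2 ht0) hs0
  refine ⟨⟨t⁻¹ • s, ho1, ho2⟩, fun g hg hgS => eq_of_lor_le (le_of_eq ?_)⟩
  set o : H3 := ⟨t⁻¹ • s, ho1, ho2⟩ with ho
  have hF : F.image g = F := by
    ext x
    rw [Finset.mem_image]
    constructor
    · rintro ⟨y, hy, rfl⟩
      refine hS.mem_toFinset.2 ?_
      rw [← hgS]
      exact ⟨y, hS.mem_toFinset.1 hy, rfl⟩
    · intro hx
      have hx' := hS.mem_toFinset.1 hx
      rw [← hgS] at hx'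
      obtain ⟨y, hy, hyx⟩ := hx'
      exact ⟨y, hS.mem_toFinset.2 hy, hyx⟩
  have h1 : lor (g o).1 s = lor o.1 s := by
    calc lor (g o).1 s = ∑ v ∈ F, lor (g o).1 v.1 :=
          stabb_sum_right F (fun w : H3 => w.1) (g o).1
      _ = ∑ v ∈ F.image g, lor (g o).1 v.1 := by rw [hF]
      _ = ∑ v ∈ F, lor (g o).1 (g v).1 := Finset.sum_image fun a _ b _ hab => g.injective hab
      _ = ∑ v ∈ F, lor o.1 v.1 := Finset.sum_congr rfl fun v _ => (isIsom_iff g).1 hg o v
      _ = lor o.1 s := (stabb_sum_right F (fun w : H3 => w.1) o.1).symm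
  have h2 : lor o.1 s = t := by
    change lor (t⁻¹ • s) s = t
    rw [lor_smul_left, ← htt, ← mul_assoc, inv_mul_cancel₀ ht0.ne', one_mul]
  change lor (g o).1 (t⁻¹ • s) = 1
  rw [lor_smul_right, h1, h2, inv_mul_cancel₀ ht0.ne']

end Pool.Agent.Lib.MP_eed79e_coW
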