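import Pool.Agent.Lib.MP_eed79e_coW.Orb
import Pool.Agent.Lib.MP_eed79e_coW.Stab

/-!
# JOB Main1: the stabiliser of a vertex has no other fixed point

PROOFS.
* `main1`: `K = img A β`, `y ∈ K.V`, `y = β v`. Suppose `x ≠ β v` is fixed by all symmetries fixing `β v`.
  Case 1: there are `e` of rank `1`, `v < e`, and `w` with `rep1 e = {β v, β w}` (`rep1_eq`) such that `β v, x, β w` are linearly independent. `caseA`: let `X, Y, Z` be flags with vertex `β v` and edge `rep1 e`, `X.map g = Y`, `X.map h = Z`. If `g = 1` then `X = Y`; if `h = 1` then `X = Z`. Otherwise `g`, `h` fix `β v`, so they fix `x`; and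
  `m1 g (rep1 e) = rep1 e = {β v, β w}`, so `g (β w) ∈ {β v, β w}`, `g (β w) ≠ β v = g (β v)` (`β w ≠ β v`), so `g (β w) = β w`; the same for `h`. `eq_of_fix` gives `g = h`, `Y = Z`.
  Case 2: otherwise for all `e > v` of rank `1`, `rep1 e = {β v, β w}` with `β v, x, β w` linearly dependent: `fix_of_dep`: symmetries `g` fixing `β v` (and `x`) fix `β w`, so `m1 g (rep1 e) = {g (β v), g (β w)} = rep1 e`. `caseB`.
* `main1_inf`: if `K.V` is finite, `center` gives `o` fixed by all symmetries (`m1 g K.V = K.V` from `(congrArg Geo.V hg.2)`). By `main1` every vertex is `o`. But there is an edge (`exists_vertex`, `exists_edge`, `rep1_eq`) with two different vertices `v ≠ w`, `β v ≠ β w`, both in `K.V`.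
-/

set_option autoImplicit false

namespace Pool.Agent.Lib.MP_eed79e_coW

/-- `m1 g {a, b} = {a, b}` and `g a = a`, `a ≠ b` give `g b = b`. -/
private theorem main1_pair {g : Equiv.Perm H3} {a b : H3} (hab : b ≠ a) (ha : g a = a)
    (h : m1 g {a, b} = {a, b}) : g b = b := by
  have h1 : g b ∈ m1 g {a, b} := (mem_m1 g).2 (Set.mem_insert_of_mem _ rfl)
  rw [h] at h1
  rcases h1 with h1 | h1
  · exfalso
    apply hab
    apply g.injective
    rw [h1, ha]
  · exact h1

/-- The image of a pair of fixed points. -/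
private theorem main1_fix {g : Equiv.Perm H3} {a b : H3} (ha : g a = a) (hb : g b = b) :
    m1 g {a, b} = {a, b} := by
  unfold m1
  rw [Set.image_pair, ha, hb]

theorem main1 (K : Geo) (hK : IsImg K) (h2 : AtMostTwo K) (y : H3) (hy : y ∈ K.V) (x : H3)
    (hx : ∀ g, IsSym K g → g y = y → g x = x) : x = y := by
  obtain ⟨P, inst, A, β, hF, rfl⟩ := hK
  obtain ⟨v, hv, rfl⟩ := hy
  by_contra hne
  by_cases hcase : ∃ e w, A.rank e = 1 ∧ v < e ∧ A.rank w = 0 ∧ w ≠ v ∧
      rep1 A β e = {β v, β w} ∧ LinearIndependent ℝ ![(β v).1, x.1, (β w).1]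
  · obtain ⟨e, w, he, hve, hw, hwv, hrep, hind⟩ := hcase
    have hbw : β w ≠ β v := fun h => hwv (hF.f0 _ _ hw hv h)
    refine caseA hF h2 hv he hve ?_
    rintro X Y Z _ _ _ hXv hYv hZv hXe hYe hZe ⟨g, hg, rfl⟩ ⟨h, hh, rfl⟩
    by_cases hg1 : g = 1
    · left
      rw [hg1, Fl.map_one]
    by_cases hh1 : h = 1
    · right
      left
      rw [hh1, Fl.map_one]
    right
    right
    have gv : g (β v) = β v := by
      have h1 : g X.v = β v := hYv
      rwa [hXv] at h1
    have hv' : h (β v) = β v := by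
      have h1 : h X.v = β v := hZv
      rwa [hXv] at h1
    have ge : m1 g {β v, β w} = {β v, β w} := by
      have h1 : m1 g X.e = rep1 A β e := hYe
      rwa [hXe, hrep] at h1
    have he' : m1 h {β v, β w} = {β v, β w} := by
      have h1 : m1 h X.e = rep1 A β e := hZe
      rwa [hXe, hrep] at h1
    have e1 : g = h := eq_of_fix hind hg.1 hh.1 gv (hx g hg gv) (main1_pair hbw gv ge) hv'
      (hx h hh hv') (main1_pair hbw hv' he') hg1 hh1
    rw [e1]
  · refine caseB hF h2 hv ?_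
    intro e he hve g hg gv
    obtain ⟨w, hw, hwe, hwv, hrep⟩ := rep1_eq hF hv he hve
    have hdep : ¬ LinearIndependent ℝ ![(β v).1, x.1, (β w).1] :=
      fun h => hcase ⟨e, w, he, hve, hw, hwv, hrep, h⟩
    rw [hrep]
    exact main1_fix gv (fix_of_dep (Ne.symm hne) hdep hg.1 gv (hx g hg gv))

theorem main1_inf (K : Geo) (hK : IsImg K) (h2 : AtMostTwo K) : K.V.Infinite := by
  intro hfin
  obtain ⟨P, inst, A, β, hF, hKe⟩ := hK
  obtain ⟨v, hv⟩ := exists_vertex A
  obtain ⟨e, he, hve⟩ := exists_edge A hv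
  obtain ⟨w, hw, hwe, hwv, hrep⟩ := rep1_eq hF hv he hve
  have hvV : β v ∈ K.V := by
    rw [hKe]
    exact ⟨v, hv, rfl⟩
  have hwV : β w ∈ K.V := by
    rw [hKe]
    exact ⟨w, hw, rfl⟩
  obtain ⟨o, ho⟩ := center K.V hfin ⟨β v, hvV⟩
  have ho' : ∀ g, IsSym K g → g o = o := fun g hg => ho g hg.1 (congrArg Geo.V hg.2)
  have e1 := main1 K ⟨P, inst, A, β, hF, hKe⟩ h2 (β v) hvV o fun g hg _ => ho' g hg
  have e2 := main1 K ⟨P, inst, A, β, hF, hKe⟩ h2 (β w) hwV o fun g hg _ => ho' g hg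
  exact hwv (hF.f0 _ _ hw hv (e2.symm.trans e1))

end Pool.Agent.Lib.MP_eed79e_coW
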