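import Pool.Agent.Lib.MP_eed79e_coW.CubeG
import Pool.Agent.Lib.MP_eed79e_coW.Iso

/-!
# JOB Main2: a two-parameter family of geometrically two-orbit 4-polytopes

PROOFS.
* `lens_MM`: `KK_lens`, `nv_hdist`: `cc A B i = A` for `i = 0` (`par8 0 = false`), `B` for `i = 7`; every `cc A B i` is `A` or `B`. `two_MM`: `twoOrbit_of` with `q₀`, `q₁`, `flags_cube`, `nrm_cube`; `arcosh A ≠ arcosh B` (`Real.arcosh_injOn` on `[1, ∞)`; `cc A B q₀.i = A`, `cc A B q₁.i = B`).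
* `main2`: for `arcosh 5 ≤ s < t` let `A = cosh s ≥ 5` (`Real.cosh_arcosh`, `cosh` is monotone on `[0, ∞)`), `B = cosh t > A`; `arcosh (cosh s) = s` (`s ≥ arcosh 5 ≥ 0`). Fix `M₀ = MM` for `A = 5`, `B = 6`; `P = CP M₀.r cube`, `A = cpP (mir_cox M₀) cube`; `exists_cpiso M₀ M` gives `θ`; `β s t p = bt M cube (θ p)` (`β s t p = o` for the other `s, t`). `faithful_of`: `Faithful`, `img A (β s t) = KK M cube`.
  `KK_geom`, `two_MM`, `lens_MM`. Last statement: `lens_cong` gives `{s, t} = {s', t'}`, and `s < t`, `s' < t'` (`Set.pair_eq_pair_iff` or the minimum).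
-/

set_option autoImplicit false

namespace Pool.Agent.Lib.MP_eed79e_coW

theorem lens_MM {A B : ℝ} (hA : 5 ≤ A) (hB : A < B) :
    lens (KK (MM hA hB) cube) = {Real.arcosh A, Real.arcosh B} := by
  rw [KK_lens]
  ext d
  rw [Set.mem_insert_iff, Set.mem_singleton_iff]
  constructor
  · rintro ⟨i, hi⟩
    rw [nv_hdist hA hB i] at hi
    unfold cc at hi
    split_ifs at hi
    · exact Or.inr hi.symm
    · exact Or.inl hi.symm
  · rintro (h | h)
    · refine ⟨0, ?_⟩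
      rw [nv_hdist hA hB 0, h]
      unfold cc
      rw [if_neg (by decide)]
    · refine ⟨7, ?_⟩
      rw [nv_hdist hA hB 7, h]
      unfold cc
      rw [if_pos (by decide)]

theorem two_MM {A B : ℝ} (hA : 5 ≤ A) (hB : A < B) : TwoOrbit (KK (MM hA hB) cube) := by
  refine twoOrbit_of q₀ q₁ ?_ fun q => ?_
  · rw [nv_hdist hA hB, nv_hdist hA hB]
    have e1 : cc A B q₀.i = A := by
      show (if par8 0 then B else A) = A
      rw [if_neg (by decide)]
    have e2 : cc A B q₁.i = B := by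
      show (if par8 7 then B else A) = B
      rw [if_pos (by decide)]
    rw [e1, e2]
    intro h
    have h1 : A = B := Real.arcosh_injOn (Set.mem_Ici.2 (by linarith)) (Set.mem_Ici.2 (by linarith)) h
    linarith
  · obtain ⟨σ, m, hm, h⟩ := flags_cube q
    obtain ⟨a, ha⟩ := nrm_cube hA hB σ m hm
    exact ⟨a, pm σ m, ha, h⟩

private theorem main2_key (M₀ : Mir (Fin 8)) (s t : ℝ) (hs : Real.arcosh 5 ≤ s) (hst : s < t) :
    ∃ β : CP M₀.r cube → H3, Faithful (cpP (mir_cox M₀) cube) β ∧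
      Disc (img (cpP (mir_cox M₀) cube) β).V ∧ TwoOrbit (img (cpP (mir_cox M₀) cube) β) ∧
      lens (img (cpP (mir_cox M₀) cube) β) = {s, t} := by
  have h5 : 0 ≤ Real.arcosh 5 := Real.arcosh_nonneg (by norm_num)
  have hs0 : 0 ≤ s := h5.trans hs
  have ht0 : 0 ≤ t := hs0.trans hst.le
  have hA : 5 ≤ Real.cosh s := by
    have h1 : Real.cosh (Real.arcosh 5) ≤ Real.cosh s := by
      rw [Real.cosh_le_cosh, abs_of_nonneg h5, abs_of_nonneg hs0]
      exact hs
    rwa [Real.cosh_arcosh (by norm_num)] at h1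
  have hB : Real.cosh s < Real.cosh t := by
    rw [Real.cosh_lt_cosh, abs_of_nonneg hs0, abs_of_nonneg ht0]
    exact hst
  obtain ⟨θ, hθ⟩ := exists_cpiso M₀ (MM hA hB) cube
  obtain ⟨h1, h2⟩ := faithful_of θ hθ (bt_faithful (MM hA hB) cube)
  have h3 : img (cpP (mir_cox M₀) cube) (fun p => bt (MM hA hB) cube (θ p)) =
      KK (MM hA hB) cube := h2
  refine ⟨fun p => bt (MM hA hB) cube (θ p), h1, ?_, ?_, ?_⟩
  · rw [h3]
    exact (KK_geom (MM hA hB) cube).2
  · rw [h3]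
    exact two_MM hA hB
  · rw [h3, lens_MM, Real.arcosh_cosh hs0, Real.arcosh_cosh ht0]

theorem main2 : ∃ (P : Type) (_ : PartialOrder P) (A : AbsPoly 4 P) (β : ℝ → ℝ → P → H3),
    ∀ s t : ℝ, Real.arcosh 5 ≤ s → s < t →
      Faithful A (β s t) ∧ Disc (img A (β s t)).V ∧ TwoOrbit (img A (β s t)) ∧
      lens (img A (β s t)) = {s, t} ∧
      ∀ s' t' : ℝ, Real.arcosh 5 ≤ s' → s' < t' → Cong (img A (β s t)) (img A (β s' t')) →
        s = s' ∧ t = t' := by
  classical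
  obtain ⟨M₀, -⟩ : ∃ M₀ : Mir (Fin 8), M₀ = MM (A := 5) (B := 6) le_rfl (by norm_num) := ⟨_, rfl⟩
  have key : ∀ s t : ℝ, ∃ β : CP M₀.r cube → H3, Real.arcosh 5 ≤ s → s < t →
      Faithful (cpP (mir_cox M₀) cube) β ∧
      Disc (img (cpP (mir_cox M₀) cube) β).V ∧ TwoOrbit (img (cpP (mir_cox M₀) cube) β) ∧
      lens (img (cpP (mir_cox M₀) cube) β) = {s, t} := by
    intro s t
    by_cases h : Real.arcosh 5 ≤ s ∧ s < t
    · obtain ⟨β, hβ⟩ := main2_key M₀ s t h.1 h.2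
      exact ⟨β, fun _ _ => hβ⟩
    · exact ⟨fun _ => o, fun h1 h2 => absurd ⟨h1, h2⟩ h⟩
  choose β hβ using key
  refine ⟨CP M₀.r cube, inferInstance, cpP (mir_cox M₀) cube, β, fun s t hs hst => ?_⟩
  obtain ⟨h1, h2, h3, h4⟩ := hβ s t hs hst
  refine ⟨h1, h2, h3, h4, fun s' t' hs' hst' hc => ?_⟩
  have h5 := lens_cong hc
  rw [h4, (hβ s' t' hs' hst').2.2.2, Set.pair_eq_pair_iff] at h5
  rcases h5 with h5 | ⟨h5, h6⟩
  · exact h5
  · exfalso
    linarith

end Pool.Agent.Lib.MP_eed79e_coW
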