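import Pool.Agent.Lib.MP_eed79e_coW.Abs

/-!
# JOB Thin: there are vertices with at least three edges and edges with at least three 2-faces

`A` an abstract 4-polytope, `β` a faithful realization. Write `rk = A.rank`.

PROOF of `thin_vertices` (all vertices have at most two edges: contradiction). Let `e` be of rank `1` (`exists_between` for `bot < top`), `c > e` of rank `3` (`exists_between` for `e < top`), `f ≠ f'` the two elements between `e` and `c` (`exists_two`), of rank `2`.
CLAIM (private lemma, symmetric in `f`, `f'`): if `f`, `f'` have rank `2` and some `e` of rank `1` is below both then every `z` of rank `1`, `z < f`, satisfies `z < f'`. PROOF: `conn_ind` for the section `bot < f` (`rk f = 2 = rk bot + 3`), from `e` to `z`, with the property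
 `S z := (rk z = 1 → z < f') ∧ (rk z = 0 → ∀ z', rk z' = 1 → z < z' → z' < f → z' < f')`.
 Step from `s` to `t` (both strictly between `bot` and `f`, so of rank `0` or `1`): if `s < t` then `rk s = 0`, `rk t = 1` and `S s` gives `t < f'`. If `t < s` then `rk t = 0`, `rk s = 1`, `s < f'`. Let `t < z' < f`, `rk z' = 1`. By `exists_two` for `t < f'` the elements between `t` and `f'` are `a ≠ b`, of rank `1`,
 `s` is one of them. `a`, `b`, `z'` are three elements of rank `1` above the vertex `t`, `a ≠ b`, so `z' = a` or `z' = b` by the hypothesis, and `z' < f'`.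
By the claim (twice) `f` and `f'` have the same elements of rank `1` below them, so `rep2 A β f = rep2 A β f'` (`e ≤ f` and `rk e = 1` iff `e < f` and `rk e = 1`), `f = f'` by `hF.f2`, a contradiction.

PROOF of `thin_edges` (all edges have at most two 2-faces: contradiction). Let `f` be of rank `2`, `c ≠ c'` the two elements between `f` and `top`, of rank `3`.
CLAIM (symmetric in `c`, `c'`): if `c`, `c'` have rank `3` and some `f` of rank `2` is below both then every `z` of rank `2`, `z < c`, satisfies `z < c'`. PROOF: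
(a) Local step: if `rk y = 1`, `rk s = 2`, `y < s`, `s < c`, `s < c'` and `y < z' < c`, `rk z' = 2`, then `z' < c'`: by `exists_two` for `y < c'` the elements between are `a ≠ b`, one of them is `s`; `a`, `b`, `z'` are above `y`, so `z' = a` or `z' = b`.
(b) If `rk v = 0`, `v < s < c`, `s < c'`, `rk s = 2`, then every `z'` of rank `2` with `v < z' < c` satisfies `z' < c'`: `conn_ind` for the section `v < c` (ranks `0` and `3`) from `s` to `z'` with `T y := (rk y = 2 → y < c') ∧ (rk y = 1 → ∀ z', rk z' = 2 → y < z' → z' < c → z' < c')`; step by (a), as in `thin_vertices`.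
(c) `conn_ind` for the section `bot < c` from `f` to `z` with `S y := (rk y = 2 → y < c') ∧ (rk y = 1 ∨ rk y = 0 → ∀ z', rk z' = 2 → y < z' → z' < c → z' < c')`. Step from `s` to `t`: `s < t`: if `rk t = 2` use `S s` (`rk s ≤ 1`, `z' = t`); if `rk t = 1` then `rk s = 0` and `z' > t` implies `z' > s`.
 `t < s`: if `rk s = 2`: `s < c'`; if `rk t = 1` use (a); if `rk t = 0` use (b). If `rk s = 1`, `rk t = 0`: choose `y` with `s < y < c`, `rk y = 2` (`exists_between`); `S s` gives `y < c'`, and (b) with `y`.
So `c` and `c'` have the same elements of rank `2` below them, `rep3 A β c = rep3 A β c'`, `c = c'`, a contradiction.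
-/

set_option autoImplicit false

namespace Pool.Agent.Lib.MP_eed79e_coW

variable {P : Type} [PartialOrder P] {A : AbsPoly 4 P} {β : P → H3}

private theorem thin_claimV
    (h : ∀ v, A.rank v = 0 → ∀ e₁ e₂ e₃, A.rank e₁ = 1 → A.rank e₂ = 1 → A.rank e₃ = 1 →
      v < e₁ → v < e₂ → v < e₃ → e₁ = e₂ ∨ e₁ = e₃ ∨ e₂ = e₃)
    {e f f' : P} (he : A.rank e = 1) (hf : A.rank f = 2) (hf' : A.rank f' = 2) (hef : e < f)
    (hef' : e < f') {z : P} (hz : A.rank z = 1) (hzf : z < f) : z < f' := by
  have hb := A.rank_bot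
  have key := A.conn_ind (x := A.bot) (y := f) (A.bot_lt (by omega)) (by omega)
    (fun y => (A.rank y = 1 → y < f') ∧
      (A.rank y = 0 → ∀ z', A.rank z' = 1 → y < z' → z' < f → z' < f')) (by
      intro s t hs hsf ht htf hst hS
      have r1 := A.rank_mono hs
      have r2 := A.rank_mono hsf
      have r3 := A.rank_mono ht
      have r4 := A.rank_mono htf
      refine ⟨fun ht1 => ?_, fun ht0 z' hz' htz' hz'f => ?_⟩
      · rcases hst with hst | hst
        · have r5 := A.rank_mono hst
          exact hS.2 (by omega) t ht1 hst htf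
        · have r5 := A.rank_mono hst
          omega
      · rcases hst with hst | hst
        · have r5 := A.rank_mono hst
          omega
        · have r5 := A.rank_mono hst
          have hsf' : s < f' := hS.1 (by omega)
          obtain ⟨a, b, hab, h1, h2, h3, h4, h5, h6, -⟩ :=
            A.exists_two (hst.trans hsf') (by omega)
          rcases h t ht0 a b z' (by omega) (by omega) hz' h1 h3 htz' with h7 | h7 | h7
          · exact absurd h7 hab
          · rw [← h7]
            exact h2
          · rw [← h7]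
            exact h4)
    (a := e) (b := z) (A.bot_lt (by omega)) hef (A.bot_lt (by omega)) hzf
    ⟨fun _ => hef', fun h0 => by omega⟩
  exact key.1 hz

private theorem thin_loc
    (h : ∀ e, A.rank e = 1 → ∀ f₁ f₂ f₃, A.rank f₁ = 2 → A.rank f₂ = 2 → A.rank f₃ = 2 →
      e < f₁ → e < f₂ → e < f₃ → f₁ = f₂ ∨ f₁ = f₃ ∨ f₂ = f₃)
    {c' y s z' : P} (hc' : A.rank c' = 3) (hy : A.rank y = 1) (hys : y < s) (hsc' : s < c')
    (hz' : A.rank z' = 2) (hyz' : y < z') : z' < c' := by
  obtain ⟨a, b, hab, h1, h2, h3, h4, h5, h6, -⟩ := A.exists_two (hys.trans hsc') (by omega)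
  rcases h y hy a b z' (by omega) (by omega) hz' h1 h3 hyz' with h7 | h7 | h7
  · exact absurd h7 hab
  · rw [← h7]
    exact h2
  · rw [← h7]
    exact h4

private theorem thin_b
    (h : ∀ e, A.rank e = 1 → ∀ f₁ f₂ f₃, A.rank f₁ = 2 → A.rank f₂ = 2 → A.rank f₃ = 2 →
      e < f₁ → e < f₂ → e < f₃ → f₁ = f₂ ∨ f₁ = f₃ ∨ f₂ = f₃)
    {v c c' s z : P} (hc : A.rank c = 3) (hc' : A.rank c' = 3) (hv : A.rank v = 0) (hvs : v < s)
    (hsc : s < c) (hsc' : s < c') (hs : A.rank s = 2) (hz : A.rank z = 2) (hvz : v < z)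
    (hzc : z < c) : z < c' := by
  have key := A.conn_ind (x := v) (y := c) (hvs.trans hsc) (by omega)
    (fun y => (A.rank y = 2 → y < c') ∧
      (A.rank y = 1 → ∀ z', A.rank z' = 2 → y < z' → z' < c → z' < c')) (by
      intro s t hs hsf ht htf hst hS
      have r1 := A.rank_mono hs
      have r2 := A.rank_mono hsf
      have r3 := A.rank_mono ht
      have r4 := A.rank_mono htf
      refine ⟨fun ht1 => ?_, fun ht0 z' hz' htz' hz'f => ?_⟩
      · rcases hst with hst | hst
        · have r5 := A.rank_mono hst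
          exact hS.2 (by omega) t ht1 hst htf
        · have r5 := A.rank_mono hst
          omega
      · rcases hst with hst | hst
        · have r5 := A.rank_mono hst
          omega
        · have r5 := A.rank_mono hst
          exact thin_loc h hc' ht0 hst (hS.1 (by omega)) hz' htz')
    (a := s) (b := z) hvs hsc hvz hzc ⟨fun _ => hsc', fun h0 => by omega⟩
  exact key.1 hz

private theorem thin_claimE
    (h : ∀ e, A.rank e = 1 → ∀ f₁ f₂ f₃, A.rank f₁ = 2 → A.rank f₂ = 2 → A.rank f₃ = 2 →
      e < f₁ → e < f₂ → e < f₃ → f₁ = f₂ ∨ f₁ = f₃ ∨ f₂ = f₃)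
    {f c c' : P} (hf : A.rank f = 2) (hc : A.rank c = 3) (hc' : A.rank c' = 3) (hfc : f < c)
    (hfc' : f < c') {z : P} (hz : A.rank z = 2) (hzc : z < c) : z < c' := by
  have hb := A.rank_bot
  have key := A.conn_ind (x := A.bot) (y := c) (A.bot_lt (by omega)) (by omega)
    (fun y => (A.rank y = 2 → y < c') ∧ (A.rank y = 1 ∨ A.rank y = 0 →
      ∀ z', A.rank z' = 2 → y < z' → z' < c → z' < c')) (by
      intro s t hs hsf ht htf hst hS
      have r1 := A.rank_mono hs
      have r2 := A.rank_mono hsf
      have r3 := A.rank_mono ht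
      have r4 := A.rank_mono htf
      refine ⟨fun ht1 => ?_, fun ht0 z' hz' htz' hz'f => ?_⟩
      · rcases hst with hst | hst
        · have r5 := A.rank_mono hst
          exact hS.2 (by omega) t ht1 hst htf
        · have r5 := A.rank_mono hst
          omega
      · rcases hst with hst | hst
        · have r5 := A.rank_mono hst
          exact hS.2 (by omega) z' hz' (hst.trans htz') hz'f
        · have r5 := A.rank_mono hst
          by_cases hs2 : A.rank s = 2
          · rcases ht0 with ht0 | ht0
            · exact thin_loc h hc' ht0 hst (hS.1 hs2) hz' htz'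
            · exact thin_b h hc hc' ht0 hst hsf (hS.1 hs2) hs2 hz' htz' hz'f
          · have hs1 : A.rank s = 1 := by omega
            have ht0' : A.rank t = 0 := by omega
            obtain ⟨y, hsy, hyc, hy⟩ := A.exists_between hsf 2 (by omega) (by omega)
            have hyc' : y < c' := hS.2 (Or.inl hs1) y hy hsy hyc
            exact thin_b h hc hc' ht0' (hst.trans hsy) hyc hyc' hy hz' htz' hz'f)
    (a := f) (b := z) (A.bot_lt (by omega)) hfc (A.bot_lt (by omega)) hzc
    ⟨fun _ => hfc', fun h0 => by omega⟩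
  exact key.1 hz

theorem thin_vertices (hF : Faithful A β)
    (h : ∀ v, A.rank v = 0 → ∀ e₁ e₂ e₃, A.rank e₁ = 1 → A.rank e₂ = 1 → A.rank e₃ = 1 →
      v < e₁ → v < e₂ → v < e₃ → e₁ = e₂ ∨ e₁ = e₃ ∨ e₂ = e₃) : False := by
  have hb := A.rank_bot
  have ht := A.rank_top
  push_cast at ht
  obtain ⟨e, -, het, he⟩ := A.exists_between (x := A.bot) (y := A.top) (A.bot_lt (by omega)) 1
    (by omega) (by omega)
  obtain ⟨c, hec, -, hc⟩ := A.exists_between (x := e) (y := A.top) het 3 (by omega) (by omega)
  obtain ⟨f, f', hff', h1, h2, h3, h4, h5, h6, -⟩ := A.exists_two hec (by omega)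
  have hf : A.rank f = 2 := by omega
  have hf' : A.rank f' = 2 := by omega
  refine hff' (hF.f2 f f' hf hf' ?_)
  ext x
  constructor
  · rintro ⟨z, hz, hzf, rfl⟩
    have hzf' : z < f := by
      refine lt_of_le_of_ne hzf ?_
      rintro rfl
      omega
    exact ⟨z, hz, (thin_claimV h he hf hf' h1 h3 hz hzf').le, rfl⟩
  · rintro ⟨z, hz, hzf, rfl⟩
    have hzf' : z < f' := by
      refine lt_of_le_of_ne hzf ?_
      rintro rfl
      omega
    exact ⟨z, hz, (thin_claimV h he hf' hf h3 h1 hz hzf').le, rfl⟩

theorem thin_edges (hF : Faithful A β)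
    (h : ∀ e, A.rank e = 1 → ∀ f₁ f₂ f₃, A.rank f₁ = 2 → A.rank f₂ = 2 → A.rank f₃ = 2 →
      e < f₁ → e < f₂ → e < f₃ → f₁ = f₂ ∨ f₁ = f₃ ∨ f₂ = f₃) : False := by
  have hb := A.rank_bot
  have ht := A.rank_top
  push_cast at ht
  obtain ⟨f, -, hft, hf⟩ := A.exists_between (x := A.bot) (y := A.top) (A.bot_lt (by omega)) 2
    (by omega) (by omega)
  obtain ⟨c, c', hcc', h1, h2, h3, h4, h5, h6, -⟩ := A.exists_two hft (by omega)
  have hc : A.rank c = 3 := by omega
  have hc' : A.rank c' = 3 := by omega
  refine hcc' (hF.f3 c c' hc hc' ?_)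
  ext x
  constructor
  · rintro ⟨z, hz, hzf, rfl⟩
    have hzf' : z < c := by
      refine lt_of_le_of_ne hzf ?_
      rintro rfl
      omega
    exact ⟨z, hz, (thin_claimE h hf hc hc' h1 h3 hz hzf').le, rfl⟩
  · rintro ⟨z, hz, hzf, rfl⟩
    have hzf' : z < c' := by
      refine lt_of_le_of_ne hzf ?_
      rintro rfl
      omega
    exact ⟨z, hz, (thin_claimE h hf hc' hc h3 h1 hz hzf').le, rfl⟩

end Pool.Agent.Lib.MP_eed79e_coW
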