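import Pool.Agent.Lib.MP_eed79e_coW.Tr
import Pool.Agent.Lib.MP_eed79e_coW.Thin

/-!
# JOB Orb: counting flags at an edge and at a vertex

`K = img A β`, `β` faithful, the symmetry group has at most two orbits on the flags: `Φ₀`, `Ψ₀` with `Eqv K Φ₀ X ∨ Eqv K Ψ₀ X` for all flags `X`. `Eqv` is an equivalence relation (`Eqv.refl`, `symm`, `trans`).

PROOF of `caseA`. `v < e`; the hypothesis `h3` says: of three flags with vertex `β v` and edge `rep1 e` which are equivalent to the first one, two coincide.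
(1) Let `X : Fin 5 → Fl` be flags with vertex `β v` and edge `rep1 e`, `X` injective: impossible. The map `i ↦ [Eqv K Φ₀ (X i)]` to `Prop`/`Bool` takes the same value at three different indices `i, j, k` (pigeonhole: `Fintype.exists_lt_card_fiber_of_mul_lt_card`, `Finset.two_lt_card`; or a case distinction for each of the five flags and `h3` for a suitable triple),
 so `X i, X j, X k` are all equivalent to `Φ₀` or all to `Ψ₀`, so `Eqv K (X i) (X j)` and `Eqv K (X i) (X k)`, and `h3` contradicts injectivity.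
(2) There are at most two elements of rank `2` above `e`: three different ones `f₁, f₂, f₃` have facets `a_i ≠ b_i` (`exists_two` for `f_i < top`), and `(v, e, f₁, a₁), (v, e, f₁, b₁), (v, e, f₂, a₂), (v, e, f₂, b₂), (v, e, f₃, a₃)` are five different flags (`isFl_img`, `toFl_inj`).
(3) There are at least two, `f ≠ f'` (`exists_between` for `e < top` gives `c` of rank `3`, `exists_two` for `e < c`), so four different flags `(v, e, f, a), (v, e, f, b), (v, e, f', a'), (v, e, f', b')`. They are not all equivalent to `Ψ₀` and not all equivalent to `Φ₀` (`h3` for three of them). So there are flags `X`, `Y` at `(v, e)` with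
 `Eqv K Φ₀ X` and `Eqv K Ψ₀ Y`. Hence every flag `Z` of `K` is equivalent to a flag with edge `rep1 e` (to `X` or to `Y`).
(4) Every edge `e'` has at most two elements of rank `2` above it, so `thin_edges` gives the contradiction: let `f₁, f₂, f₃` be of rank `2` above `e'`. Choose a flag `Z = (v', e', f₁, c₁)` (`exists_between`). `g` symmetry, `m1 g (rep1 e') = rep1 e` (from (3), `Eqv K Z X`: `Z.map g = X`). `m2 g (rep2 f_i) ∈ K.F` (`IsSym.memF`), so it is `rep2 f'_i` for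
 some `f'_i` of rank `2`, and `rep1 e ∈ rep2 f'_i` (`mem_m2`), so `e ≤ f'_i`, `e < f'_i`. By (2) two of the `f'_i` coincide, and `m2_inj`, `hF.f2` give that two of the `f_i` coincide.

PROOF of `caseB`. The hypothesis `h3` says that every symmetry which fixes `β v` fixes the edges at `v`.
(1) Flags `X = (v, e, ..)`, `Y = (v, e', ..)` with different edges `e ≠ e'` at `v` are not equivalent: `X.map g = Y` gives `g (β v) = β v`, `m1 g (rep1 e) = rep1 e'`, and `m1 g (rep1 e) = rep1 e` by `h3`, so `rep1 e = rep1 e'`, `e = e'` (`hF.f1`).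
(2) There are at most two edges at `v`: for three different edges choose flags containing them (`exists_between`); two of the three flags are both equivalent to `Φ₀` or both to `Ψ₀`, contradiction to (1). There are at least two, `e ≠ e'`: choose `e > v`, `f > e` of rank `2`, `exists_two` for `v < f`.
(3) So the flags at `v` with edges `e`, `e'` are not both equivalent to `Φ₀` and not both to `Ψ₀`: every flag `Z` of `K` is equivalent to a flag with vertex `β v`.
(4) Every vertex `v'` has at most two edges, so `thin_vertices` gives the contradiction: let `e₁, e₂, e₃` be edges at `v'`, `Z` a flag with vertex `v'`, `Z.map g = X`, `g (β v') = β v`. `m1 g (rep1 e_i) ∈ K.E` is `rep1 e'_i`, `β v ∈ rep1 e'_i` (`mem_m1`), so `v ≤ e'_i`. By (2) two of the `e'_i` coincide, so two of the `e_i` coincide (`m1_inj`, `hF.f1`).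
-/

set_option autoImplicit false

namespace Pool.Agent.Lib.MP_eed79e_coW

variable {P : Type} [PartialOrder P] {A : AbsPoly 4 P} {β : P → H3}

private theorem orba_three {K : Geo} {Φ Ψ : Fl} (X : Fin 5 → Fl)
    (hX : ∀ i, Eqv K Φ (X i) ∨ Eqv K Ψ (X i)) :
    ∃ i j k, i ≠ j ∧ i ≠ k ∧ j ≠ k ∧ Eqv K (X i) (X j) ∧ Eqv K (X i) (X k) := by
  classical
  have hc : ((Finset.univ : Finset (Fin 5)).filter (fun i => Eqv K Φ (X i))).card +
      ((Finset.univ : Finset (Fin 5)).filter (fun i => ¬ Eqv K Φ (X i))).card = 5 := by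
    rw [Finset.card_filter_add_card_filter_not]
    simp
  by_cases h : 2 < ((Finset.univ : Finset (Fin 5)).filter (fun i => Eqv K Φ (X i))).card
  · obtain ⟨i, j, k, hi, hj, hk, hij, hik, hjk⟩ := Finset.two_lt_card_iff.1 h
    rw [Finset.mem_filter] at hi hj hk
    exact ⟨i, j, k, hij, hik, hjk, hi.2.symm.trans hj.2, hi.2.symm.trans hk.2⟩
  · have h' : 2 < ((Finset.univ : Finset (Fin 5)).filter (fun i => ¬ Eqv K Φ (X i))).card := by
      omega
    obtain ⟨i, j, k, hi, hj, hk, hij, hik, hjk⟩ := Finset.two_lt_card_iff.1 h'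
    rw [Finset.mem_filter] at hi hj hk
    have hi' := (hX i).resolve_left hi.2
    have hj' := (hX j).resolve_left hj.2
    have hk' := (hX k).resolve_left hk.2
    exact ⟨i, j, k, hij, hik, hjk, hi'.symm.trans hj', hi'.symm.trans hk'⟩

/-- the elements of rank `2` above `e`, with a facet -/
private def OrbaGood (A : AbsPoly 4 P) (e : P) (x : P × P) : Prop :=
  A.rank x.1 = 2 ∧ A.rank x.2 = 3 ∧ e < x.1 ∧ x.1 < x.2

/-- two facets above an element of rank `2` -/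
private theorem orba_two (A : AbsPoly 4 P) {f : P} (hf : A.rank f = 2) :
    ∃ a b, a ≠ b ∧ f < a ∧ f < b ∧ A.rank a = 3 ∧ A.rank b = 3 := by
  have h1 : f < A.top := A.lt_top (by rw [hf]; norm_num)
  obtain ⟨a, b, hab, ha, -, hb, -, ra, rb, -⟩ :=
    A.exists_two h1 (by rw [hf, A.rank_top]; norm_num)
  exact ⟨a, b, hab, ha, hb, by rw [ra, hf]; norm_num, by rw [rb, hf]; norm_num⟩

private theorem orba_atmost (hF : Faithful A β) (h2 : AtMostTwo (img A β)) {v e : P}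
    (hv : A.rank v = 0) (he : A.rank e = 1) (hve : v < e)
    (h3 : ∀ X Y Z : Fl, IsFl (img A β) X → IsFl (img A β) Y → IsFl (img A β) Z →
      X.v = β v → Y.v = β v → Z.v = β v → X.e = rep1 A β e → Y.e = rep1 A β e →
      Z.e = rep1 A β e → Eqv (img A β) X Y → Eqv (img A β) X Z → X = Y ∨ X = Z ∨ Y = Z)
    (f₁ f₂ f₃ : P) (r₁ : A.rank f₁ = 2) (r₂ : A.rank f₂ = 2) (r₃ : A.rank f₃ = 2)
    (l₁ : e < f₁) (l₂ : e < f₂) (l₃ : e < f₃) : f₁ = f₂ ∨ f₁ = f₃ ∨ f₂ = f₃ := by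
  by_contra hcon
  push Not at hcon
  obtain ⟨n12, n13, n23⟩ := hcon
  obtain ⟨Φ, Ψ, hΦ, hΨ, hall⟩ := h2
  obtain ⟨a₁, b₁, ab₁, fa₁, fb₁, ra₁, rb₁⟩ := orba_two A r₁
  obtain ⟨a₂, b₂, ab₂, fa₂, fb₂, ra₂, rb₂⟩ := orba_two A r₂
  obtain ⟨a₃, b₃, ab₃, fa₃, fb₃, ra₃, rb₃⟩ := orba_two A r₃
  let g : Fin 5 → P × P := ![(f₁, a₁), (f₁, b₁), (f₂, a₂), (f₂, b₂), (f₃, a₃)]
  have hg : ∀ i, OrbaGood A e (g i) := by
    intro i
    fin_cases i
    · exact ⟨r₁, ra₁, l₁, fa₁⟩
    · exact ⟨r₁, rb₁, l₁, fb₁⟩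
    · exact ⟨r₂, ra₂, l₂, fa₂⟩
    · exact ⟨r₂, rb₂, l₂, fb₂⟩
    · exact ⟨r₃, ra₃, l₃, fa₃⟩
  have hinj : ∀ i j, i < j → g i ≠ g j := by
    intro i j hij h
    have h1 : (g i).1 = (g j).1 := congrArg Prod.fst h
    have h4 : (g i).2 = (g j).2 := congrArg Prod.snd h
    fin_cases i <;> fin_cases j <;>
      first
        | exact absurd hij (by decide)
        | exact ab₁ h4
        | exact ab₂ h4
        | exact n12 h1
        | exact n13 h1
        | exact n23 h1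
  have hfl : ∀ i, IsFl (img A β) (toFl A β v e (g i).1 (g i).2) := fun i =>
    isFl_img hF hv he (hg i).1 (hg i).2.1 hve (hg i).2.2.1 (hg i).2.2.2
  have hne : ∀ i j, i ≠ j → toFl A β v e (g i).1 (g i).2 ≠ toFl A β v e (g j).1 (g j).2 := by
    intro i j hij h
    obtain ⟨-, -, h5, h6⟩ := toFl_inj hF hv he (hg i).1 (hg i).2.1 hv he (hg j).1 (hg j).2.1 h
    rcases lt_or_gt_of_ne hij with h7 | h7
    · exact hinj i j h7 (Prod.ext h5 h6)
    · exact hinj j i h7 (Prod.ext h5.symm h6.symm)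
  obtain ⟨i, j, k, hij, hik, hjk, e1, e2⟩ :=
    orba_three (fun i => toFl A β v e (g i).1 (g i).2) (fun i => hall _ (hfl i))
  rcases h3 _ _ _ (hfl i) (hfl j) (hfl k) rfl rfl rfl rfl rfl rfl e1 e2 with h | h | h
  · exact hne i j hij h
  · exact hne i k hik h
  · exact hne j k hjk h

/-- every flag is equivalent to a flag at `v`, `e` -/
private theorem orba_all (hF : Faithful A β) (h2 : AtMostTwo (img A β)) {v e : P}
    (hv : A.rank v = 0) (he : A.rank e = 1) (hve : v < e)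
    (h3 : ∀ X Y Z : Fl, IsFl (img A β) X → IsFl (img A β) Y → IsFl (img A β) Z →
      X.v = β v → Y.v = β v → Z.v = β v → X.e = rep1 A β e → Y.e = rep1 A β e →
      Z.e = rep1 A β e → Eqv (img A β) X Y → Eqv (img A β) X Z → X = Y ∨ X = Z ∨ Y = Z)
    (Z : Fl) (hZ : IsFl (img A β) Z) : ∃ X : Fl, X.e = rep1 A β e ∧ Eqv (img A β) Z X := by
  obtain ⟨Φ, Ψ, hΦ, hΨ, hall⟩ := h2
  have h1 : e < A.top := A.lt_top (by rw [he]; norm_num)
  obtain ⟨c, hec, -, rc⟩ := A.exists_between h1 3 (by rw [he]; norm_num)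
    (by rw [A.rank_top]; norm_num)
  obtain ⟨f, f', hff, hef, -, hef', -, rf, rf', -⟩ :=
    A.exists_two hec (by rw [rc, he]; norm_num)
  rw [he] at rf rf'
  norm_num at rf rf'
  obtain ⟨a, b, ab, fa, fb, ra, rb⟩ := orba_two A rf
  obtain ⟨a', b', ab', fa', fb', ra', rb'⟩ := orba_two A rf'
  have k1 : IsFl (img A β) (toFl A β v e f a) := isFl_img hF hv he rf ra hve hef fa
  have k2 : IsFl (img A β) (toFl A β v e f b) := isFl_img hF hv he rf rb hve hef fb
  have k3 : IsFl (img A β) (toFl A β v e f' a') := isFl_img hF hv he rf' ra' hve hef' fa'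
  have n12 : toFl A β v e f a ≠ toFl A β v e f b := fun h =>
    ab (toFl_inj hF hv he rf ra hv he rf rb h).2.2.2
  have n13 : toFl A β v e f a ≠ toFl A β v e f' a' := fun h =>
    hff (toFl_inj hF hv he rf ra hv he rf' ra' h).2.2.1
  have n23 : toFl A β v e f b ≠ toFl A β v e f' a' := fun h =>
    hff (toFl_inj hF hv he rf rb hv he rf' ra' h).2.2.1
  have key : ∀ Θ : Fl, ¬ (Eqv (img A β) Θ (toFl A β v e f a) ∧
      Eqv (img A β) Θ (toFl A β v e f b) ∧ Eqv (img A β) Θ (toFl A β v e f' a')) := by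
    rintro Θ ⟨t1, t2, t3⟩
    rcases h3 _ _ _ k1 k2 k3 rfl rfl rfl rfl rfl rfl (t1.symm.trans t2) (t1.symm.trans t3)
      with h | h | h
    · exact n12 h
    · exact n13 h
    · exact n23 h
  have hX : ∃ X : Fl, X.e = rep1 A β e ∧ Eqv (img A β) Φ X := by
    by_contra hcon
    push Not at hcon
    exact key Ψ ⟨(hall _ k1).resolve_left (hcon _ rfl), (hall _ k2).resolve_left (hcon _ rfl),
      (hall _ k3).resolve_left (hcon _ rfl)⟩
  have hY : ∃ X : Fl, X.e = rep1 A β e ∧ Eqv (img A β) Ψ X := by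
    by_contra hcon
    push Not at hcon
    exact key Φ ⟨(hall _ k1).resolve_right (hcon _ rfl), (hall _ k2).resolve_right (hcon _ rfl),
      (hall _ k3).resolve_right (hcon _ rfl)⟩
  rcases hall Z hZ with h | h
  · obtain ⟨X, hX1, hX2⟩ := hX
    exact ⟨X, hX1, h.symm.trans hX2⟩
  · obtain ⟨X, hX1, hX2⟩ := hY
    exact ⟨X, hX1, h.symm.trans hX2⟩

theorem caseA (hF : Faithful A β) (h2 : AtMostTwo (img A β)) {v e : P} (hv : A.rank v = 0)
    (he : A.rank e = 1) (hve : v < e)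
    (h3 : ∀ X Y Z : Fl, IsFl (img A β) X → IsFl (img A β) Y → IsFl (img A β) Z →
      X.v = β v → Y.v = β v → Z.v = β v → X.e = rep1 A β e → Y.e = rep1 A β e →
      Z.e = rep1 A β e → Eqv (img A β) X Y → Eqv (img A β) X Z → X = Y ∨ X = Z ∨ Y = Z) :
    False := by
  refine thin_edges hF fun e' he' f₁ f₂ f₃ r₁ r₂ r₃ l₁ l₂ l₃ => ?_
  have h4 : A.bot < e' := A.bot_lt (by rw [he']; norm_num)
  obtain ⟨v', -, hve', rv'⟩ := A.exists_between h4 0 (by rw [A.rank_bot]; norm_num)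
    (by rw [he']; norm_num)
  obtain ⟨c, -, -, fc, -, rc, -⟩ := orba_two A r₁
  obtain ⟨X, hXe, g, hg, hgX⟩ := orba_all hF h2 hv he hve h3 (toFl A β v' e' f₁ c)
    (isFl_img hF rv' he' r₁ rc hve' l₁ fc)
  have hge : m1 g (rep1 A β e') = rep1 A β e := by
    rw [← hXe, ← hgX]
    rfl
  have key : ∀ f, A.rank f = 2 → e' < f →
      ∃ f', A.rank f' = 2 ∧ e < f' ∧ rep2 A β f' = m2 g (rep2 A β f) := by
    intro f rf hf
    have h5 : m2 g (rep2 A β f) ∈ (img A β).F := hg.memF.2 ⟨f, rf, rfl⟩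
    obtain ⟨f', rf', hf'⟩ := h5
    have h6 : rep1 A β e ∈ rep2 A β f' := by
      rw [hf', ← hge, mem_m2]
      exact (mem_rep2 hF he').2 hf.le
    have h7 : e ≤ f' := (mem_rep2 hF he).1 h6
    refine ⟨f', rf', lt_of_le_of_ne h7 fun h => ?_, hf'⟩
    rw [h, rf'] at he
    norm_num at he
  obtain ⟨g₁, s₁, t₁, u₁⟩ := key f₁ r₁ l₁
  obtain ⟨g₂, s₂, t₂, u₂⟩ := key f₂ r₂ l₂
  obtain ⟨g₃, s₃, t₃, u₃⟩ := key f₃ r₃ l₃
  rcases orba_atmost hF h2 hv he hve h3 g₁ g₂ g₃ s₁ s₂ s₃ t₁ t₂ t₃ with h | h | h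
  · left
    apply hF.f2 f₁ f₂ r₁ r₂
    apply m2_inj g
    rw [← u₁, ← u₂, h]
  · right
    left
    apply hF.f2 f₁ f₃ r₁ r₃
    apply m2_inj g
    rw [← u₁, ← u₃, h]
  · right
    right
    apply hF.f2 f₂ f₃ r₂ r₃
    apply m2_inj g
    rw [← u₂, ← u₃, h]

private theorem orbB_flag (A : AbsPoly 4 P) {e : P} (he : A.rank e = 1) :
    ∃ f c, A.rank f = 2 ∧ A.rank c = 3 ∧ e < f ∧ f < c := by
  have h1 : e < A.top := A.lt_top (by rw [he]; norm_num)
  obtain ⟨c, hc1, hc2, hc3⟩ := A.exists_between h1 3 (by rw [he]; norm_num)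
    (by rw [A.rank_top]; norm_num)
  obtain ⟨f, hf1, hf2, hf3⟩ := A.exists_between hc1 2 (by rw [he]; norm_num)
    (by rw [hc3]; norm_num)
  exact ⟨f, c, hf3, hc3, hf1, hf2⟩

private theorem orbB_lt {A : AbsPoly 4 P} {x y : P} (h : x ≤ y) (hr : A.rank x ≠ A.rank y) :
    x < y := by
  refine lt_of_le_of_ne h fun h' => hr ?_
  rw [h']

/-- `X`, `Y`, `Z` belong to two classes: two of them are equivalent. -/
private theorem orbB_pig {K : Geo} {Φ₀ Ψ₀ X Y Z : Fl}
    (hX : Eqv K Φ₀ X ∨ Eqv K Ψ₀ X) (hY : Eqv K Φ₀ Y ∨ Eqv K Ψ₀ Y) (hZ : Eqv K Φ₀ Z ∨ Eqv K Ψ₀ Z) :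
    Eqv K X Y ∨ Eqv K X Z ∨ Eqv K Y Z := by
  rcases hX with h1 | h1 <;> rcases hY with h2 | h2 <;> rcases hZ with h3 | h3
  · exact Or.inl (h1.symm.trans h2)
  · exact Or.inl (h1.symm.trans h2)
  · exact Or.inr (Or.inl (h1.symm.trans h3))
  · exact Or.inr (Or.inr (h2.symm.trans h3))
  · exact Or.inr (Or.inr (h2.symm.trans h3))
  · exact Or.inr (Or.inl (h1.symm.trans h3))
  · exact Or.inl (h1.symm.trans h2)
  · exact Or.inl (h1.symm.trans h2)

theorem caseB (hF : Faithful A β) (h2 : AtMostTwo (img A β)) {v : P} (hv : A.rank v = 0)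
    (h3 : ∀ e, A.rank e = 1 → v < e → ∀ g, IsSym (img A β) g → g (β v) = β v →
      m1 g (rep1 A β e) = rep1 A β e) : False := by
  obtain ⟨Φ₀, Ψ₀, hΦ, hΨ, hall⟩ := h2
  -- (1)
  have c1 : ∀ e e' f f' c c', A.rank e = 1 → A.rank e' = 1 → v < e → v < e' →
      Eqv (img A β) (toFl A β v e f c) (toFl A β v e' f' c') → e = e' := by
    rintro e e' f f' c c' he he' hve hve' ⟨g, hg, hgg⟩
    have g1 : g (β v) = β v := congrArg Fl.v hgg
    have g2 : m1 g (rep1 A β e) = rep1 A β e' := congrArg Fl.e hgg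
    rw [h3 e he hve g hg g1] at g2
    exact hF.f1 e e' he he' g2
  -- (2)
  have c2 : ∀ e₁ e₂ e₃, A.rank e₁ = 1 → A.rank e₂ = 1 → A.rank e₃ = 1 →
      v < e₁ → v < e₂ → v < e₃ → e₁ = e₂ ∨ e₁ = e₃ ∨ e₂ = e₃ := by
    intro e₁ e₂ e₃ r1 r2 r3 l1 l2 l3
    obtain ⟨f₁, k₁, a1, a2, a3, a4⟩ := orbB_flag A r1
    obtain ⟨f₂, k₂, b1, b2, b3, b4⟩ := orbB_flag A r2
    obtain ⟨f₃, k₃, d1, d2, d3, d4⟩ := orbB_flag A r3
    rcases orbB_pig (hall _ (isFl_img hF hv r1 a1 a2 l1 a3 a4))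
      (hall _ (isFl_img hF hv r2 b1 b2 l2 b3 b4))
      (hall _ (isFl_img hF hv r3 d1 d2 l3 d3 d4)) with h | h | h
    · exact Or.inl (c1 _ _ _ _ _ _ r1 r2 l1 l2 h)
    · exact Or.inr (Or.inl (c1 _ _ _ _ _ _ r1 r3 l1 l3 h))
    · exact Or.inr (Or.inr (c1 _ _ _ _ _ _ r2 r3 l2 l3 h))
  -- (3)
  have c3 : ∀ Z, IsFl (img A β) Z → ∃ g, IsSym (img A β) g ∧ g Z.v = β v := by
    obtain ⟨e, he, hve⟩ := exists_edge A hv
    obtain ⟨f, k, a1, a2, a3, a4⟩ := orbB_flag A he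
    obtain ⟨a, b, hab, va, af, vb, bf, ra, rb, -⟩ := A.exists_two (x := v) (y := f)
      (hve.trans a3) (by rw [hv, a1]; norm_num)
    rw [hv, zero_add] at ra rb
    have fa := isFl_img hF hv ra a1 a2 va af a4
    have fb := isFl_img hF hv rb a1 a2 vb bf a4
    have nab : ¬ Eqv (img A β) (toFl A β v a f k) (toFl A β v b f k) :=
      fun h => hab (c1 _ _ _ _ _ _ ra rb va vb h)
    intro Z hZ
    have key : Eqv (img A β) Z (toFl A β v a f k) ∨ Eqv (img A β) Z (toFl A β v b f k) := by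
      rcases orbB_pig (hall _ hZ) (hall _ fa) (hall _ fb) with h | h | h
      · exact Or.inl h
      · exact Or.inr h
      · exact absurd h nab
    rcases key with ⟨g, hg, hgg⟩ | ⟨g, hg, hgg⟩
    · exact ⟨g, hg, congrArg Fl.v hgg⟩
    · exact ⟨g, hg, congrArg Fl.v hgg⟩
  -- (4)
  refine thin_vertices hF fun v' hv' e₁ e₂ e₃ r1 r2 r3 l1 l2 l3 => ?_
  obtain ⟨f₁, k₁, a1, a2, a3, a4⟩ := orbB_flag A r1
  obtain ⟨g, hg, hgv⟩ := c3 _ (isFl_img hF hv' r1 a1 a2 l1 a3 a4)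
  have hgv' : g (β v') = β v := hgv
  have c4 : ∀ e, A.rank e = 1 → v' < e →
      ∃ e', A.rank e' = 1 ∧ v < e' ∧ rep1 A β e' = m1 g (rep1 A β e) := by
    intro e he hve
    have hE : rep1 A β e ∈ (img A β).E := ⟨e, he, rfl⟩
    obtain ⟨e', he', hee⟩ := hg.memE.2 hE
    refine ⟨e', he', ?_, hee⟩
    have h5 : β v ∈ rep1 A β e' := by
      rw [hee, ← hgv', mem_m1]
      exact (mem_rep1 hF hv').2 hve.le
    have h6 := (mem_rep1 hF hv).1 h5
    exact orbB_lt h6 (by rw [hv, he']; norm_num)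
  obtain ⟨e₁', r1', l1', q1⟩ := c4 e₁ r1 l1
  obtain ⟨e₂', r2', l2', q2⟩ := c4 e₂ r2 l2
  obtain ⟨e₃', r3', l3', q3⟩ := c4 e₃ r3 l3
  rcases c2 e₁' e₂' e₃' r1' r2' r3' l1' l2' l3' with h | h | h
  · left
    rw [h, q2] at q1
    exact (hF.f1 _ _ r2 r1 (m1_inj g q1)).symm
  · right
    left
    rw [h, q3] at q1
    exact (hF.f1 _ _ r3 r1 (m1_inj g q1)).symm
  · right
    right
    rw [h, q3] at q2
    exact (hF.f1 _ _ r3 r2 (m1_inj g q2)).symm

end Pool.Agent.Lib.MP_eed79e_coW
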