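import Pool.Agent.Lib.MP_eed79e_coW.Tr

/-!
# JOB Sym: isomorphisms of polytopes and isometries

`θ : P ≃o P'` preserves the ranks, `g` is a permutation of `H3` with `β' (θ v) = g (β v)` for the vertices `v` of `P`.

PROOFS.
* `m1_rep1`: the elements of `rep1 A' β' (θ e)` are the `β' v'` with `v'` of rank `0`, `v' ≤ θ e`. Write `v' = θ v`: `v` has rank `0`, `v ≤ e` (`θ.le_iff_le`), `β' (θ v) = g (β v)`. `m2_rep2`, `m3_rep3`: the same with `m1_rep1`, `m2_rep2` instead of `hβ`.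
* `img_map`: componentwise (`Geo.ext`): the same argument without the condition `≤`.
* `map_toFl`: the definitions. `isSym_of`: `img_map` for `P' = P`.
* `faithful_of`: `g = 1`, `β v = β' (θ v)` for vertices: `rep1 A β e = rep1 A' β' (θ e)` (from `m1_rep1` and `m1_one`), ...; `β x = β y` gives `θ x = θ y`, so `x = y`, and so on.
-/

set_option autoImplicit false

namespace Pool.Agent.Lib.MP_eed79e_coW

section

variable {P P' : Type} [PartialOrder P] [PartialOrder P'] {A : AbsPoly 4 P} {A' : AbsPoly 4 P'}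
  {β : P → H3} {β' : P' → H3} {g : Equiv.Perm H3} (θ : P ≃o P')
  (hr : ∀ p, A'.rank (θ p) = A.rank p) (hβ : ∀ v, A.rank v = 0 → β' (θ v) = g (β v))

include hr hβ

theorem m1_rep1 (e : P) : m1 g (rep1 A β e) = rep1 A' β' (θ e) := by
  ext x
  constructor
  · rintro ⟨_, ⟨v, hv, hve, rfl⟩, rfl⟩
    exact ⟨θ v, (hr v).trans hv, θ.le_iff_le.2 hve, hβ v hv⟩
  · rintro ⟨v', hv', hle, rfl⟩
    obtain ⟨v, rfl⟩ := θ.surjective v'
    have hv : A.rank v = 0 := (hr v).symm.trans hv'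
    exact ⟨β v, ⟨v, hv, θ.le_iff_le.1 hle, rfl⟩, (hβ v hv).symm⟩

theorem m2_rep2 (f : P) : m2 g (rep2 A β f) = rep2 A' β' (θ f) := by
  ext x
  constructor
  · rintro ⟨_, ⟨e, he, hef, rfl⟩, rfl⟩
    exact ⟨θ e, (hr e).trans he, θ.le_iff_le.2 hef, (m1_rep1 θ hr hβ e).symm⟩
  · rintro ⟨e', he', hle, rfl⟩
    obtain ⟨e, rfl⟩ := θ.surjective e'
    have he : A.rank e = 1 := (hr e).symm.trans he'
    exact ⟨rep1 A β e, ⟨e, he, θ.le_iff_le.1 hle, rfl⟩, m1_rep1 θ hr hβ e⟩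

theorem m3_rep3 (c : P) : m3 g (rep3 A β c) = rep3 A' β' (θ c) := by
  ext x
  constructor
  · rintro ⟨_, ⟨f, hf, hfc, rfl⟩, rfl⟩
    exact ⟨θ f, (hr f).trans hf, θ.le_iff_le.2 hfc, (m2_rep2 θ hr hβ f).symm⟩
  · rintro ⟨f', hf', hle, rfl⟩
    obtain ⟨f, rfl⟩ := θ.surjective f'
    have hf : A.rank f = 2 := (hr f).symm.trans hf'
    exact ⟨rep2 A β f, ⟨f, hf, θ.le_iff_le.1 hle, rfl⟩, m2_rep2 θ hr hβ f⟩

theorem img_map : (img A β).map g = img A' β' := by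
  refine Geo.ext ?_ ?_ ?_ ?_
  · ext x
    constructor
    · rintro ⟨_, ⟨v, hv, rfl⟩, rfl⟩
      exact ⟨θ v, (hr v).trans hv, hβ v hv⟩
    · rintro ⟨v', hv', rfl⟩
      obtain ⟨v, rfl⟩ := θ.surjective v'
      have hv : A.rank v = 0 := (hr v).symm.trans hv'
      exact ⟨β v, ⟨v, hv, rfl⟩, (hβ v hv).symm⟩
  · ext x
    constructor
    · rintro ⟨_, ⟨v, hv, rfl⟩, rfl⟩
      exact ⟨θ v, (hr v).trans hv, (m1_rep1 θ hr hβ v).symm⟩
    · rintro ⟨v', hv', rfl⟩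
      obtain ⟨v, rfl⟩ := θ.surjective v'
      have hv : A.rank v = 1 := (hr v).symm.trans hv'
      exact ⟨rep1 A β v, ⟨v, hv, rfl⟩, m1_rep1 θ hr hβ v⟩
  · ext x
    constructor
    · rintro ⟨_, ⟨v, hv, rfl⟩, rfl⟩
      exact ⟨θ v, (hr v).trans hv, (m2_rep2 θ hr hβ v).symm⟩
    · rintro ⟨v', hv', rfl⟩
      obtain ⟨v, rfl⟩ := θ.surjective v'
      have hv : A.rank v = 2 := (hr v).symm.trans hv'
      exact ⟨rep2 A β v, ⟨v, hv, rfl⟩, m2_rep2 θ hr hβ v⟩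
  · ext x
    constructor
    · rintro ⟨_, ⟨v, hv, rfl⟩, rfl⟩
      exact ⟨θ v, (hr v).trans hv, (m3_rep3 θ hr hβ v).symm⟩
    · rintro ⟨v', hv', rfl⟩
      obtain ⟨v, rfl⟩ := θ.surjective v'
      have hv : A.rank v = 3 := (hr v).symm.trans hv'
      exact ⟨rep3 A β v, ⟨v, hv, rfl⟩, m3_rep3 θ hr hβ v⟩

theorem map_toFl {v : P} (hv : A.rank v = 0) (e f c : P) :
    (toFl A β v e f c).map g = toFl A' β' (θ v) (θ e) (θ f) (θ c) :=
  Fl.ext (hβ v hv).symm (m1_rep1 θ hr hβ e) (m2_rep2 θ hr hβ f) (m3_rep3 θ hr hβ c)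

end

theorem faithful_of {P P' : Type} [PartialOrder P] [PartialOrder P'] {A : AbsPoly 4 P}
    {A' : AbsPoly 4 P'} {β' : P' → H3} (θ : P ≃o P') (hr : ∀ p, A'.rank (θ p) = A.rank p)
    (h : Faithful A' β') : Faithful A (fun p => β' (θ p)) ∧ img A (fun p => β' (θ p)) = img A' β' := by
  have hβ : ∀ v, A.rank v = 0 → β' (θ v) = (1 : Equiv.Perm H3) ((fun p => β' (θ p)) v) :=
    fun v _ => rfl
  have e1 : ∀ e, rep1 A (fun p => β' (θ p)) e = rep1 A' β' (θ e) := by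
    intro e
    rw [← m1_rep1 θ hr hβ e, m1_one]
  have e2 : ∀ e, rep2 A (fun p => β' (θ p)) e = rep2 A' β' (θ e) := by
    intro e
    rw [← m2_rep2 θ hr hβ e, m2_one]
  have e3 : ∀ e, rep3 A (fun p => β' (θ p)) e = rep3 A' β' (θ e) := by
    intro e
    rw [← m3_rep3 θ hr hβ e, m3_one]
  refine ⟨⟨?_, ?_, ?_, ?_⟩, ?_⟩
  · intro x y hx hy hxy
    exact θ.injective (h.f0 _ _ ((hr x).trans hx) ((hr y).trans hy) hxy)
  · intro x y hx hy hxy
    rw [e1, e1] at hxy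
    exact θ.injective (h.f1 _ _ ((hr x).trans hx) ((hr y).trans hy) hxy)
  · intro x y hx hy hxy
    rw [e2, e2] at hxy
    exact θ.injective (h.f2 _ _ ((hr x).trans hx) ((hr y).trans hy) hxy)
  · intro x y hx hy hxy
    rw [e3, e3] at hxy
    exact θ.injective (h.f3 _ _ ((hr x).trans hx) ((hr y).trans hy) hxy)
  · rw [← img_map θ hr hβ, Geo.map_one]

theorem isSym_of {P : Type} [PartialOrder P] {A : AbsPoly 4 P} {β : P → H3} {g : Equiv.Perm H3}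
    (hg : IsIsom g) (θ : P ≃o P) (hr : ∀ p, A.rank (θ p) = A.rank p)
    (hβ : ∀ v, A.rank v = 0 → β (θ v) = g (β v)) : IsSym (img A β) g :=
  ⟨hg, img_map θ hr hβ⟩

/-- The edge lengths are invariant under isometries. -/
theorem lens_cong {K K' : Geo} (h : Cong K K') : lens K = lens K' := by
  obtain ⟨g, hg, rfl⟩ := h
  ext d
  constructor
  · rintro ⟨e, he, x, hx, y, hy, hxy, hd⟩
    exact ⟨m1 g e, (mem_m2 g).2 he, g x, (mem_m1 g).2 hx, g y, (mem_m1 g).2 hy,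
      g.injective.ne hxy, (hg x y).trans hd⟩
  · rintro ⟨_, ⟨e, he, rfl⟩, _, ⟨x, hx, rfl⟩, _, ⟨y, hy, rfl⟩, hxy, hd⟩
    exact ⟨e, he, x, hx, y, hy, fun h => hxy (by rw [h]), (hg x y).symm.trans hd⟩

end Pool.Agent.Lib.MP_eed79e_coW
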