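import Pool.Agent.Lib.MP_eed79e_coW.CosP
import Pool.Agent.Lib.MP_eed79e_coW.Sym

/-!
# JOB Rea: the realization of the polytope of the cosets

`M` mirrors, `W = wJ M.r univ` the group generated by the reflections, `Q` a polyhedron with vertex set `ι`. The vertex `{x}`, `x ∈ W`, is mapped to `x o`.

JOB ReaA: `bt_vertex` ... `bt_faithful`. JOB ReaB: `KK_V`, `KK_geom`, `KK_lens`.

PROOFS.
* `bt_vertex`: the chosen element of `S.1 = {x}` is `x`.
* `face_mem`: `S.1 = co r y J` with `y ∈ W`, `y⁻¹ x ∈ W_J ≤ W` (`Subgroup.closure_mono`), `x = y (y⁻¹ x)`.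
* `cpv_val`: `co_empty`. `cpv_le`: `{x} ⊆ S.1`. `cpv_rank`: `rank_cpf`, `Q.rk_empty`.
* `orb_inj`: `x o = y o` gives `(y⁻¹ x) o = o`, so `y⁻¹ x = 1` (`mir_stab`).
* `rep1_cp`: if `v` has rank `0` then `v.1 = {x}`, `x ∈ W` (`vertex_iff`), `v ≤ e` iff `x ∈ e.1`, `bt v = x o`. Conversely for `x ∈ e.1` take `cpv x`.
* `face_cover`: if `S` has rank `> k`, `0 < k`, `x ∈ S.1` then `cpv x < S` (`≤` and the ranks differ), and there is `e` of rank `k` with `cpv x < e < S` (`exists_between`), so `x ∈ e.1`, `e ≤ S`.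
* `bt_faithful`: f0: `bt S = bt S'`, `S.1 = {x}`, `S'.1 = {y}`: `orb_inj`. f1: `rep1_cp`, `Set.InjOn.image_eq_image_iff` (faces are subsets of `W`). f2: it is enough to show that `S.1 ⊆ S'.1` if `rep2 S = rep2 S'` (both have rank `2`): for `x ∈ S.1` take `e` of rank `1`, `x ∈ e.1`, `e ≤ S` (`face_cover`);
  `rep1 e ∈ rep2 S = rep2 S'`, so there is `e' ≤ S'` of rank `1` with `rep1 e' = rep1 e`, `e' = e` by f1, so `x ∈ S'.1`. f3: the same one level higher (rank `3`, faces of rank `2`, f2).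
* `KK_V`: the vertices. `KK_geom`: `IsImg`: the data; `Disc`: `mir_disc`, `KK_V`.
* `edge_eq`: a face of rank `1` is `cpf x {i}` (`S.1 = co r x J`, `Q.rk J = 0`, `rk_zero`), with `rep1 = {x o, x (r i o)}`: the elements of `co r x {i}` are `x` and `x * r i` (`W_{i} = {1, r i}`: `Subgroup.closure_induction` or `Subgroup.mem_closure_singleton`), `(x * r i) o = x (r i o)`.
* `KK_lens`: for an edge `{x o, x (r i o)}` the distance of the two different points is `hdist o (r i o)` (`x` is an isometry: `wJ_isom`: closure induction; `hdist` is symmetric by `lor_comm`). Conversely for `i` the edge `cpf 1 {i}`: `o` and `r i o` are different (`r i ≠ 1` by `Cox.sep` with `J = ∅`: `r i = 1 ∈ wJ r ∅`; `mir_stab`).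
-/

set_option autoImplicit false

namespace Pool.Agent.Lib.MP_eed79e_coW

variable {ι : Type} [Fintype ι] [DecidableEq ι] (M : Mir ι) (Q : Fig ι)

open Classical in
/-- The realization: the vertex `{x}` is mapped to `x o`. -/
noncomputable def bt (S : CP M.r Q) : H3 := if h : S.1.Nonempty then h.some o else o

theorem bt_vertex {S : CP M.r Q} {x : Equiv.Perm H3} (h : S.1 = {x}) : bt M Q S = x o := by
  have hne : S.1.Nonempty := by
    rw [h]
    exact Set.singleton_nonempty x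
  have h1 : ∀ y ∈ S.1, y = x := by
    intro y hy
    rw [h] at hy
    exact hy
  unfold bt
  rw [dif_pos hne, h1 _ hne.some_mem]

theorem face_mem {S : CP M.r Q} {x : Equiv.Perm H3} (hx : x ∈ S.1) : x ∈ wJ M.r Set.univ := by
  rcases S.2 with h | ⟨y, hy, J, hJ, h⟩
  · rw [h] at hx
    exact hx.elim
  · rw [h] at hx
    have h1 : y⁻¹ * x ∈ wJ M.r (J : Set ι) := hx
    have h2 : y⁻¹ * x ∈ wJ M.r Set.univ :=
      Subgroup.closure_mono (Set.image_mono (Set.subset_univ _)) h1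
    have h3 := mul_mem hy h2
    rwa [mul_inv_cancel_left] at h3

/-- The vertex `{x}`. -/
def cpv (x : Equiv.Perm H3) (hx : x ∈ wJ M.r Set.univ) : CP M.r Q := cpf M.r Q x hx ∅ Q.empty_mem

theorem cpv_val (x : Equiv.Perm H3) (hx : x ∈ wJ M.r Set.univ) : (cpv M Q x hx).1 = {x} :=
  co_empty x

theorem cpv_le (x : Equiv.Perm H3) (hx : x ∈ wJ M.r Set.univ) (S : CP M.r Q) :
    cpv M Q x hx ≤ S ↔ x ∈ S.1 := by
  change (cpv M Q x hx).1 ⊆ S.1 ↔ x ∈ S.1
  rw [cpv_val, Set.singleton_subset_iff]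

theorem cpv_rank (x : Equiv.Perm H3) (hx : x ∈ wJ M.r Set.univ) :
    (cpP (mir_cox M) Q).rank (cpv M Q x hx) = 0 := by
  unfold cpv
  rw [rank_cpf, Q.rk_empty]
  norm_num

theorem orb_inj {x y : Equiv.Perm H3} (hx : x ∈ wJ M.r Set.univ) (hy : y ∈ wJ M.r Set.univ)
    (h : x o = y o) : x = y := by
  have h1 : (y⁻¹ * x) o = o := by
    rw [Equiv.Perm.mul_apply, h, ← Equiv.Perm.mul_apply, inv_mul_cancel, Equiv.Perm.one_apply]
  have h2 := mir_stab M (mul_mem (inv_mem hy) hx) h1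
  exact (inv_mul_eq_one.1 h2).symm

theorem rep1_cp (e : CP M.r Q) :
    rep1 (cpP (mir_cox M) Q) (bt M Q) e = (fun x : Equiv.Perm H3 => x o) '' e.1 := by
  ext y
  constructor
  · rintro ⟨v, hv, hve, rfl⟩
    obtain ⟨x, hx, hvx⟩ := (vertex_iff (mir_cox M) v).1 hv
    refine ⟨x, ?_, (bt_vertex M Q hvx).symm⟩
    have h1 : v.1 ⊆ e.1 := hve
    apply h1
    rw [hvx]
    exact rfl
  · rintro ⟨x, hx, rfl⟩
    have hxW := face_mem M Q hx
    exact ⟨cpv M Q x hxW, cpv_rank M Q x hxW, (cpv_le M Q x hxW e).2 hx,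
      bt_vertex M Q (cpv_val M Q x hxW)⟩

theorem face_cover {S : CP M.r Q} {k : ℤ} (hk : 0 < k) (hS : k < (cpP (mir_cox M) Q).rank S)
    {x : Equiv.Perm H3} (hx : x ∈ S.1) :
    ∃ e, (cpP (mir_cox M) Q).rank e = k ∧ e ≤ S ∧ x ∈ e.1 := by
  have hxW := face_mem M Q hx
  have h1 : cpv M Q x hxW < S := by
    refine lt_of_le_of_ne ((cpv_le M Q x hxW S).2 hx) fun h2 => ?_
    rw [← h2, cpv_rank] at hS
    exact lt_asymm hk hS
  obtain ⟨e, h2, h3, h4⟩ := (cpP (mir_cox M) Q).exists_between h1 k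
    (by rw [cpv_rank]; exact hk) hS
  exact ⟨e, h4, h3.le, (cpv_le M Q x hxW e).1 h2.le⟩

private theorem reaa_inj1 {e e' : CP M.r Q}
    (h : rep1 (cpP (mir_cox M) Q) (bt M Q) e = rep1 (cpP (mir_cox M) Q) (bt M Q) e') : e = e' := by
  rw [rep1_cp, rep1_cp] at h
  have hinj : Set.InjOn (fun x : Equiv.Perm H3 => x o) (wJ M.r Set.univ : Set (Equiv.Perm H3)) :=
    fun x hx y hy hxy => orb_inj M hx hy hxy
  exact Subtype.ext ((hinj.image_eq_image_iff (fun x hx => face_mem M Q hx)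
    (fun x hx => face_mem M Q hx)).1 h)

private theorem reaa_sub2 {S S' : CP M.r Q} (hS : (cpP (mir_cox M) Q).rank S = 2)
    (h : rep2 (cpP (mir_cox M) Q) (bt M Q) S = rep2 (cpP (mir_cox M) Q) (bt M Q) S') :
    S ≤ S' := by
  change S.1 ⊆ S'.1
  intro x hx
  obtain ⟨e, he, heS, hxe⟩ := face_cover M Q (k := 1) (by norm_num)
    (by rw [hS]; norm_num) hx
  have h1 : rep1 (cpP (mir_cox M) Q) (bt M Q) e ∈ rep2 (cpP (mir_cox M) Q) (bt M Q) S :=
    ⟨e, he, heS, rfl⟩
  rw [h] at h1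
  obtain ⟨e', he', heS', h2⟩ := h1
  have h3 := reaa_inj1 M Q h2
  subst h3
  exact (show e'.1 ⊆ S'.1 from heS') hxe

private theorem reaa_inj2 {S S' : CP M.r Q} (hS : (cpP (mir_cox M) Q).rank S = 2)
    (hS' : (cpP (mir_cox M) Q).rank S' = 2)
    (h : rep2 (cpP (mir_cox M) Q) (bt M Q) S = rep2 (cpP (mir_cox M) Q) (bt M Q) S') : S = S' :=
  le_antisymm (reaa_sub2 M Q hS h) (reaa_sub2 M Q hS' h.symm)

private theorem reaa_sub3 {S S' : CP M.r Q} (hS : (cpP (mir_cox M) Q).rank S = 3)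
    (h : rep3 (cpP (mir_cox M) Q) (bt M Q) S = rep3 (cpP (mir_cox M) Q) (bt M Q) S') :
    S ≤ S' := by
  change S.1 ⊆ S'.1
  intro x hx
  obtain ⟨e, he, heS, hxe⟩ := face_cover M Q (k := 2) (by norm_num)
    (by rw [hS]; norm_num) hx
  have h1 : rep2 (cpP (mir_cox M) Q) (bt M Q) e ∈ rep3 (cpP (mir_cox M) Q) (bt M Q) S :=
    ⟨e, he, heS, rfl⟩
  rw [h] at h1
  obtain ⟨e', he', heS', h2⟩ := h1
  have h3 := reaa_inj2 M Q he' he h2
  subst h3
  exact (show e'.1 ⊆ S'.1 from heS') hxe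

theorem bt_faithful : Faithful (cpP (mir_cox M) Q) (bt M Q) where
  f0 S S' hS hS' h := by
    obtain ⟨x, hx, hSx⟩ := (vertex_iff (mir_cox M) S).1 hS
    obtain ⟨y, hy, hSy⟩ := (vertex_iff (mir_cox M) S').1 hS'
    rw [bt_vertex M Q hSx, bt_vertex M Q hSy] at h
    have h1 := orb_inj M hx hy h
    subst h1
    exact Subtype.ext (hSx.trans hSy.symm)
  f1 S S' _ _ h := reaa_inj1 M Q h
  f2 S S' hS hS' h := reaa_inj2 M Q hS hS' h
  f3 S S' hS hS' h := le_antisymm (reaa_sub3 M Q hS h) (reaa_sub3 M Q hS' h.symm)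

/-- The image of the realization. -/
noncomputable def KK : Geo := img (cpP (mir_cox M) Q) (bt M Q)

theorem KK_V : (KK M Q).V = {y | ∃ x ∈ wJ M.r Set.univ, x o = y} := by
  ext y
  constructor
  · rintro ⟨S, hS, rfl⟩
    obtain ⟨x, hx, hSx⟩ := (vertex_iff (mir_cox M) S).1 hS
    exact ⟨x, hx, (bt_vertex M Q hSx).symm⟩
  · rintro ⟨x, hx, rfl⟩
    exact ⟨cpv M Q x hx, cpv_rank M Q x hx, bt_vertex M Q (cpv_val M Q x hx)⟩


theorem KK_geom : IsGeom4 (KK M Q) := by
  refine ⟨⟨CP M.r Q, inferInstance, cpP (mir_cox M) Q, bt M Q, bt_faithful M Q, rfl⟩, ?_⟩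
  rw [KK_V]
  exact mir_disc M


theorem wJ_isom {x : Equiv.Perm H3} (hx : x ∈ wJ M.r Set.univ) : IsIsom x := by
  unfold wJ at hx
  induction hx using Subgroup.closure_induction with
  | mem x hx =>
    obtain ⟨i, -, rfl⟩ := hx
    exact rfl3_isom (M.unit i)
  | one => exact isIsom_one
  | mul x y _ _ hx hy => exact hx.mul hy
  | inv x _ hx => exact hx.inv


omit [DecidableEq ι] in
private theorem reab_sing {x : Equiv.Perm H3} {i : ι}
    (hx : x ∈ wJ M.r (({i} : Finset ι) : Set ι)) : x = 1 ∨ x = M.r i := by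
  have hinv : M.r i * M.r i = 1 := (mir_cox M).inv i
  unfold wJ at hx
  rw [Finset.coe_singleton, Set.image_singleton] at hx
  induction hx using Subgroup.closure_induction with
  | mem x hx => exact Or.inr hx
  | one => exact Or.inl rfl
  | mul x y _ _ hx hy =>
    rcases hx with rfl | rfl <;> rcases hy with rfl | rfl
    · exact Or.inl (one_mul _)
    · exact Or.inr (one_mul _)
    · exact Or.inr (mul_one _)
    · exact Or.inl hinv
  | inv x _ hx =>
    rcases hx with rfl | rfl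
    · exact Or.inl inv_one
    · exact Or.inr (inv_eq_of_mul_eq_one_left hinv)

omit [DecidableEq ι] in
private theorem reab_img (x : Equiv.Perm H3) (i : ι) :
    (fun x : Equiv.Perm H3 => x o) '' co M.r x {i} = {x o, x (M.r i o)} := by
  ext z
  rw [Set.mem_insert_iff, Set.mem_singleton_iff]
  constructor
  · rintro ⟨y, hy, rfl⟩
    rcases reab_sing M (show x⁻¹ * y ∈ wJ M.r (({i} : Finset ι) : Set ι) from hy) with h | h
    · left
      rw [inv_mul_eq_one] at h
      rw [h]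
    · right
      rw [inv_mul_eq_iff_eq_mul] at h
      rw [h]
      rfl
  · rintro (rfl | rfl)
    · exact ⟨x, mem_co_self x _, rfl⟩
    · exact ⟨x * M.r i, mem_co_mul x (Finset.mem_singleton_self i), rfl⟩

theorem edge_eq (e : CP M.r Q) (he : (cpP (mir_cox M) Q).rank e = 1) :
    ∃ x ∈ wJ M.r Set.univ, ∃ i, rep1 (cpP (mir_cox M) Q) (bt M Q) e = {x o, x (M.r i o)} := by
  rcases e.2 with h | ⟨x, hx, J, hJ, h⟩
  · rw [cpP_rank, h, rkS_empty] at he
    norm_num at he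
  · rw [cpP_rank, h, rkS_co (mir_cox M)] at he
    obtain ⟨i, rfl⟩ := rk_zero Q hJ (by linarith)
    refine ⟨x, hx, i, ?_⟩
    rw [rep1_cp, h]
    exact reab_img M x i


theorem rep1_edge (x : Equiv.Perm H3) (hx : x ∈ wJ M.r Set.univ) (i : ι) :
    rep1 (cpP (mir_cox M) Q) (bt M Q) (cpf M.r Q x hx {i} (Q.sing_mem i)) =
      {x o, x (M.r i o)} := by
  rw [rep1_cp]
  exact reab_img M x i


theorem KK_lens : lens (KK M Q) = {d | ∃ i, hdist o (M.r i o) = d} := by
  ext d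
  constructor
  · rintro ⟨_, ⟨e, he, rfl⟩, y, hy, z, hz, hyz, rfl⟩
    obtain ⟨x, hx, i, hxi⟩ := edge_eq M Q e he
    rw [hxi, Set.mem_insert_iff, Set.mem_singleton_iff] at hy hz
    have h1 := wJ_isom M hx o (M.r i o)
    refine ⟨i, ?_⟩
    rcases hy with rfl | rfl <;> rcases hz with rfl | rfl
    · exact absurd rfl hyz
    · exact h1.symm
    · rw [← h1]
      unfold hdist
      rw [lor_comm]
    · exact absurd rfl hyz
  · rintro ⟨i, rfl⟩
    have hr : (cpP (mir_cox M) Q).rank (cpf M.r Q 1 (one_mem _) {i} (Q.sing_mem i)) = 1 := by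
      rw [rank_cpf, Q.rk_sing]
      norm_num
    have he := rep1_edge M Q 1 (one_mem _) i
    refine ⟨_, ⟨_, hr, rfl⟩, o, ?_, M.r i o, ?_, ?_, rfl⟩
    · rw [he]
      exact Or.inl rfl
    · rw [he]
      exact Or.inr rfl
    · intro h
      have h1 : M.r i = 1 :=
        mir_stab M (Subgroup.subset_closure ⟨i, Set.mem_univ i, rfl⟩) h.symm
      have h2 : i ∈ (∅ : Set ι) := (mir_cox M).sep i ∅ (by rw [h1]; exact one_mem _)
      exact h2


end Pool.Agent.Lib.MP_eed79e_coW
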