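import Pool.Agent.Lib.MP_eed79e_coW.Hyp

/-!
# JOB Refl: reflections in disjoint planes

PROOFS.
* `rfl3`: for a unit spacelike vector `n` (`lor n n = -1`) the map `x ↦ x + 2 lor x n • n`. `lor` is preserved; `0 < (..) 0` by `pos_of_lor_pos` with the point `x` itself: `lor x (x + 2 lor x n • n) = 1 + 2 (lor x n) ^ 2 > 0`. It is an involution: `lor (x + 2 lor x n • n) n = - lor x n`.
* `growth`: `ι` is finite, so there is `κ > 1` with `κ ≤ lor (n i) (n j)` for all `i ≠ j` and `s > 0` with `s ≤ n i 0` for all `i` (minimum over a finite set; if `ι` is empty or has one element take anything). Let `μ = min s (sqrt (κ ^ 2 - 1))`, `c = 2 μ s`.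
  (1) If `y` is a point with `lor y (n j) < 0` and `i ≠ j` then `lor y (n i) ≥ sqrt (κ ^ 2 - 1)`: let `κ' = lor (n i) (n j) ≥ κ`, `m = n i + κ' • n j`: `lor m m = -1 - κ' ^ 2 + 2 κ' ^ 2 = κ' ^ 2 - 1`, `m 0 > 0`, so `lor y m ≥ sqrt (κ' ^ 2 - 1)` by `lor_ge` and `lor y (n i) = lor y m - κ' lor y (n j) ≥ lor y m`.
  (2) `lor o (n i) = n i 0 ≥ s`.
  (3) Induction on `l`. `l = []`: `(o).1 0 = 1`. `l = i :: l'`: let `y = (l'.map r).prod o` (`Equiv.Perm.mul_apply`-like: `(f * g) x = f (g x)` by `rfl`). `a = lor y (n i) ≥ μ`: by (2) if `l' = []`, by (1) if `l' = j :: l''`, `i ≠ j` (the chain condition) and the second statement for `l'`.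
  `(r i y) 0 = y 0 + 2 a (n i 0) ≥ y 0 + 2 μ s`, and `lor (r i y) (n i) = - a < 0`.
-/

set_option autoImplicit false

namespace Pool.Agent.Lib.MP_eed79e_coW

/-- The base point. -/
def o : H3 := ⟨![1, 0, 0, 0], by
  refine ⟨?_, ?_⟩
  · unfold lor
    simp
  · simp⟩

/-- The vector `x + 2 lor x n • n`. -/
def rv (n x : Fin 4 → ℝ) : Fin 4 → ℝ := x + (2 * lor x n) • n

theorem lor_rv {n : Fin 4 → ℝ} (hn : lor n n = -1) (x y : Fin 4 → ℝ) :
    lor (rv n x) (rv n y) = lor x y := by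
  unfold rv
  rw [lor_add_left, lor_add_right, lor_add_right, lor_smul_left, lor_smul_left, lor_smul_right,
    lor_smul_right, hn, lor_comm n y]
  ring

theorem lor_rv_n {n : Fin 4 → ℝ} (hn : lor n n = -1) (x : Fin 4 → ℝ) :
    lor (rv n x) n = - lor x n := by
  unfold rv
  rw [lor_add_left, lor_smul_left, hn]
  ring

theorem rv_rv {n : Fin 4 → ℝ} (hn : lor n n = -1) (x : Fin 4 → ℝ) : rv n (rv n x) = x := by
  have h : rv n (rv n x) = rv n x + (2 * lor (rv n x) n) • n := rfl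
  rw [h, lor_rv_n hn]
  unfold rv
  rw [add_assoc, ← add_smul]
  have h2 : 2 * lor x n + 2 * -lor x n = 0 := by ring
  rw [h2, zero_smul, add_zero]

theorem rv_pos {n : Fin 4 → ℝ} (hn : lor n n = -1) (x : H3) : 0 < rv n x.1 0 := by
  refine pos_of_lor_pos (by rw [lor_rv hn, lor_self]) x ?_
  unfold rv
  rw [lor_add_right, lor_smul_right, lor_self]
  nlinarith [mul_self_nonneg (lor x.1 n)]

/-- The reflection in the plane orthogonal to the unit spacelike vector `n`. -/
def rfl3 (n : Fin 4 → ℝ) (hn : lor n n = -1) : Equiv.Perm H3 where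
  toFun x := ⟨rv n x.1, by rw [lor_rv hn, lor_self], rv_pos hn x⟩
  invFun x := ⟨rv n x.1, by rw [lor_rv hn, lor_self], rv_pos hn x⟩
  left_inv x := H3.ext (rv_rv hn x.1)
  right_inv x := H3.ext (rv_rv hn x.1)

theorem rfl3_coe {n : Fin 4 → ℝ} (hn : lor n n = -1) (x : H3) : (rfl3 n hn x).1 = rv n x.1 := rfl

theorem rfl3_isom {n : Fin 4 → ℝ} (hn : lor n n = -1) : IsIsom (rfl3 n hn) :=
  (isIsom_iff _).2 fun x y => lor_rv hn x.1 y.1

theorem rfl3_mul {n : Fin 4 → ℝ} (hn : lor n n = -1) : rfl3 n hn * rfl3 n hn = 1 :=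
  Equiv.ext fun x => H3.ext (rv_rv hn x.1)

/-- Mirrors: the planes orthogonal to the unit vectors `n i`; `o` is on the positive sides, and the planes are
pairwise disjoint. -/
structure Mir (ι : Type) where
  n : ι → Fin 4 → ℝ
  unit : ∀ i, lor (n i) (n i) = -1
  pos : ∀ i, 0 < n i 0
  sep : ∀ i j, i ≠ j → 1 < lor (n i) (n j)

/-- The reflections. -/
def Mir.r {ι : Type} (M : Mir ι) (i : ι) : Equiv.Perm H3 := rfl3 (M.n i) (M.unit i)

private theorem reflb_min {α : Type*} [Finite α] (f : α → ℝ) (c : ℝ) (h : ∀ a, c < f a) :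
    ∃ κ, c < κ ∧ ∀ a, κ ≤ f a := by
  rcases isEmpty_or_nonempty α with h0 | h0
  · exact ⟨c + 1, by linarith, fun a => h0.elim a⟩
  · obtain ⟨a, ha⟩ := Finite.exists_min f
    exact ⟨f a, h a, ha⟩

private theorem reflb_sep {ι : Type} (M : Mir ι) {κ : ℝ} (hκ : 1 < κ)
    (hsep : ∀ i j, i ≠ j → κ ≤ lor (M.n i) (M.n j)) (y : H3) {i j : ι} (hij : i ≠ j)
    (h : lor y.1 (M.n j) < 0) : Real.sqrt (κ ^ 2 - 1) ≤ lor y.1 (M.n i) := by
  set κ' := lor (M.n i) (M.n j) with hκ'
  have h1 : κ ≤ κ' := hsep i j hij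
  have h1' : 1 < κ' := hκ.trans_le h1
  have h2 : 0 < κ' ^ 2 - 1 := by nlinarith
  have h3 : 0 < (M.n i + κ' • M.n j) 0 := by
    rw [Pi.add_apply, Pi.smul_apply, smul_eq_mul]
    exact add_pos (M.pos i) (mul_pos (by linarith) (M.pos j))
  have h4 : lor (M.n i + κ' • M.n j) (M.n i + κ' • M.n j) = Real.sqrt (κ' ^ 2 - 1) ^ 2 := by
    rw [Real.sq_sqrt h2.le, lor_add_left, lor_add_right, lor_add_right, lor_smul_left,
      lor_smul_left, lor_smul_right, lor_smul_right, M.unit, M.unit, lor_comm (M.n j) (M.n i),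
      ← hκ']
    ring
  have h5 := lor_ge y _ h3 (Real.sqrt (κ' ^ 2 - 1)) (Real.sqrt_pos.mpr h2) h4
  rw [lor_add_right, lor_smul_right] at h5
  have h6 : Real.sqrt (κ ^ 2 - 1) ≤ Real.sqrt (κ' ^ 2 - 1) := Real.sqrt_le_sqrt (by nlinarith)
  nlinarith

theorem growth {ι : Type} [Finite ι] (M : Mir ι) : ∃ c : ℝ, 0 < c ∧
    ∀ l : List ι, List.IsChain (· ≠ ·) l →
      1 + c * l.length ≤ ((l.map M.r).prod o).1 0 ∧
      ∀ i l', l = i :: l' → lor ((l.map M.r).prod o).1 (M.n i) < 0 := by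
  obtain ⟨κ, hκ, hsep'⟩ := reflb_min (fun p : {p : ι × ι // p.1 ≠ p.2} => lor (M.n p.1.1) (M.n p.1.2)) 1
    (fun p => M.sep _ _ p.2)
  obtain ⟨s, hs, hs'⟩ := reflb_min (fun i => M.n i 0) 0 (fun i => M.pos i)
  have hsep : ∀ i j, i ≠ j → κ ≤ lor (M.n i) (M.n j) := fun i j hij => hsep' ⟨(i, j), hij⟩
  have hq : 0 < Real.sqrt (κ ^ 2 - 1) := Real.sqrt_pos.mpr (by nlinarith)
  set μ := min s (Real.sqrt (κ ^ 2 - 1)) with hμdef
  have hμ : 0 < μ := lt_min hs hq
  refine ⟨2 * μ * s, by positivity, fun l => ?_⟩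
  induction l with
  | nil =>
    intro _
    refine ⟨?_, fun i l' h => absurd h (by simp)⟩
    have h1 : ((([] : List ι).map M.r).prod o).1 0 = 1 := by
      show (o.1 0 : ℝ) = 1
      unfold o
      simp
    rw [h1, List.length_nil, Nat.cast_zero, mul_zero, add_zero]
  | cons i l' ih =>
    intro hch
    have hch' : List.IsChain (· ≠ ·) l' := by
      cases l' with
      | nil => exact List.isChain_nil
      | cons j l'' => exact (List.isChain_cons_cons.mp hch).2
    obtain ⟨ih1, ih2⟩ := ih hch'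
    set y : H3 := (l'.map M.r).prod o with hy
    have ha : μ ≤ lor y.1 (M.n i) := by
      cases l' with
      | nil =>
        have h1 : y = o := rfl
        have h2 : lor o.1 (M.n i) = M.n i 0 := by
          unfold o lor
          simp
        rw [h1, h2]
        exact (min_le_left _ _).trans (hs' i)
      | cons j l'' =>
        have h1 : i ≠ j := (List.isChain_cons_cons.mp hch).1
        exact (min_le_right _ _).trans (reflb_sep M hκ hsep y h1 (ih2 j l'' rfl))
    have hp : (((i :: l').map M.r).prod o).1 = rv (M.n i) y.1 := rfl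
    rw [hp]
    refine ⟨?_, fun i₀ l₀ he => ?_⟩
    · have h3 : rv (M.n i) y.1 0 = y.1 0 + 2 * lor y.1 (M.n i) * M.n i 0 := by
        unfold rv
        rw [Pi.add_apply, Pi.smul_apply, smul_eq_mul]
      rw [h3, List.length_cons, Nat.cast_add, Nat.cast_one]
      have h4 : μ * s ≤ lor y.1 (M.n i) * M.n i 0 :=
        mul_le_mul ha (hs' i) hs.le (hμ.le.trans ha)
      nlinarith
    · have h1 : i = i₀ := (List.cons.inj he).1
      subst h1
      rw [lor_rv_n (M.unit i)]
      linarith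

end Pool.Agent.Lib.MP_eed79e_coW
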