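import Pool.Agent.Lib.MP_eed79e_coW.Abs
import Pool.Agent.Lib.MP_eed79e_coW.Grp

/-!
# JOB Tr: from the faces to their representatives

PROOFS. `A` an abstract 4-polytope, `β` a faithful realization.
* `mem_rep1`: if `v' ≤ e`, `rank v' = 0`, `β v' = β v` then `v' = v` (`f0`). `mem_rep2`, `mem_rep3`: the same with `f1`, `f2`.
* `isFl_img`: the definitions. `exists_of_isFl`: unfold `img`: `Φ.v = β v`, `Φ.e = rep1 e`, ...; `v ≤ e` by `mem_rep1`, and `v ≠ e` as the ranks are different.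
* `rep1_eq`: the diamond condition for `A.bot < e` (`exists_two`, `rank A.bot = -1`): exactly two elements `a`, `b` between, of rank `0`; `v` is one of them (`A.bot < v < e`), the other one is `w`. `rep1 e = {β a, β b}`: an element `u ≤ e` of rank `0` satisfies `A.bot < u < e`.
* `exists_edge`: an element of rank `1` above a vertex `v`: `exists_between` for `v < top`. `exists_vertex`: `exists_between` for `bot < top`.
-/

set_option autoImplicit false

namespace Pool.Agent.Lib.MP_eed79e_coW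

variable {P : Type} [PartialOrder P] {A : AbsPoly 4 P} {β : P → H3}

theorem mem_rep1 (hF : Faithful A β) {v e : P} (hv : A.rank v = 0) :
    β v ∈ rep1 A β e ↔ v ≤ e := by
  constructor
  · rintro ⟨v', h1, h2, h3⟩
    rw [← hF.f0 v' v h1 hv h3]
    exact h2
  · intro h
    exact ⟨v, hv, h, rfl⟩

theorem mem_rep2 (hF : Faithful A β) {e f : P} (he : A.rank e = 1) :
    rep1 A β e ∈ rep2 A β f ↔ e ≤ f := by
  constructor
  · rintro ⟨e', h1, h2, h3⟩
    rw [← hF.f1 e' e h1 he h3]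
    exact h2
  · intro h
    exact ⟨e, he, h, rfl⟩

theorem mem_rep3 (hF : Faithful A β) {f c : P} (hf : A.rank f = 2) :
    rep2 A β f ∈ rep3 A β c ↔ f ≤ c := by
  constructor
  · rintro ⟨f', h1, h2, h3⟩
    rw [← hF.f2 f' f h1 hf h3]
    exact h2
  · intro h
    exact ⟨f, hf, h, rfl⟩

/-- The flag of `img A β` given by the faces `v`, `e`, `f`, `c`. -/
def toFl (A : AbsPoly 4 P) (β : P → H3) (v e f c : P) : Fl :=
  ⟨β v, rep1 A β e, rep2 A β f, rep3 A β c⟩

theorem isFl_img (hF : Faithful A β) {v e f c : P} (hv : A.rank v = 0) (he : A.rank e = 1)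
    (hf : A.rank f = 2) (hc : A.rank c = 3) (h1 : v < e) (h2 : e < f) (h3 : f < c) :
    IsFl (img A β) (toFl A β v e f c) := by
  exact ⟨⟨v, hv, rfl⟩, ⟨e, he, rfl⟩, ⟨f, hf, rfl⟩, ⟨c, hc, rfl⟩, (mem_rep1 hF hv).2 h1.le,
    (mem_rep2 hF he).2 h2.le, (mem_rep3 hF hf).2 h3.le⟩

theorem exists_of_isFl (hF : Faithful A β) {Φ : Fl} (h : IsFl (img A β) Φ) :
    ∃ v e f c, A.rank v = 0 ∧ A.rank e = 1 ∧ A.rank f = 2 ∧ A.rank c = 3 ∧
      v < e ∧ e < f ∧ f < c ∧ Φ = toFl A β v e f c := by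
  obtain ⟨⟨v, hv, hv'⟩, ⟨e, he, he'⟩, ⟨f, hf, hf'⟩, ⟨c, hc, hc'⟩, h1, h2, h3⟩ := h
  rw [← hv', ← he', mem_rep1 hF hv] at h1
  rw [← he', ← hf', mem_rep2 hF he] at h2
  rw [← hf', ← hc', mem_rep3 hF hf] at h3
  refine ⟨v, e, f, c, hv, he, hf, hc, lt_of_le_of_ne h1 ?_, lt_of_le_of_ne h2 ?_,
    lt_of_le_of_ne h3 ?_, ?_⟩
  · rintro rfl
    omega
  · rintro rfl
    omega
  · rintro rfl
    omega
  · exact Fl.ext hv'.symm he'.symm hf'.symm hc'.symm

theorem toFl_inj (hF : Faithful A β) {v e f c v' e' f' c' : P} (hv : A.rank v = 0)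
    (he : A.rank e = 1) (hf : A.rank f = 2) (hc : A.rank c = 3) (hv' : A.rank v' = 0)
    (he' : A.rank e' = 1) (hf' : A.rank f' = 2) (hc' : A.rank c' = 3)
    (h : toFl A β v e f c = toFl A β v' e' f' c') : v = v' ∧ e = e' ∧ f = f' ∧ c = c' := by
  exact ⟨hF.f0 _ _ hv hv' (congrArg Fl.v h), hF.f1 _ _ he he' (congrArg Fl.e h),
    hF.f2 _ _ hf hf' (congrArg Fl.f h), hF.f3 _ _ hc hc' (congrArg Fl.c h)⟩

theorem rep1_eq (hF : Faithful A β) {v e : P} (hv : A.rank v = 0) (he : A.rank e = 1)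
    (hve : v < e) : ∃ w, A.rank w = 0 ∧ w < e ∧ w ≠ v ∧ rep1 A β e = {β v, β w} := by
  have hb := A.rank_bot
  obtain ⟨a, b, hab, h1, h2, h3, h4, h5, h6, h7⟩ :=
    A.exists_two (x := A.bot) (y := e) (A.bot_lt (by omega)) (by omega)
  have key : ∀ w, A.rank w = 0 → w < e → (∀ z, A.bot < z → z < e → z = v ∨ z = w) →
      rep1 A β e = {β v, β w} := by
    intro w hw hwe hz
    ext x
    rw [Set.mem_insert_iff, Set.mem_singleton_iff]
    constructor
    · rintro ⟨u, hu, hue, rfl⟩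
      have hue' : u < e := by
        refine lt_of_le_of_ne hue ?_
        rintro rfl
        omega
      rcases hz u (A.bot_lt (by omega)) hue' with h | h
      · exact Or.inl (by rw [h])
      · exact Or.inr (by rw [h])
    · rintro (rfl | rfl)
      · exact ⟨v, hv, hve.le, rfl⟩
      · exact ⟨w, hw, hwe.le, rfl⟩
  rcases h7 v (A.bot_lt (by omega)) hve with h | h
  · refine ⟨b, by omega, h4, ?_, key b (by omega) h4 ?_⟩
    · rw [h]
      exact hab.symm
    · rw [h]
      exact h7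
  · refine ⟨a, by omega, h2, ?_, key a (by omega) h2 ?_⟩
    · rw [h]
      exact hab
    · rw [h]
      exact fun z hz1 hz2 => (h7 z hz1 hz2).symm

theorem exists_vertex (A : AbsPoly 4 P) : ∃ v, A.rank v = 0 := by
  have hb := A.rank_bot
  have ht := A.rank_top
  push_cast at ht
  obtain ⟨z, -, -, hz⟩ := A.exists_between (x := A.bot) (y := A.top) (A.bot_lt (by omega)) 0
    (by omega) (by omega)
  exact ⟨z, hz⟩

theorem exists_edge (A : AbsPoly 4 P) {v : P} (hv : A.rank v = 0) :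
    ∃ e, A.rank e = 1 ∧ v < e := by
  have ht := A.rank_top
  push_cast at ht
  obtain ⟨z, h1, -, hz⟩ := A.exists_between (x := v) (y := A.top)
    (A.lt_top (by push_cast; omega)) 1 (by omega) (by omega)
  exact ⟨z, hz, h1⟩

end Pool.Agent.Lib.MP_eed79e_coW
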